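import Pool.Agent.Y266.LT.Stm

/-! # Fields having a subring with a nontrivial involution -/

set_option autoImplicit false

open Polynomial

universe u v

namespace Pool.Agent.Y266.LT

theorem hasInvolution_of_transcendental {K F : Type u} [Field K] [CommRing F] [Algebra F K]
    {t : K} (ht : Transcendental F t) : HasInvolution K := by
  have hF : Nontrivial F := (algebraMap F K).domain_nontrivial
  have h2 : ∀ a : F[X], (a.comp (1 - X)).comp (1 - X) = a := by
    intro a
    rw [comp_assoc]
    simp
  refine ⟨F[X], inferInstance, (aeval t : F[X] →ₐ[F] K).toRingHom, compRingHom (1 - X),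
    transcendental_iff_injective.1 ht, fun a => ?_, X, ?_⟩
  · simpa using h2 a
  · intro h
    have h0 := congrArg (fun p => eval 0 p) h
    simp at h0

theorem hasInvolution_map {K L : Type u} [Field K] [Field L] (f : K →+* L)
    (h : HasInvolution K) : HasInvolution L := by
  obtain ⟨A, _, ι, θ, hι, hθ, hq⟩ := h
  exact ⟨A, inferInstance, f.comp ι, θ, f.injective.comp hι, hθ, hq⟩

theorem hasInvolution_real : HasInvolution ℝ :=
  hasInvolution_of_transcendental (F := ℤ) (transcendental_liouvilleNumber (m := 2) le_rfl)

theorem hasInvolution_complex : HasInvolution ℂ :=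
  hasInvolution_map Complex.ofRealHom hasInvolution_real

end Pool.Agent.Y266.LT
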