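import Pool.Agent.Y266.LT.Stm

/-! # From seeds to bad relations -/

set_option autoImplicit false

open scoped TensorProduct

universe u v

namespace Pool.Agent.Y266.LT

open Pool.Agent.Results.MP_16c542_al.NotLocality

section

variable {K : Type*} [Field K] {E F : Type*} [AddCommGroup E] [Module K E] [AddCommGroup F]
  [Module K F]

theorem zero_rel {r : F → F → Prop} (hr : IsLocalitySpace K r) (y : F) : r 0 y := by
  obtain ⟨W, hW⟩ := hr.2 {y}
  have : (0 : F) ∈ (W : Set F) := W.zero_mem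
  rw [hW] at this
  exact this y rfl

theorem rel_zero' {r : F → F → Prop} (hr : IsLocalitySpace K r) (y : F) : r y 0 :=
  hr.1 _ _ (zero_rel hr y)

theorem add_rel {r : F → F → Prop} (hr : IsLocalitySpace K r) {a b y : F} (ha : r a y)
    (hb : r b y) : r (a + b) y := by
  obtain ⟨W, hW⟩ := hr.2 {y}
  have h1 : a ∈ (W : Set F) := by
    rw [hW]; rintro z rfl; exact ha
  have h2 : b ∈ (W : Set F) := by
    rw [hW]; rintro z rfl; exact hb
  have : a + b ∈ (W : Set F) := W.add_mem h1 h2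
  rw [hW] at this
  exact this y rfl

theorem smul_rel {r : F → F → Prop} (hr : IsLocalitySpace K r) (c : K) {a y : F} (ha : r a y) :
    r (c • a) y := by
  obtain ⟨W, hW⟩ := hr.2 {y}
  have h1 : a ∈ (W : Set F) := by
    rw [hW]; rintro z rfl; exact ha
  have : c • a ∈ (W : Set F) := W.smul_mem c h1
  rw [hW] at this
  exact this y rfl

theorem sum_rel {r : F → F → Prop} (hr : IsLocalitySpace K r) {ι : Type*} (s : Finset ι)
    (c : ι → K) (a : ι → F) (y : F) (ha : ∀ i ∈ s, r (a i) y) : r (∑ i ∈ s, c i • a i) y := by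
  classical
  induction s using Finset.induction_on with
  | empty => simpa using zero_rel hr y
  | insert i s hi ih =>
    rw [Finset.sum_insert hi]
    exact add_rel hr (smul_rel hr _ (ha i (Finset.mem_insert_self _ _)))
      (ih fun j hj => ha j (Finset.mem_insert_of_mem hj))

/-- pulling back a locality relation along a linear map -/
theorem pull_locality {r : F → F → Prop} (hr : IsLocalitySpace K r) (π : E →ₗ[K] F) :
    IsLocalitySpace K (fun a b => r (π a) (π b)) := by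
  refine ⟨fun a b h => hr.1 _ _ h, fun S => ?_⟩
  obtain ⟨W, hW⟩ := hr.2 (π '' S)
  refine ⟨W.comap π, ?_⟩
  ext a
  have : π a ∈ (W : Set F) ↔ π a ∈ polar r (π '' S) := by rw [hW]
  simp only [Submodule.comap_coe, Set.mem_preimage]
  rw [this]
  constructor
  · intro h y hy
    exact h _ ⟨y, hy, rfl⟩
  · rintro h _ ⟨y, hy, rfl⟩
    exact h y hy

theorem mem_locTensor {r : E → E → Prop} {n : ℕ} {v w : Fin n → E} {X : E ⊗[K] E}
    (h : ∀ j, r (v j) (w j)) (hX : X = ∑ j, v j ⊗ₜ[K] w j) :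
    X ∈ LocTensor r (⊤ : Submodule K E) ⊤ := by
  rw [hX]
  exact Submodule.sum_mem _ fun j _ =>
    Submodule.subset_span ⟨v j, trivial, w j, trivial, h j, rfl⟩

/-- the contraction `a ⊗ b ↦ φ a • π b` -/
noncomputable def con1 (φ : E →ₗ[K] K) (π : E →ₗ[K] F) : E ⊗[K] E →ₗ[K] F :=
  TensorProduct.lift (LinearMap.mk₂ K (fun a b => φ a • π b)
    (fun a a' b => by simp [add_smul]) (fun c a b => by simp [smul_smul])
    (fun a b b' => by simp) (fun c a b => by simp [smul_smul, mul_comm]))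

/-- the contraction `a ⊗ b ↦ φ b • π a` -/
noncomputable def con2 (φ : E →ₗ[K] K) (π : E →ₗ[K] F) : E ⊗[K] E →ₗ[K] F :=
  TensorProduct.lift (LinearMap.mk₂ K (fun a b => φ b • π a)
    (fun a a' b => by simp) (fun c a b => by simp [smul_smul, mul_comm])
    (fun a b b' => by simp [add_smul]) (fun c a b => by simp [smul_smul]))

theorem con1_tmul (φ : E →ₗ[K] K) (π : E →ₗ[K] F) (a b : E) :
    con1 φ π (a ⊗ₜ[K] b) = φ a • π b := by simp [con1]

theorem con2_tmul (φ : E →ₗ[K] K) (π : E →ₗ[K] F) (a b : E) :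
    con2 φ π (a ⊗ₜ[K] b) = φ b • π a := by simp [con2]

/-- not a locality space, from a failure of additivity -/
theorem not_locality {r : E → E → Prop} (h : PolarNotClosed r (⊤ : Submodule K E) ⊤) :
    ¬ IsLocalitySpace K (TensorRel r (⊤ : Submodule K E) ⊤) := by
  obtain ⟨X, X', Y, h1, h2, h3⟩ := h
  intro hh
  exact h3 (add_rel hh h1 h2)

theorem lift_core {r : F → F → Prop} (hr : IsLocalitySpace K r) {Y : F ⊗[K] F} {y y' : F}
    (g1 : Good r Y {y}) (g2 : Good r Y {y'}) (g3 : ¬ Good r Y {y, y'})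
    (π : E →ₗ[K] F) (ι : F →ₗ[K] E) (φ : E →ₗ[K] K) (x : E) (hπι : ∀ a, π (ι a) = a)
    (hφx : φ x = 1) (hπx : π x = 0) (hφι : ∀ a, φ (ι a) = 0) :
    PolarNotClosed (fun a b => r (π a) (π b)) (⊤ : Submodule K E) ⊤ := by
  have hY : ∀ {z : F}, Good r Y {z} → TensorProduct.map ι ι Y ∈
      LocTensor (fun a b => r (π a) (π b)) (⊤ : Submodule K E) ⊤ := by
    rintro z ⟨n, v, w, h1, h2, h3⟩
    refine mem_locTensor (v := fun j => ι (v j)) (w := fun j => ι (w j)) ?_ ?_
    · intro j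
      simpa only [hπι] using h1 j
    · rw [h2, map_sum]
      simp
  have hX1 : x ⊗ₜ[K] ι y ∈ LocTensor (fun a b => r (π a) (π b)) (⊤ : Submodule K E) ⊤ :=
    Submodule.subset_span ⟨x, trivial, ι y, trivial, by
      simp only [hπx]; exact zero_rel hr _, rfl⟩
  have hX2 : ι y' ⊗ₜ[K] x ∈ LocTensor (fun a b => r (π a) (π b)) (⊤ : Submodule K E) ⊤ :=
    Submodule.subset_span ⟨ι y', trivial, x, trivial, by
      simp only [hπx]; exact rel_zero' hr _, rfl⟩
  refine ⟨⟨_, hX1⟩, ⟨_, hX2⟩, ⟨_, hY g1⟩, ?_, ?_, ?_⟩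
  · obtain ⟨n, v, w, h1, h2, h3⟩ := g1
    refine ⟨1, n, fun _ => x, fun _ => ι y, fun j => ι (v j), fun j => ι (w j),
      ⟨fun _ => ⟨trivial, trivial, ?_⟩, ?_⟩, ⟨fun j => ⟨trivial, trivial, ?_⟩, ?_⟩,
      fun _ j => ?_⟩
    · simp only [hπx]; exact zero_rel hr _
    · simp
    · simpa only [hπι] using h1 j
    · simp only
      rw [h2, map_sum]
      simp
    · simp only [hπx, hπι]
      exact ⟨zero_rel hr _, zero_rel hr _, h3 y rfl j⟩
  · obtain ⟨n, v, w, h1, h2, h3⟩ := g2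
    refine ⟨1, n, fun _ => ι y', fun _ => x, fun j => ι (v j), fun j => ι (w j),
      ⟨fun _ => ⟨trivial, trivial, ?_⟩, ?_⟩, ⟨fun j => ⟨trivial, trivial, ?_⟩, ?_⟩,
      fun _ j => ?_⟩
    · simp only [hπx]; exact rel_zero' hr _
    · simp
    · simpa only [hπι] using h1 j
    · simp only
      rw [h2, map_sum]
      simp
    · simp only [hπx, hπι]
      exact ⟨(h3 y' rfl j).1, (h3 y' rfl j).2, zero_rel hr _, zero_rel hr _⟩
  · rintro ⟨m, n, v, w, v', w', ⟨h1, hX⟩, ⟨h2, hYd⟩, h3⟩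
    apply g3
    have e1 : y = ∑ i, φ (v i) • π (w i) := by
      have h := congrArg (con1 φ π) hX
      rw [map_sum] at h
      simp only [con1_tmul] at h
      rw [← h]
      simp [con1_tmul, hφx, hπι, hφι]
    have e2 : y' = ∑ i, φ (w i) • π (v i) := by
      have h := congrArg (con2 φ π) hX
      rw [map_sum] at h
      simp only [con2_tmul] at h
      rw [← h]
      simp [con2_tmul, hφx, hπι, hφι]
    refine ⟨n, fun j => π (v' j), fun j => π (w' j), fun j => (h2 j).2.2, ?_, ?_⟩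
    · have h := congrArg (TensorProduct.map π π) hYd
      rw [map_sum] at h
      simp only [TensorProduct.map_tmul] at h
      rw [← h, ← LinearMap.comp_apply, ← TensorProduct.map_comp]
      have hid : π ∘ₗ ι = LinearMap.id := LinearMap.ext hπι
      rw [hid, TensorProduct.map_id]
      rfl
    · rintro z (rfl | rfl) j
      · rw [e1]
        exact ⟨sum_rel hr _ _ _ _ fun i _ => (h3 i j).2.2.1,
          sum_rel hr _ _ _ _ fun i _ => (h3 i j).2.2.2⟩
      · rw [e2]
        exact ⟨sum_rel hr _ _ _ _ fun i _ => (h3 i j).1,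
          sum_rel hr _ _ _ _ fun i _ => (h3 i j).2.1⟩

end

theorem lift : S_LIFT.{u, v} := by
  intro K _ n ⟨r, Y, y, y', hr, g1, g2, g3⟩ E _ _ hrank
  have hrank' : ((n + 1 : ℕ) : Cardinal) ≤ Module.rank K E := by
    rwa [Nat.cast_succ]
  obtain ⟨f, hf⟩ := Module.le_rank_iff_exists_linearMap.1 hrank'
  obtain ⟨g, hg⟩ := f.exists_leftInverse_of_injective (LinearMap.ker_eq_bot.2 hf)
  have hgf : ∀ a, g (f a) = a := fun a => by
    have := congrArg (fun h => h a) hg
    simpa using this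
  let π : E →ₗ[K] (Fin n → K) := LinearMap.funLeft K K (Fin.castSucc) ∘ₗ g
  let ι : (Fin n → K) →ₗ[K] E := f ∘ₗ LinearMap.pi (fun i : Fin (n + 1) =>
    if h : (i : ℕ) < n then LinearMap.proj (⟨i, h⟩ : Fin n) else 0)
  let φ : E →ₗ[K] K := LinearMap.proj (Fin.last n) ∘ₗ g
  let x : E := f (Pi.single (Fin.last n) 1)
  have hbad := lift_core hr g1 g2 g3 π ι φ x ?_ ?_ ?_ ?_
  · exact ⟨_, pull_locality hr π, hbad, not_locality hbad⟩
  · intro a
    ext i
    simp [π, ι, LinearMap.funLeft, hgf]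
  · simp [φ, x, hgf]
  · ext i
    simp [π, x, hgf, LinearMap.funLeft, Fin.castSucc_ne_last]
  · intro a
    simp [φ, ι, hgf]

end Pool.Agent.Y266.LT
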