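import Pool.Agent.Y266.LT.CONF
import Pool.Agent.Y266.LT.LIFT

/-! # A seed of dimension three from a Hermitian form -/

set_option autoImplicit false

open scoped TensorProduct

universe u v

namespace Pool.Agent.Y266.LT

open Pool.Agent.Results.MP_16c542_al.NotLocality

section

variable {K : Type u} [Field K]

theorem par_span {a b : Fin 3 → K} (ha : a ≠ 0) :
    b ∈ Submodule.span K {a} ↔ ∀ i j, a i * b j = a j * b i := by
  constructor
  · intro h i j
    obtain ⟨c, rfl⟩ := Submodule.mem_span_singleton.1 h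
    simp only [Pi.smul_apply, smul_eq_mul]
    ring
  · intro h
    obtain ⟨i, hi⟩ : ∃ i, a i ≠ 0 := by
      by_contra hcon
      push Not at hcon
      exact ha (funext hcon)
    refine Submodule.mem_span_singleton.2 ⟨b i / a i, ?_⟩
    funext j
    have := h i j
    simp only [Pi.smul_apply, smul_eq_mul]
    field_simp
    linear_combination -this

theorem expand {F : Type*} [AddCommGroup F] [Module K F] (x y : F) (s a b c d : K) :
    (s • (a • x + b • y)) ⊗ₜ[K] (c • x + d • y) = (s * a * c) • (x ⊗ₜ[K] x) +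
      (s * a * d) • (x ⊗ₜ[K] y) + (s * b * c) • (y ⊗ₜ[K] x) + (s * b * d) • (y ⊗ₜ[K] y) := by
  simp only [TensorProduct.tmul_add, TensorProduct.add_tmul, smul_add,
    ← TensorProduct.smul_tmul', TensorProduct.tmul_smul, smul_smul]
  module

/-- the kernel of the functional `b ↦ ∑ b i * u i` -/
def kerf (u : Fin 3 → K) : Submodule K (Fin 3 → K) where
  carrier := {b | b 0 * u 0 + b 1 * u 1 + b 2 * u 2 = 0}
  add_mem' := by
    intro a b ha hb
    simp only [Set.mem_ofPred_eq, Pi.add_apply] at *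
    linear_combination ha + hb
  zero_mem' := by simp
  smul_mem' := by
    intro c a ha
    simp only [Set.mem_ofPred_eq, Pi.smul_apply, smul_eq_mul] at *
    linear_combination c * ha

theorem mem_kerf {u b : Fin 3 → K} : b ∈ kerf u ↔ b 0 * u 0 + b 1 * u 1 + b 2 * u 2 = 0 := Iff.rfl

theorem kerf_eq {u v : Fin 3 → K} (hu : u ≠ 0) (hv : v ≠ 0) :
    kerf u = kerf v ↔ ∀ i j, u i * v j = u j * v i := by
  constructor
  · intro h
    have h01 : (![u 1, - u 0, 0] : Fin 3 → K) ∈ kerf v := by
      rw [← h, mem_kerf]; simp; ring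
    have h02 : (![u 2, 0, - u 0] : Fin 3 → K) ∈ kerf v := by
      rw [← h, mem_kerf]; simp; ring
    have h12 : (![0, u 2, - u 1] : Fin 3 → K) ∈ kerf v := by
      rw [← h, mem_kerf]; simp; ring
    rw [mem_kerf] at h01 h02 h12
    simp at h01 h02 h12
    intro i j
    fin_cases i <;> fin_cases j <;> simp <;>
      first
        | ring1
        | linear_combination h01
        | linear_combination -h01
        | linear_combination h02
        | linear_combination -h02
        | linear_combination h12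
        | linear_combination -h12
  · intro h
    have h1 : v ∈ Submodule.span K {u} := (par_span hu).2 h
    obtain ⟨c, rfl⟩ := Submodule.mem_span_singleton.1 h1
    have hc : c ≠ 0 := fun h0 => hv (by rw [h0, zero_smul])
    ext b
    rw [mem_kerf, mem_kerf]
    simp only [Pi.smul_apply, smul_eq_mul]
    constructor
    · intro hb
      linear_combination c * hb
    · intro hb
      have : c * (b 0 * u 0 + b 1 * u 1 + b 2 * u 2) = 0 := by linear_combination hb
      rcases mul_eq_zero.1 this with h0 | h0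
      · exact absurd h0 hc
      · exact h0

theorem cross {u v b : Fin 3 → K} (hu : b ∈ kerf u) (hv : b ∈ kerf v) :
    let k : Fin 3 → K := ![u 1 * v 2 - u 2 * v 1, u 2 * v 0 - u 0 * v 2, u 0 * v 1 - u 1 * v 0]
    ∀ i j, k i * b j = k j * b i := by
  rw [mem_kerf] at hu hv
  intro k i j
  fin_cases i <;> fin_cases j <;> simp [k] <;>
    first
      | ring1
      | linear_combination v 2 * hu - u 2 * hv
      | linear_combination -v 2 * hu + u 2 * hv
      | linear_combination v 1 * hu - u 1 * hv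
      | linear_combination -v 1 * hu + u 1 * hv
      | linear_combination v 0 * hu - u 0 * hv
      | linear_combination -v 0 * hu + u 0 * hv

end

section

variable {K A : Type u} [Field K] [CommRing A] (ι : A →+* K) (θ : A →+* A)

/-- the points with coordinates in `A` -/
def pt (c : {c : Fin 3 → A // c ≠ 0}) : Fin 3 → K := fun i => ι (c.1 i)

/-- their polar spaces -/
def Pt (c : {c : Fin 3 → A // c ≠ 0}) : Submodule K (Fin 3 → K) := kerf fun i => ι (θ (c.1 i))

variable {ι θ}

theorem theta_ne (hθ : ∀ a, θ (θ a) = a) {c : Fin 3 → A} (hc : c ≠ 0) :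
    (fun i => θ (c i)) ≠ 0 := by
  intro h
  apply hc
  funext i
  have := congrFun h i
  have h2 := congrArg θ this
  simpa [hθ] using h2

theorem iota_ne (hι : Function.Injective ι) {c : Fin 3 → A} (hc : c ≠ 0) :
    (fun i => ι (c i)) ≠ 0 := by
  intro h
  apply hc
  funext i
  have := congrFun h i
  exact (map_eq_zero_iff ι hι).1 this

theorem par_iota (hι : Function.Injective ι) {c d : Fin 3 → A} :
    (∀ i j, ι (c i) * ι (d j) = ι (c j) * ι (d i)) ↔ ∀ i j, c i * d j = c j * d i := by
  simp only [← map_mul, hι.eq_iff]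

theorem par_theta (hθ : ∀ a, θ (θ a) = a) {c d : Fin 3 → A} :
    (∀ i j, θ (c i) * θ (d j) = θ (c j) * θ (d i)) ↔ ∀ i j, c i * d j = c j * d i := by
  have hinj : Function.Injective θ := fun a b h => by rw [← hθ a, h, hθ]
  simp only [← map_mul, hinj.eq_iff]

theorem herm_locality (hι : Function.Injective ι) (hθ : ∀ a, θ (θ a) = a) :
    (∀ i j, pt ι i ∈ Pt ι θ j → pt ι j ∈ Pt ι θ i) ∧
    (∀ i j, pt ι j ∈ Submodule.span K {pt ι i} ↔ Pt ι θ i = Pt ι θ j) ∧
    IsLocalitySpace K (crel (pt ι) (Pt ι θ)) := by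
  have h1 : ∀ i j, pt ι i ∈ Pt ι θ j → pt ι j ∈ Pt ι θ i := by
    intro c d h
    simp only [Pt, mem_kerf, pt, ← map_mul, ← map_add] at h ⊢
    rw [map_eq_zero_iff ι hι] at h ⊢
    have := congrArg θ h
    simp only [map_add, map_mul, hθ, map_zero] at this
    linear_combination this
  have h3 : ∀ i j, pt ι j ∈ Submodule.span K {pt ι i} ↔ Pt ι θ i = Pt ι θ j := by
    intro c d
    rw [par_span (a := pt ι c) (iota_ne hι c.2), Pt, Pt,
      kerf_eq (iota_ne hι (theta_ne hθ c.2)) (iota_ne hι (theta_ne hθ d.2))]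
    simp only [pt]
    rw [par_iota hι, par_iota (c := fun i => θ (c.1 i)) (d := fun i => θ (d.1 i)) hι,
      par_theta hθ]
  refine ⟨h1, h3, conf K _ _ (pt ι) (Pt ι θ) (fun c => iota_ne hι c.2) h1 ?_ h3⟩
  intro c d hne b hb hb' hb0
  let k : Fin 3 → A := ![θ (c.1 1) * θ (d.1 2) - θ (c.1 2) * θ (d.1 1),
    θ (c.1 2) * θ (d.1 0) - θ (c.1 0) * θ (d.1 2), θ (c.1 0) * θ (d.1 1) - θ (c.1 1) * θ (d.1 0)]
  have hk : k ≠ 0 := by
    intro hk
    apply hne
    rw [← h3, par_span (a := pt ι c) (iota_ne hι c.2)]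
    simp only [pt]
    rw [par_iota hι, ← par_theta hθ]
    have k0 := congrFun hk 0
    have k1 := congrFun hk 1
    have k2 := congrFun hk 2
    simp [k] at k0 k1 k2
    intro i j
    fin_cases i <;> fin_cases j <;> simp <;>
      first
        | ring1
        | linear_combination k0
        | linear_combination -k0
        | linear_combination k1
        | linear_combination -k1
        | linear_combination k2
        | linear_combination -k2
  refine ⟨⟨k, hk⟩, (par_span (iota_ne hι hk)).2 ?_⟩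
  have := cross hb hb'
  intro i j
  have h2 := this i j
  have e : ∀ i, ι (k i) = (![ι (θ (c.1 1)) * ι (θ (d.1 2)) - ι (θ (c.1 2)) * ι (θ (d.1 1)),
      ι (θ (c.1 2)) * ι (θ (d.1 0)) - ι (θ (c.1 0)) * ι (θ (d.1 2)),
      ι (θ (c.1 0)) * ι (θ (d.1 1)) - ι (θ (c.1 1)) * ι (θ (d.1 0))] : Fin 3 → K) i := by
    intro i
    fin_cases i <;> simp [k]
  rw [e, e]
  exact h2

theorem rel_of {c d : Fin 3 → A} (h : d 0 * θ (c 0) + d 1 * θ (c 1) + d 2 * θ (c 2) = 0) :
    crel (pt ι) (Pt ι θ) (fun i => ι (c i)) (fun i => ι (d i)) := by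
  by_cases hc : c = 0
  · left
    funext i
    simp [hc]
  · right; right
    refine ⟨⟨c, hc⟩, Or.inl ⟨Submodule.mem_span_singleton_self _, ?_⟩⟩
    rw [Pt, mem_kerf]
    simp only [← map_mul, ← map_add]
    rw [h, map_zero]

end

theorem n3 : S_N3.{u} := by
  rintro K _ ⟨A, _, ι, θ, hι, hθ, q, hq⟩
  obtain ⟨h1, h3, hloc⟩ := herm_locality hι hθ
  have hnt : Nontrivial A := ⟨θ q, q, hq⟩
  set r := crel (pt ι) (Pt ι θ) with hr
  -- unit vectors
  have he : ∀ k : Fin 3, (Pi.single k 1 : Fin 3 → K) = fun i => ι ((Pi.single k 1 : Fin 3 → A) i) := by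
    intro k
    funext i
    by_cases h : i = k
    · subst h; simp
    · simp [h]
  set z : K := ι (q - θ q) with hz
  have hz0 : z ≠ 0 := by
    rw [hz]
    intro h
    have := (map_eq_zero_iff ι hι).1 h
    exact hq (sub_eq_zero.1 this).symm
  have hgood : ∀ k l : Fin 3, k ≠ 0 → l ≠ 0 → k ≠ l →
      Good r ((Pi.single 0 1 : Fin 3 → K) ⊗ₜ[K] (Pi.single 0 1 : Fin 3 → K))
        {(Pi.single l 1 : Fin 3 → K)} := by
    intro k l hk hl hkl
    let a0 : Fin 3 → A := Pi.single 0 1
    let ak : Fin 3 → A := Pi.single k 1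
    let V : Fin 4 → Fin 3 → A := ![a0 + q • ak, a0 + ak, a0, ak]
    let W : Fin 4 → Fin 3 → A := ![(-θ q) • a0 + ak, -a0 + ak, ak, a0]
    let s : Fin 4 → K := ![1 / z, -(ι q) / z, -(1 - ι q) / z, -(ι q - ι q * ι (θ q)) / z]
    refine ⟨4, fun j => s j • (fun i => ι (V j i)), fun j => (fun i => ι (W j i)), ?_, ?_, ?_⟩
    · intro j
      apply smul_rel hloc
      apply rel_of
      fin_cases k <;> simp at hk <;> fin_cases j <;>
        simp [V, W, a0, ak, hθ, Pi.single_apply]
    · have e0 : ∀ j, (fun i => ι (V j i)) = ι (V j 0) • (Pi.single 0 1 : Fin 3 → K) +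
          ι (V j k) • (Pi.single k 1 : Fin 3 → K) := by
        intro j
        funext i
        fin_cases k <;> simp at hk <;> fin_cases j <;> fin_cases i <;>
          simp [V, a0, ak, Pi.single_apply]
      have e1 : ∀ j, (fun i => ι (W j i)) = ι (W j 0) • (Pi.single 0 1 : Fin 3 → K) +
          ι (W j k) • (Pi.single k 1 : Fin 3 → K) := by
        intro j
        funext i
        fin_cases k <;> simp at hk <;> fin_cases j <;> fin_cases i <;>
          simp [W, a0, ak, Pi.single_apply]
      simp only [e0, e1]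
      generalize (Pi.single 0 1 : Fin 3 → K) = x
      generalize (Pi.single k 1 : Fin 3 → K) = y
      simp only [Fin.sum_univ_four, expand]
      have hV0 : V 0 0 = 1 ∧ V 1 0 = 1 ∧ V 2 0 = 1 ∧ V 3 0 = 0 := by
        simp [V, a0, ak, Ne.symm hk, Pi.single_apply]
      have hVk : V 0 k = q ∧ V 1 k = 1 ∧ V 2 k = 0 ∧ V 3 k = 1 := by
        simp [V, a0, ak, hk, Pi.single_apply]
      have hW0 : W 0 0 = -θ q ∧ W 1 0 = -1 ∧ W 2 0 = 0 ∧ W 3 0 = 1 := by
        simp [W, a0, ak, Ne.symm hk, Pi.single_apply]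
      have hWk : W 0 k = 1 ∧ W 1 k = 1 ∧ W 2 k = 1 ∧ W 3 k = 0 := by
        simp [W, a0, ak, hk, Pi.single_apply]
      simp only [hV0, hVk, hW0, hWk, s, Matrix.cons_val_zero, Matrix.cons_val_one,
        Matrix.cons_val, map_one, map_zero, map_neg]
      have hzz : z = ι q - ι (θ q) := by rw [hz, map_sub]
      have hz1 : ι q - ι (θ q) ≠ 0 := by rwa [← hzz]
      rw [hzz]
      generalize x ⊗ₜ[K] x = xx
      generalize x ⊗ₜ[K] y = xy
      generalize y ⊗ₜ[K] x = yx
      generalize y ⊗ₜ[K] y = yy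
      match_scalars <;> field_simp <;> ring
    · rintro _ rfl j
      constructor
      · apply hloc.1
        apply smul_rel hloc
        rw [he]
        apply rel_of
        fin_cases k <;> simp at hk <;> fin_cases l <;> simp at hl hkl <;> fin_cases j <;>
          simp [V, a0, ak, Pi.single_apply]
      · rw [he]
        apply rel_of
        fin_cases k <;> simp at hk <;> fin_cases l <;> simp at hl hkl <;> fin_cases j <;>
          simp [W, a0, ak, Pi.single_apply]
  have hne : ∀ k : Fin 3, (Pi.single k 1 : Fin 3 → A) ≠ 0 := by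
    intro k h
    have := congrFun h k
    simp at this
  have hpt : ∀ k : Fin 3, (Pi.single k 1 : Fin 3 → K) ∈
      Submodule.span K {pt ι ⟨(Pi.single k 1 : Fin 3 → A), hne k⟩} := by
    intro k
    rw [he]
    exact Submodule.mem_span_singleton_self _
  have hpol : ∀ (k : Fin 3) (x : Fin 3 → K) (c : K), c ≠ 0 →
      r x (c • (Pi.single k 1 : Fin 3 → K)) → x k = 0 := by
    intro k x c hc hx
    have h0 : c • (Pi.single k 1 : Fin 3 → K) ≠ 0 := by
      intro h
      have := congrFun h k
      simp [hc] at this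
    rw [hr, crel_point h1 h3 (Submodule.smul_mem _ c (hpt k)) h0] at hx
    rw [Pt, mem_kerf] at hx
    fin_cases k <;> simpa [Pi.single_apply] using hx
  refine ⟨r, _, Pi.single 1 1, Pi.single 2 1, hloc, hgood 2 1 (by decide) (by decide) (by decide),
    hgood 1 2 (by decide) (by decide) (by decide), ?_⟩
  rintro ⟨n, v, w, hvw, hY, hz⟩
  have hv : ∀ j, v j = v j 0 • (Pi.single 0 1 : Fin 3 → K) := by
    intro j
    have a1 := hpol 1 (v j) 1 one_ne_zero (by
      rw [one_smul]; exact hloc.1 _ _ (hz _ (Or.inl rfl) j).1)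
    have a2 := hpol 2 (v j) 1 one_ne_zero (by
      rw [one_smul]; exact hloc.1 _ _ (hz _ (Or.inr rfl) j).1)
    funext i
    fin_cases i <;> simp [a1, a2]
  have hw : ∀ j, w j = w j 0 • (Pi.single 0 1 : Fin 3 → K) := by
    intro j
    have a1 := hpol 1 (w j) 1 one_ne_zero (by
      rw [one_smul]; exact hloc.1 _ _ (hz _ (Or.inl rfl) j).2)
    have a2 := hpol 2 (w j) 1 one_ne_zero (by
      rw [one_smul]; exact hloc.1 _ _ (hz _ (Or.inr rfl) j).2)
    funext i
    fin_cases i <;> simp [a1, a2]
  have hprod : ∀ j, v j 0 * w j 0 = 0 := by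
    intro j
    by_cases h0 : w j 0 = 0
    · rw [h0, mul_zero]
    · have := hpol 0 (v j) (w j 0) h0 (by rw [← hw j]; exact hvw j)
      rw [this, zero_mul]
  have h := congrArg (con1 (LinearMap.proj 0 : (Fin 3 → K) →ₗ[K] K)
    (LinearMap.proj 0 : (Fin 3 → K) →ₗ[K] K)) hY
  rw [map_sum] at h
  simp [con1_tmul, hprod] at h

end Pool.Agent.Y266.LT
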