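import Pool.Agent.Y266.LT.LIFT

/-! # A seed of dimension four over every field -/

set_option autoImplicit false

open scoped TensorProduct

universe u v

namespace Pool.Agent.Y266.LT

open Pool.Agent.Results.MP_16c542_al.NotLocality

/-- the relation of the seed -/
def rel4 {K : Type*} [Field K] (a b : Fin 4 → K) : Prop :=
  a 0 * b 0 = 0 ∧ a 1 * b 1 = 0 ∧ a 0 * b 1 + a 1 * b 0 = a 2 * b 2 + a 3 * b 3

theorem rel4_locality {K : Type u} [Field K] : IsLocalitySpace K (rel4 (K := K)) := by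
  refine ⟨fun x y h => ⟨by linear_combination h.1, by linear_combination h.2.1,
    by linear_combination h.2.2⟩, fun S => ⟨⟨⟨⟨polar rel4 S, ?_⟩, ?_⟩, ?_⟩, rfl⟩⟩
  · intro a b ha hb y hy
    obtain ⟨h1, h2, h3⟩ := ha y hy
    obtain ⟨g1, g2, g3⟩ := hb y hy
    refine ⟨?_, ?_, ?_⟩ <;> simp only [Pi.add_apply]
    · linear_combination h1 + g1
    · linear_combination h2 + g2
    · linear_combination h3 + g3
  · intro y _
    refine ⟨?_, ?_, ?_⟩ <;> simp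
  · intro c a ha y hy
    obtain ⟨h1, h2, h3⟩ := ha y hy
    refine ⟨?_, ?_, ?_⟩ <;> simp only [Pi.smul_apply, smul_eq_mul]
    · linear_combination c * h1
    · linear_combination c * h2
    · linear_combination c * h3

/-- unit vectors -/
def e4 {K : Type*} [Field K] (i : Fin 4) : Fin 4 → K := Pi.single i 1

theorem good4 {K : Type u} [Field K] (k l : Fin 4) (h : k = 2 ∧ l = 3 ∨ k = 3 ∧ l = 2) :
    Good (K := K) rel4 ((e4 0 : Fin 4 → K) ⊗ₜ[K] (e4 1 : Fin 4 → K) -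
      (e4 1 : Fin 4 → K) ⊗ₜ[K] (e4 0 : Fin 4 → K)) {(e4 k : Fin 4 → K)} := by
  refine ⟨6, ![e4 0 + e4 l, -(e4 1 + e4 l), -e4 0, -e4 l, e4 1, e4 l],
    ![e4 1 + e4 l, e4 0 + e4 l, e4 l, e4 1, e4 l, e4 0], ?_, ?_, ?_⟩
  · intro j
    rcases h with ⟨rfl, rfl⟩ | ⟨rfl, rfl⟩ <;> fin_cases j <;> simp [rel4, e4]
  · rw [Fin.sum_univ_six]
    simp only [Matrix.cons_val_zero, Matrix.cons_val_one, Matrix.cons_val,
      TensorProduct.add_tmul, TensorProduct.tmul_add, TensorProduct.neg_tmul]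
    abel
  · rintro _ rfl j
    rcases h with ⟨rfl, rfl⟩ | ⟨rfl, rfl⟩ <;> fin_cases j <;> simp [rel4, e4]

theorem n4all (K : Type u) [Field K] : HasSeed K 4 := by
  refine ⟨rel4, e4 0 ⊗ₜ[K] e4 1 - e4 1 ⊗ₜ[K] e4 0, e4 2, e4 3, rel4_locality,
    good4 2 3 (Or.inl ⟨rfl, rfl⟩), good4 3 2 (Or.inr ⟨rfl, rfl⟩), ?_⟩
  rintro ⟨n, v, w, hvw, hY, hz⟩
  have hs : ∀ x : Fin 4 → K, rel4 (e4 2) x → rel4 (e4 3) x → x 2 = 0 ∧ x 3 = 0 := by
    intro x h2 h3
    obtain ⟨-, -, h2⟩ := h2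
    obtain ⟨-, -, h3⟩ := h3
    simp [e4] at h2 h3
    exact ⟨h2.symm, h3.symm⟩
  have hprod : ∀ j, v j 0 * w j 1 = 0 := by
    intro j
    obtain ⟨a2, a3⟩ := hs (v j) (hz _ (Or.inl rfl) j).1 (hz _ (Or.inr rfl) j).1
    obtain ⟨h1, h2, h3⟩ := hvw j
    rw [a2, a3] at h3
    have : (v j 0 * w j 1) * (v j 0 * w j 1) = 0 := by
      linear_combination v j 0 * w j 1 * h3 - v j 1 * w j 1 * h1
    exact mul_self_eq_zero.1 this
  have h := congrArg (con1 (LinearMap.proj 0 : (Fin 4 → K) →ₗ[K] K)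
    (LinearMap.proj 1 : (Fin 4 → K) →ₗ[K] K)) hY
  rw [map_sum] at h
  simp [con1_tmul, hprod, e4] at h

end Pool.Agent.Y266.LT
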