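import Pool.Agent.Y266.LT.INV

/-!
# Finite fields having a subring with a nontrivial involution
-/

set_option autoImplicit false

open Polynomial

universe u

namespace Pool.Agent.Y266.LT

/-- a finite field with a nontrivial involution has square order -/
theorem isSquare_card_of_involution (A : Type u) [Field A] [Finite A] (θ : A →+* A)
    (h2 : ∀ a, θ (θ a) = a) (h : ∃ a, θ a ≠ a) : IsSquare (Nat.card A) := by
  classical
  haveI : Fintype A := Fintype.ofFinite A
  let e : RingAut A := RingEquiv.ofRingHom θ θ (RingHom.ext h2) (RingHom.ext h2)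
  have he : ∀ a, e a = θ a := fun a => rfl
  have ho : orderOf e = 2 := by
    refine orderOf_eq_prime (p := 2) ?_ ?_
    · rw [pow_two]
      ext a
      exact h2 a
    · intro h1
      obtain ⟨a, ha⟩ := h
      apply ha
      rw [← he a, h1]
      rfl
  have hc : Nat.card (Subgroup.zpowers e) = 2 := by rw [Nat.card_zpowers, ho]
  haveI : Finite (Subgroup.zpowers e) := Nat.finite_of_card_ne_zero (by rw [hc]; norm_num)
  haveI : Fintype (Subgroup.zpowers e) := Fintype.ofFinite _
  have hf := FixedPoints.finrank_eq_card (Subgroup.zpowers e) A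
  rw [← Nat.card_eq_fintype_card, hc] at hf
  have hq : Nat.card A = Nat.card (FixedPoints.subfield (Subgroup.zpowers e) A) ^
      Module.finrank (FixedPoints.subfield (Subgroup.zpowers e) A) A :=
    Module.natCard_eq_pow_finrank
  rw [hf] at hq
  exact ⟨_, by rw [hq, pow_two]⟩

theorem ff (K : Type u) [Field K] [Finite K] : HasInvolution K ↔ IsSquare (Nat.card K) := by
  classical
  constructor
  · rintro ⟨A, _, ι, θ, hι, hθ, a, ha⟩
    haveI : Finite A := Finite.of_injective ι hι
    haveI : IsDomain A := hι.isDomain ι
    letI : Field A := (Finite.isField_of_domain A).toField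
    obtain ⟨q, hq⟩ := isSquare_card_of_involution A θ hθ ⟨a, ha⟩
    letI : Algebra A K := ι.toAlgebra
    have hK : Nat.card K = Nat.card A ^ Module.finrank A K := Module.natCard_eq_pow_finrank
    exact ⟨q ^ Module.finrank A K, by rw [hK, hq, mul_pow]⟩
  · rintro ⟨q, hq⟩
    haveI : Fintype K := Fintype.ofFinite K
    rw [Nat.card_eq_fintype_card] at hq
    obtain ⟨p, hCP, n, hp, hn⟩ := FiniteField.card' K
    haveI : Fact p.Prime := ⟨hp⟩
    have hK1 : 1 < Fintype.card K := Fintype.one_lt_card
    have hdvd : q ∣ p ^ (n : ℕ) := ⟨q, by rw [← hn, hq]⟩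
    obtain ⟨m, -, hm⟩ := (Nat.dvd_prime_pow hp).1 hdvd
    have hq1 : 1 < q := by
      by_contra h
      have : q * q ≤ 1 * 1 := Nat.mul_le_mul (by omega) (by omega)
      omega
    refine ⟨K, inferInstance, RingHom.id K, iterateFrobenius K p m, Function.injective_id, ?_, ?_⟩
    · intro a
      rw [iterateFrobenius_def, iterateFrobenius_def, ← pow_mul, ← hm, ← hq,
        FiniteField.pow_card]
    · by_contra hcon
      push Not at hcon
      have h1 : (Finset.univ : Finset K) ⊆ (X ^ q - X : K[X]).roots.toFinset := by
        intro a _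
        rw [Multiset.mem_toFinset, mem_roots (FiniteField.X_pow_card_sub_X_ne_zero K hq1)]
        have h2 := hcon a
        rw [iterateFrobenius_def, ← hm] at h2
        simp [h2]
      have h3 := (Finset.card_le_card h1).trans ((Multiset.toFinset_card_le _).trans
        (Polynomial.card_roots' _))
      rw [FiniteField.X_pow_card_sub_X_natDegree_eq K hq1, Finset.card_univ, hq] at h3
      nlinarith

end Pool.Agent.Y266.LT
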