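import Pool.Agent.Y266.LT.Stm2

/-! # Dimension four: assembly -/

set_option autoImplicit false

open scoped TensorProduct
open Module

universe u v

namespace Pool.Agent.Y266.LT

open Pool.Agent.Results.MP_16c542_al.NotLocality Pos

section

variable {K : Type u} [Field K] {E : Type v} [AddCommGroup E] [Module K E] {r : E → E → Prop}

theorem exists_min [FiniteDimensional K E] {V W U : Submodule K E} {Y : E ⊗[K] E}
    (hY : Y ∈ LocTensor r (V ⊓ U) (W ⊓ U)) :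
    ∃ U' ≤ U, Y ∈ LocTensor r (V ⊓ U') (W ⊓ U') ∧
      ∀ U'' : Submodule K E, U'' < U' → Y ∉ LocTensor r (V ⊓ U'') (W ⊓ U'') := by
  have hwf : WellFounded ((· < ·) : Submodule K E → Submodule K E → Prop) := wellFounded_lt
  obtain ⟨U', ⟨h1, h2⟩, h3⟩ := hwf.has_min
    {U' : Submodule K E | U' ≤ U ∧ Y ∈ LocTensor r (V ⊓ U') (W ⊓ U')} ⟨U, le_rfl, hY⟩
  exact ⟨U', h1, h2, fun U'' hlt hY'' => h3 U'' ⟨hlt.le.trans h1, hY''⟩ hlt⟩

theorem Sit.symm {hr : IsLocalitySpace K r} {V W U₁ U₂ : Submodule K E} {X₁ X₂ Y : E ⊗[K] E}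
    (h : Sit hr V W U₁ U₂ X₁ X₂ Y) : Sit hr V W U₂ U₁ X₂ X₁ Y where
  hX₁ := h.hX₂
  hX₂ := h.hX₁
  hY₁ := h.hY₂
  hY₂ := h.hY₁
  min₁ := h.min₂
  min₂ := h.min₁
  nj := fun ⟨U, a, b, c⟩ => h.nj ⟨U, b, a, c⟩

theorem Sit.not_le {hr : IsLocalitySpace K r} {V W U₁ U₂ : Submodule K E} {X₁ X₂ Y : E ⊗[K] E}
    (h : Sit hr V W U₁ U₂ X₁ X₂ Y) : ¬ U₁ ≤ U₂ := fun hle =>
  h.nj ⟨U₁, h.hX₁, loc_anti hr hle h.hX₂, h.hY₁⟩

theorem Sit.two_le [FiniteDimensional K E] {hr : IsLocalitySpace K r}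
    {V W U₁ U₂ : Submodule K E} {X₁ X₂ Y : E ⊗[K] E}
    (h : Sit hr V W U₁ U₂ X₁ X₂ Y) : 2 ≤ finrank K U₁ := by
  have hlt : U₁ ⊓ U₂ < U₁ := lt_of_le_of_ne inf_le_left fun h' => h.not_le (h' ▸ inf_le_right)
  by_contra hcon
  have hN : finrank K (U₁ ⊓ U₂ : Submodule K E) = 0 := by
    have := Submodule.finrank_lt_finrank_of_lt hlt
    omega
  have hbot : U₁ ⊓ U₂ = ⊥ := Submodule.finrank_eq_zero.1 hN
  have hY0 : Y = 0 := by
    rcases rank_one (N := U₁ ⊓ U₂) (by omega) (Y := Y)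
      (fun f => ⟨(cl_loc h.hY₁ f).2, (cl_loc h.hY₂ f).2⟩)
      (fun f => ⟨(cr_loc h.hY₁ f).2, (cr_loc h.hY₂ f).2⟩) with h0 | ⟨s, hsN, c, hs0, -, -⟩
    · exact h0
    · rw [hbot] at hsN
      exact absurd ((Submodule.mem_bot K).1 hsN) hs0
  apply h.min₁ ⊥ (hbot ▸ hlt)
  rw [hY0]
  exact Submodule.zero_mem _

theorem key4 (hR3 : S_R3.{u, v}) (hRN : S_RN.{u, v}) (hR22 : S_R22.{u, v})
    (hr : IsLocalitySpace K r) [FiniteDimensional K E] (hE : finrank K E = 4)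
    (hT : ¬ Tri K r) {V W U₁ U₂ : Submodule K E} {X₁ X₂ Y : E ⊗[K] E}
    (hX₁ : X₁ ∈ LocTensor r (V ⊓ plr hr U₁) (W ⊓ plr hr U₁))
    (hX₂ : X₂ ∈ LocTensor r (V ⊓ plr hr U₂) (W ⊓ plr hr U₂))
    (hY₁ : Y ∈ LocTensor r (V ⊓ U₁) (W ⊓ U₁)) (hY₂ : Y ∈ LocTensor r (V ⊓ U₂) (W ⊓ U₂)) :
    ∃ U : Submodule K E, X₁ ∈ LocTensor r (V ⊓ plr hr U) (W ⊓ plr hr U) ∧
      X₂ ∈ LocTensor r (V ⊓ plr hr U) (W ⊓ plr hr U) ∧ Y ∈ LocTensor r (V ⊓ U) (W ⊓ U) := by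
  by_contra hnj
  obtain ⟨U₁', hle₁, hY₁', hmin₁⟩ := exists_min hY₁
  obtain ⟨U₂', hle₂, hY₂', hmin₂⟩ := exists_min hY₂
  have hS : Sit hr V W U₁' U₂' X₁ X₂ Y :=
    ⟨loc_anti hr hle₁ hX₁, loc_anti hr hle₂ hX₂, hY₁', hY₂', hmin₁, hmin₂, hnj⟩
  by_cases hR : plr hr (Set.univ : Set E) = ⊥
  · have hdim : ∀ {A B : Submodule K E} {X X' : E ⊗[K] E}, Sit hr V W A B X X' Y →
        finrank K A = 2 := by
      intro A B X X' hS
      have h2 := hS.two_le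
      have h3 := hR3 K E r hr V W A B X X' Y hE hS hR
      have h4 : finrank K A ≠ 4 := by
        intro h4
        have htop : A = ⊤ := Submodule.eq_top_of_finrank_eq (by rw [h4, hE])
        exact hS.symm.not_le (htop ▸ le_top)
      have h5 : finrank K A ≤ finrank K E := Submodule.finrank_le A
      omega
    exact hT (hR22 K E r hr V W U₁' U₂' X₁ X₂ Y hE hS hR (hdim hS) (hdim hS.symm))
  · exact hT (hRN K E r hr V W U₁' U₂' X₁ X₂ Y hE hS hR)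

/-- dimension four over fields without involution -/
theorem dim4 (hTRI : S_TRI.{u, v}) (hR3 : S_R3.{u, v}) (hRN : S_RN.{u, v})
    (hR22 : S_R22.{u, v}) (hr : IsLocalitySpace K r) (hrk : Module.rank K E = 4)
    (hK : ¬ HasInvolution K) (V W : Submodule K E) : IsLocalitySpace K (TensorRel r V W) := by
  have hfd : FiniteDimensional K E := by
    show Module.Finite K E
    rw [← rank_lt_aleph0_iff, hrk]
    exact_mod_cast (Cardinal.natCast_lt_aleph0 (n := 4))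
  have hE : finrank K E = 4 := by
    have h : ((finrank K E : ℕ) : Cardinal) = ((4 : ℕ) : Cardinal) := by
      rw [finrank_eq_rank, hrk]
      norm_num
    exact_mod_cast h
  have hT : ¬ Tri K r := fun h => hK (hTRI K E r hr h)
  refine ⟨?_, ?_⟩
  · rintro X Y ⟨m, n, v, w, v', w', h1, h2, h3⟩
    exact ⟨n, m, v', w', v, w, h2, h1, fun i j => ⟨hr.1 _ _ (h3 j i).1, hr.1 _ _ (h3 j i).2.2.1,
      hr.1 _ _ (h3 j i).2.1, hr.1 _ _ (h3 j i).2.2.2⟩⟩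
  · intro S
    refine ⟨{ carrier := polar (TensorRel r V W) S
              zero_mem' := ?_
              add_mem' := ?_
              smul_mem' := ?_ }, rfl⟩
    · intro X₁ X₂ h1 h2 Y hY
      obtain ⟨U₁, h3, h4⟩ := (rel_iff hr _ _).1 (h1 Y hY)
      obtain ⟨U₂, h5, h6⟩ := (rel_iff hr _ _).1 (h2 Y hY)
      obtain ⟨U, h7, h8, h9⟩ := key4 hR3 hRN hR22 hr hE hT h3 h5 h4 h6
      exact (rel_iff hr _ _).2 ⟨U, Submodule.add_mem _ h7 h8, h9⟩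
    · intro Y _
      refine (rel_iff hr _ _).2 ⟨⊤, Submodule.zero_mem _, ?_⟩
      rw [inf_top_eq, inf_top_eq]
      exact Y.2
    · intro c X h Y hY
      obtain ⟨U, h3, h4⟩ := (rel_iff hr _ _).1 (h Y hY)
      exact (rel_iff hr _ _).2 ⟨U, Submodule.smul_mem _ c h3, h4⟩

end

end Pool.Agent.Y266.LT
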