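import Pool.Agent.Y266.LT.INV

/-! # Prime fields have no involution -/

set_option autoImplicit false

universe u v

namespace Pool.Agent.Y266.LT

theorem not_hasInvolution_rat : ¬ HasInvolution ℚ := by
  rintro ⟨A, _, ι, θ, hι, hθ, a, ha⟩
  apply ha
  have h1 : ((ι a).den : A) * a = ((ι a).num : A) := by
    apply hι
    rw [map_mul, map_natCast, map_intCast]
    have := Rat.den_mul_eq_num (ι a)
    exact_mod_cast this
  have h2 := congrArg θ h1
  rw [map_mul, map_natCast, map_intCast] at h2
  apply hι
  have h3 := congrArg ι (h2.trans h1.symm)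
  rw [map_mul, map_mul, map_natCast] at h3
  have hd : ((ι a).den : ℚ) ≠ 0 := by exact_mod_cast (ι a).den_ne_zero
  exact mul_left_cancel₀ hd h3

theorem not_hasInvolution_zmod (p : ℕ) [Fact p.Prime] : ¬ HasInvolution (ZMod p) := by
  rintro ⟨A, _, ι, θ, hι, hθ, a, ha⟩
  apply ha
  have h1 : a = (((ι a).val : ℕ) : A) := by
    apply hι
    rw [map_natCast, ZMod.natCast_val, ZMod.cast_id]
  rw [h1, map_natCast]

end Pool.Agent.Y266.LT
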