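import Pool.Agent.Y266.LT.Stm2

/-!
# The statements `S_NON` and `S_ISO` of project LT4 (helper681)
-/

set_option autoImplicit false

universe u v

namespace Pool.Agent.Y266.LT

open Pool.Agent.Results.MP_16c542_al.NotLocality Pool.Agent.Y266.LT.Pos

namespace NI

variable {K : Type u} [Field K] {E : Type v} [AddCommGroup E] [Module K E] {r : E → E → Prop}

lemma sy (hr : IsLocalitySpace K r) {x y : E} (h : r x y) : r y x := hr.1 x y h

lemma l2 (hr : IsLocalitySpace K r) {x y z w : E} (c d : K) (h1 : r x z) (h2 : r y z)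
    (hw : w = c • x + d • y) : r w z := by
  rw [hw, r_iff hr]
  exact Submodule.add_mem _ (Submodule.smul_mem _ _ ((r_iff hr).1 h1))
    (Submodule.smul_mem _ _ ((r_iff hr).1 h2))

lemma r2 (hr : IsLocalitySpace K r) {x y z w : E} (c d : K) (h1 : r z x) (h2 : r z y)
    (hw : w = c • x + d • y) : r z w := sy hr (l2 hr c d (sy hr h1) (sy hr h2) hw)

lemma l3 (hr : IsLocalitySpace K r) {x y y' z w : E} (c d e : K) (h1 : r x z) (h2 : r y z)
    (h3 : r y' z) (hw : w = c • x + d • y + e • y') : r w z := by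
  rw [hw, r_iff hr]
  exact Submodule.add_mem _ (Submodule.add_mem _ (Submodule.smul_mem _ _ ((r_iff hr).1 h1))
    (Submodule.smul_mem _ _ ((r_iff hr).1 h2))) (Submodule.smul_mem _ _ ((r_iff hr).1 h3))

lemma r3 (hr : IsLocalitySpace K r) {x y y' z w : E} (c d e : K) (h1 : r z x) (h2 : r z y)
    (h3 : r z y') (hw : w = c • x + d • y + e • y') : r z w :=
  sy hr (l3 hr c d e (sy hr h1) (sy hr h2) (sy hr h3) hw)

lemma pair_ne (hr : IsLocalitySpace K r) {s t : E} {A A' : K} (hst : r s t) (hss : ¬ r s s)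
    (h : r (s + A • t) (s + A' • t)) : A ≠ 0 := by
  rintro rfl
  apply hss
  rw [zero_smul, add_zero] at h
  exact r2 hr 1 (-A') h hst (by module)

lemma pair_ne' (hr : IsLocalitySpace K r) {s t : E} {A A' : K} (hst : r s t) (hss : ¬ r s s)
    (h : r (s + A • t) (s + A' • t)) : A' ≠ 0 := pair_ne hr hst hss (sy hr h)

lemma pair_det (hr : IsLocalitySpace K r) {s t : E} {A A' B' : K} (hst : r s t) (hss : ¬ r s s)
    (htt : ¬ r t t) (h : r (s + A • t) (s + A' • t)) (h' : r (s + A • t) (s + B' • t)) :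
    A' = B' := by
  by_contra hne
  have hA := pair_ne hr hst hss h
  have hd : A' - B' ≠ 0 := sub_ne_zero.mpr hne
  obtain ⟨m, hm⟩ : ∃ m, m * (A' - B') = 1 := ⟨(A' - B')⁻¹, inv_mul_cancel₀ hd⟩
  obtain ⟨n, hn⟩ : ∃ n, n * A = 1 := ⟨A⁻¹, inv_mul_cancel₀ hA⟩
  have h1 : r (s + A • t) t := r2 hr m (-m) h h' (by linear_combination (norm := module) (-hm) • t)
  exact htt (l2 hr n (-n) h1 hst (by linear_combination (norm := module) (-hn) • t))

lemma pair_ne_pair (hr : IsLocalitySpace K r) {s t : E} {a a' b b' : K} (hst : r s t)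
    (hss : ¬ r s s) (htt : ¬ r t t) (h : r (s + a • t) (s + a' • t))
    (h' : r (s + b • t) (s + b' • t)) (hne : a * a' ≠ b * b') : a ≠ b ∧ a' ≠ b' := by
  constructor
  · rintro rfl
    exact hne (by rw [pair_det hr hst hss htt h h'])
  · rintro rfl
    exact hne (by rw [pair_det hr hst hss htt (sy hr h) (sy hr h')])

lemma non_core (hr : IsLocalitySpace K r) {s t₁ t₂ x z z₂ : E} {a a' d d' τ α β γ : K}
    (hxs : r x s) (hx1 : r x t₁) (hx2 : r x t₂) (hs1 : r s t₁) (hs2 : r s t₂)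
    (hp : r (s + a • t₁) (s + a' • t₁)) (hq : r (s + d • t₂) (s + d' • t₂))
    (hz : t₂ = τ • t₁ + z) (hzt : r z t₁) (hzs : r z₂ s) (hz2 : r z₂ t₂)
    (ht : t₁ = α • x + β • z + γ • z₂) (hne : a - d * τ ≠ 0) :
    ∃ c c' : K, r (s + c • z) (s + c' • z) := by
  have hzs' : r z s := l2 hr 1 (-τ) (sy hr hs2) (sy hr hs1) (by rw [hz]; module)
  have hzx : r z x := l2 hr 1 (-τ) (sy hr hx2) (sy hr hx1) (by rw [hz]; module)
  obtain ⟨e, he⟩ : ∃ e, e = a' - d' * τ := ⟨_, rfl⟩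
  obtain ⟨m, hm⟩ : ∃ m, m * (a - d * τ) = 1 := ⟨(a - d * τ)⁻¹, inv_mul_cancel₀ hne⟩
  obtain ⟨g, hg⟩ : ∃ g, g = s + a' • t₁ - (e * α) • x - (e * β - d') • z := ⟨_, rfl⟩
  have hg2 : g = s + d' • t₂ + (e * γ) • z₂ := by
    rw [hg, hz, he]
    linear_combination (norm := module) (a' - d' * τ) • ht
  have hgp : r g (s + a • t₁) :=
    l3 hr 1 (-(e * α)) (-(e * β - d')) (sy hr hp) (r2 hr 1 a hxs hx1 (by module))
      (r2 hr 1 a hzs' hzt (by module)) (by rw [hg]; module)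
  have hgq : r g (s + d • t₂) :=
    l2 hr 1 (e * γ) (sy hr hq) (r2 hr 1 d hzs hz2 (by module)) (by rw [hg2]; module)
  obtain ⟨w, hw⟩ : ∃ w, w = s + (a * d * m) • z := ⟨_, rfl⟩
  have hgw : r g w := r2 hr (a * m) (-(d * τ * m)) hgq hgp (by
    rw [hw, hz]
    linear_combination (norm := module) (-hm) • s)
  have hwt : r w t₁ := l2 hr 1 (a * d * m) hs1 hzt (by rw [hw]; module)
  have hwx : r w x := l2 hr 1 (a * d * m) (sy hr hxs) hzx (by rw [hw]; module)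
  refine ⟨a * d * m, -(e * β - d'), ?_⟩
  rw [← hw]
  exact r3 hr 1 (-a') (e * α) (sy hr hgw) hwt hwx (by rw [hg]; module)

end NI

open NI

theorem non : S_NON.{u, v} := by
  intro K E _ _ _ r s t₁ t₂ x z z₂ a a' b b' d d' τ hr hxs hx1 hx2 hs1 hs2 hss h11 hpa hpb hne
    hq hz hzt hzz hzs hz2 hspan
  obtain ⟨α, β, γ, ht⟩ := Submodule.mem_span_triple.1 hspan
  have hab := (pair_ne_pair hr hs1 hss h11 hpa hpb hne).1
  have hzs' : r z s := l2 hr 1 (-τ) (sy hr hs2) (sy hr hs1) (by rw [hz]; module)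
  have hcore : ∃ c c' : K, r (s + c • z) (s + c' • z) := by
    by_cases h : a - d * τ = 0
    · have h' : b - d * τ ≠ 0 := by
        intro h'
        apply hab
        linear_combination h - h'
      exact non_core hr hxs hx1 hx2 hs1 hs2 hpb hq hz hzt hzs hz2 ht.symm h'
    · exact non_core hr hxs hx1 hx2 hs1 hs2 hpa hq hz hzt hzs hz2 ht.symm h
  obtain ⟨c, c', hc⟩ := hcore
  exact ⟨s, t₁, z, a, a', b, b', c, c', hs1, sy hr hzs', sy hr hzt, hss, h11, hzz, hpa, hpb,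
    hne, hc⟩

namespace NI

variable {K : Type u} [Field K] {E : Type v} [AddCommGroup E] [Module K E] {r : E → E → Prop}

lemma iso_lem (hr : IsLocalitySpace K r) {s t x y : E} {A A' B B' : K}
    (hst : r s t) (hsx : r s x) (hsy : r s y) (htx : r t x) (hty : r t y)
    (hyt : r (y - t) (t + x)) (hA : r (s + A • t) (s + A' • t))
    (hB : r (s + B • t) (s + B' • t)) (hAB : B - A ≠ 0) (hA' : A' ≠ 0) :
    r (t + ((B' - A') / A') • y) (t + (B / (B - A)) • x) := by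
  obtain ⟨w, hw⟩ : ∃ w, w = s + A' • t + (B' - A') • y := ⟨_, rfl⟩
  have h1 : r w (s + A • t) := l2 hr 1 (B' - A') (sy hr hA)
    (r2 hr 1 A (sy hr hsy) (sy hr hty) (by module)) (by rw [hw]; module)
  have h2 : r w (s + B • (t + x)) := by
    have e1 : r (s + B' • t) (s + B • (t + x)) :=
      r2 hr 1 B (sy hr hB) (l2 hr 1 B' hsx htx (by module)) (by module)
    have e2 : r (y - t) (s + B • (t + x)) :=
      r2 hr 1 B (l2 hr 1 (-1) (sy hr hsy) (sy hr hst) (by module)) hyt (by module)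
    exact l2 hr 1 (B' - A') e1 e2 (by rw [hw]; module)
  have h3 : r w ((B - A) • t + B • x) := r2 hr 1 (-1) h2 h1 (by module)
  have h4 : r s ((B - A) • t + B • x) := r2 hr (B - A) B hst hsx (by module)
  have h5 : r (A' • t + (B' - A') • y) ((B - A) • t + B • x) :=
    l2 hr 1 (-1) h3 h4 (by rw [hw]; module)
  obtain ⟨m, hm, hm'⟩ : ∃ m, m * A' = 1 ∧ m = A'⁻¹ := ⟨A'⁻¹, inv_mul_cancel₀ hA', rfl⟩
  obtain ⟨n, hn, hn'⟩ : ∃ n, n * (B - A) = 1 ∧ n = (B - A)⁻¹ :=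
    ⟨(B - A)⁻¹, inv_mul_cancel₀ hAB, rfl⟩
  rw [div_eq_mul_inv, div_eq_mul_inv, ← hm', ← hn']
  have h6 : r (t + ((B' - A') * m) • y) ((B - A) • t + B • x) :=
    l2 hr m 0 h5 h5 (by linear_combination (norm := module) (-hm) • t)
  exact r2 hr n 0 h6 h6 (by linear_combination (norm := module) (-hn) • t)

lemma flip_pair (hr : IsLocalitySpace K r) {s t : E} {A A' : K} (hA : A ≠ 0) (hA' : A' ≠ 0)
    (h : r (s + A • t) (s + A' • t)) : r (t + A⁻¹ • s) (t + A'⁻¹ • s) := by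
  have h1 : r (t + A⁻¹ • s) (s + A' • t) :=
    l2 hr A⁻¹ 0 h h (by
      rw [smul_add, smul_smul, inv_mul_cancel₀ hA]
      module)
  exact r2 hr A'⁻¹ 0 h1 h1 (by
    rw [smul_add, smul_smul, inv_mul_cancel₀ hA']
    module)

end NI

theorem iso : S_ISO.{u, v} := by
  intro K E _ _ _ r s t x y a a' b b' c hr hst hsx hsy htx hty hxx hxy hss htt hyt hpa hpb hne hyc
  obtain ⟨hab, hab'⟩ := pair_ne_pair hr hst hss htt hpa hpb hne
  have ha := pair_ne hr hst hss hpa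
  have ha' := pair_ne' hr hst hss hpa
  have hb := pair_ne hr hst hss hpb
  have hb' := pair_ne' hr hst hss hpb
  have hd : b - a ≠ 0 := sub_ne_zero.mpr hab.symm
  have hd2 : a - b ≠ 0 := sub_ne_zero.mpr hab
  have hd' : b' - a' ≠ 0 := sub_ne_zero.mpr hab'.symm
  have hd2' : a' - b' ≠ 0 := sub_ne_zero.mpr hab'
  have hfa := flip_pair hr ha ha' hpa
  have hfb := flip_pair hr hb hb' hpb
  have hfne : a⁻¹ * a'⁻¹ ≠ b⁻¹ * b'⁻¹ := by
    rw [← mul_inv, ← mul_inv]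
    exact fun h => hne (inv_injective h)
  have k1 := iso_lem hr hst hsx hsy htx hty hyt hpa hpb hd ha'
  have k2 := iso_lem hr hst hsx hsy htx hty hyt hpb hpa hd2 hb'
  by_cases hc : c = 0
  · have hyy : r y y := by
      rw [hc, zero_smul, add_zero] at hyc
      exact hyc
    -- two pairs of coefficients
    obtain ⟨ρ₁, ρ₁', ρ₂, ρ₂', hρ₁', hρ₂, m1, m2, hsum⟩ : ∃ ρ₁ ρ₁' ρ₂ ρ₂' : K, ρ₁' ≠ 0 ∧ ρ₂ ≠ 0 ∧
        r (t + ρ₁' • y) (t + ρ₁ • x) ∧ r (t + ρ₂' • y) (t + ρ₂ • x) ∧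
        ρ₂ * ρ₂' + ρ₁ * ρ₁' ≠ 0 := by
      by_cases h2 : (2 : K) = 0
      · refine ⟨b / (b - a), (b' - a') / a', a / (a - b), (a' - b') / b',
          div_ne_zero hd' ha', div_ne_zero ha hd2, k1, k2, ?_⟩
        have e : a / (a - b) * ((a' - b') / b') + b / (b - a) * ((b' - a') / a') =
            (b' - a') * (b * b' + a * a') / ((b - a) * (a' * b')) := by
          have e1 : a - b = -(b - a) := by ring
          rw [e1]
          field_simp
          ring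
        rw [e]
        refine div_ne_zero (mul_ne_zero hd' ?_) (mul_ne_zero hd (mul_ne_zero ha' hb'))
        intro h
        apply hne
        linear_combination h - b * b' * h2
      · refine ⟨b / (b - a), (b' - a') / a', b / (b - a), (b' - a') / a',
          div_ne_zero hd' ha', div_ne_zero hb hd, k1, k1, ?_⟩
        rw [← two_mul]
        exact mul_ne_zero h2 (mul_ne_zero (div_ne_zero hb hd) (div_ne_zero hd' ha'))
    obtain ⟨w, hw⟩ : ∃ w, w = ρ₁ • x + ρ₂' • y := ⟨_, rfl⟩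
    have n1 : r (t + w) (t + ρ₁' • y) := by
      have e1 : r y (t + ρ₁' • y) := r2 hr 1 ρ₁' (sy hr hty) hyy (by module)
      exact l2 hr 1 ρ₂' (sy hr m1) e1 (by rw [hw]; module)
    have n2 : r (t + w) (t + ρ₂ • x) := by
      have e1 : r x (t + ρ₂ • x) := r2 hr 1 ρ₂ (sy hr htx) hxx (by module)
      exact l2 hr 1 ρ₁ m2 e1 (by rw [hw]; module)
    obtain ⟨ν, hν⟩ : ∃ ν, ν * (ρ₂ * ρ₂' + ρ₁ * ρ₁') = ρ₁' * ρ₂ :=
      ⟨ρ₁' * ρ₂ / (ρ₂ * ρ₂' + ρ₁ * ρ₁'), div_mul_cancel₀ _ hsum⟩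
    obtain ⟨m, hm⟩ : ∃ m, m * ρ₁' = 1 := ⟨ρ₁'⁻¹, inv_mul_cancel₀ hρ₁'⟩
    obtain ⟨n, hn⟩ : ∃ n, n * ρ₂ = 1 := ⟨ρ₂⁻¹, inv_mul_cancel₀ hρ₂⟩
    have n3 : r (t + w) (t + ν • w) := by
      refine r2 hr (ν * ρ₂' * m) (ν * ρ₁ * n) n1 n2 ?_
      have e1 : ν * ρ₂' * m + ν * ρ₁ * n = 1 := by
        linear_combination (m * n) * hν + (m * ρ₁' - ν * ρ₂' * m) * hn + (1 - ν * ρ₁ * n) * hm
      rw [hw]
      linear_combination (norm := module) (-e1) • t - (ν * ρ₁ * hn) • x - (ν * ρ₂' * hm) • y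
    have ntw : r t w := r2 hr ρ₁ ρ₂' htx hty hw
    have nsw : r s w := r2 hr ρ₁ ρ₂' hsx hsy hw
    have nww : ¬ r w w := by
      intro h
      apply htt
      have e1 : r w (t + ν • w) := r2 hr 1 ν (sy hr ntw) h (by module)
      have e2 : r t (t + ν • w) := l2 hr 1 (-1) n3 e1 (by module)
      exact r2 hr 1 (-ν) e2 ntw (by module)
    refine ⟨t, s, w, a⁻¹, a'⁻¹, b⁻¹, b'⁻¹, 1, ν, sy hr hst, ntw, nsw, htt, hss, nww, hfa, hfb,
      hfne, ?_⟩
    rw [one_smul]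
    exact n3
  · have hyy : ¬ r y y := by
      intro h
      apply hxy
      apply sy hr
      exact r2 hr c⁻¹ (-c⁻¹) hyc h (by
        rw [smul_add, smul_smul, inv_mul_cancel₀ hc]
        module)
    have n1 : r (t + ((b' - a') / a') • y) (y + c • x) :=
      l2 hr 1 ((b' - a') / a') (r2 hr 1 c hty htx (by module)) hyc (by module)
    obtain ⟨ρ, hρ⟩ : ∃ ρ, ρ = b / (b - a) := ⟨_, rfl⟩
    rw [← hρ] at k1
    obtain ⟨m, hm⟩ : ∃ m, m * c = 1 := ⟨c⁻¹, inv_mul_cancel₀ hc⟩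
    have n2 : r (t + ((b' - a') / a') • y) (t + (-(ρ * m)) • y) :=
      r2 hr 1 (-(ρ * m)) k1 n1 (by linear_combination (norm := module) (ρ * hm) • x)
    exact ⟨t, s, y, a⁻¹, a'⁻¹, b⁻¹, b'⁻¹, _, _, sy hr hst, hty, hsy, htt, hss, hyy, hfa, hfb,
      hfne, n2⟩

end Pool.Agent.Y266.LT
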