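import Pool.Agent.Y266.LT.Stm2

/-!
# Two pairs with different products (author helper410)
-/

set_option autoImplicit false

open scoped TensorProduct
open Module

universe u v

namespace Pool.Agent.Y266.LT

open Pool.Agent.Results.MP_16c542_al.NotLocality Pool.Agent.Y266.LT.Pos

namespace Prod410

section

variable {K : Type u} {E : Type v} [Field K] [AddCommGroup E] [Module K E] {r : E → E → Prop}

theorem r_add (hr : IsLocalitySpace K r) {a b c : E} (h1 : r a c) (h2 : r b c) : r (a + b) c :=
  (r_iff hr).2 ((plr hr {c}).add_mem ((r_iff hr).1 h1) ((r_iff hr).1 h2))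

theorem r_sub (hr : IsLocalitySpace K r) {a b c : E} (h1 : r a c) (h2 : r b c) : r (a - b) c :=
  (r_iff hr).2 ((plr hr {c}).sub_mem ((r_iff hr).1 h1) ((r_iff hr).1 h2))

theorem r_smul (hr : IsLocalitySpace K r) (k : K) {a c : E} (h1 : r a c) : r (k • a) c :=
  (r_iff hr).2 ((plr hr {c}).smul_mem k ((r_iff hr).1 h1))

theorem exists_fun {s t x : E} (h : s ∉ Submodule.span K {t, x}) :
    ∃ f : E →ₗ[K] K, f s = 1 ∧ f t = 0 ∧ f x = 0 := by
  obtain ⟨f, hf, hk⟩ := Submodule.exists_le_ker_of_notMem h
  refine ⟨(f s)⁻¹ • f, ?_, ?_, ?_⟩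
  · rw [LinearMap.smul_apply, smul_eq_mul, inv_mul_cancel₀ hf]
  · have : f t = 0 := hk (Submodule.subset_span (by simp))
    rw [LinearMap.smul_apply, this, smul_zero]
  · have : f x = 0 := hk (Submodule.subset_span (by simp))
    rw [LinearMap.smul_apply, this, smul_zero]

theorem notMem (hr : IsLocalitySpace K r) {s t x : E} (h1 : r t s) (h2 : r x s)
    (h : ¬ r s s) : s ∉ Submodule.span K {t, x} := by
  intro hs
  apply h
  have h3 : Submodule.span K {t, x} ≤ plr hr {s} := by
    rw [Submodule.span_le]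
    rintro y (rfl | hy)
    · exact (r_iff hr).1 h1
    · rw [Set.mem_singleton_iff] at hy
      subst hy
      exact (r_iff hr).1 h2
  exact (r_iff hr).2 (h3 hs)

/-- contraction with `f` and `f` -/
noncomputable def ct (f : E →ₗ[K] K) : E ⊗[K] E →ₗ[K] K :=
  (TensorProduct.lid K K).toLinearMap ∘ₗ TensorProduct.map f f

theorem ct_tmul (f : E →ₗ[K] K) (x y : E) : ct f (x ⊗ₜ[K] y) = f x * f y := by
  simp [ct]

end

end Prod410

open Prod410

theorem prod : S_PROD.{u, v} := by
  intro K E _ _ _ r s t x hr hst hxs hxt hxx hss htt hmem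
  by_contra hcon
  have hts := hr.1 _ _ hst
  have hsx := hr.1 _ _ hxs
  have htx := hr.1 _ _ hxt
  obtain ⟨f, fs, ft, fx⟩ := exists_fun (notMem hr hts hxs hss)
  obtain ⟨g, gt, gs, gx⟩ := exists_fun (notMem hr hst hxt htt)
  have hne : ∀ a a' : K, r (s + a • t) (s + a' • t) → a ≠ 0 ∧ a' ≠ 0 := by
    intro a a' h
    constructor
    · rintro rfl
      apply hss
      rw [zero_smul, add_zero] at h
      have h1 := r_sub hr (hr.1 _ _ h) (r_smul hr a' hts)
      rwa [add_sub_cancel_right] at h1
    · rintro rfl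
      apply hss
      rw [zero_smul, add_zero] at h
      have h1 := r_sub hr h (r_smul hr a hts)
      rwa [add_sub_cancel_right] at h1
  obtain ⟨p, hp0, hp⟩ : ∃ p : K, p ≠ 0 ∧ ∀ a a' : K, r (s + a • t) (s + a' • t) → a * a' = p := by
    by_cases hex : ∃ b b' : K, r (s + b • t) (s + b' • t)
    · obtain ⟨b, b', hb⟩ := hex
      refine ⟨b * b', mul_ne_zero (hne b b' hb).1 (hne b b' hb).2, fun a a' ha => ?_⟩
      by_contra hne2
      exact hcon ⟨a, a', b, b', ha, hb, hne2⟩
    · exact ⟨1, one_ne_zero, fun a a' ha => absurd ⟨a, a', ha⟩ hex⟩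
  have hxspan : ∀ v ∈ Submodule.span K {s, t, x}, r v x := by
    have h1 : Submodule.span K {s, t, x} ≤ plr hr {x} := by
      rw [Submodule.span_le]
      rintro y (rfl | rfl | hy)
      · exact (r_iff hr).1 hsx
      · exact (r_iff hr).1 htx
      · rw [Set.mem_singleton_iff] at hy
        subst hy
        exact (r_iff hr).1 hxx
    intro v hv
    exact (r_iff hr).2 (h1 hv)
  have hkill : ∀ v ∈ Submodule.span K {s, t, x}, ∀ w ∈ Submodule.span K {s, t, x}, r v w →
      f v * f w - p⁻¹ * (g v * g w) = 0 := by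
    intro v hv w hw h
    obtain ⟨α, β, γ, hv'⟩ := Submodule.mem_span_triple.1 hv
    obtain ⟨α', β', γ', hw'⟩ := Submodule.mem_span_triple.1 hw
    have fv : f v = α := by rw [← hv']; simp [fs, ft, fx]
    have gv : g v = β := by rw [← hv']; simp [gs, gt, gx]
    have fw : f w = α' := by rw [← hw']; simp [fs, ft, fx]
    have gw : g w = β' := by rw [← hw']; simp [gs, gt, gx]
    rw [fv, fw, gv, gw]
    -- removal of the `x` parts
    have h1 : r (α • s + β • t) w := by
      have h2 := r_sub hr h (r_smul hr γ (hr.1 _ _ (hxspan w hw)))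
      rwa [← hv', add_sub_cancel_right] at h2
    have h2 : r (α • s + β • t) (α' • s + β' • t) := by
      have h3 : r (α • s + β • t) x := r_add hr (r_smul hr α hsx) (r_smul hr β htx)
      have h4 := r_sub hr (hr.1 _ _ h1) (r_smul hr γ' (hr.1 _ _ h3))
      rw [← hw', add_sub_cancel_right] at h4
      exact hr.1 _ _ h4
    by_cases hα : α = 0
    · subst hα
      rw [zero_smul, zero_add] at h2
      have h5 : β * β' = 0 := by
        by_contra hne2
        apply htt
        have hβ : β ≠ 0 := left_ne_zero_of_mul hne2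
        have hβ' : β' ≠ 0 := right_ne_zero_of_mul hne2
        have h6 := r_smul hr β⁻¹ h2
        rw [smul_smul, inv_mul_cancel₀ hβ, one_smul] at h6
        have h7 := r_sub hr (hr.1 _ _ h6) (r_smul hr α' hst)
        rw [add_sub_cancel_left] at h7
        have h8 := r_smul hr β'⁻¹ h7
        rwa [smul_smul, inv_mul_cancel₀ hβ', one_smul] at h8
      rw [h5]
      ring
    · by_cases hα' : α' = 0
      · subst hα'
        rw [zero_smul, zero_add] at h2
        have h5 : β * β' = 0 := by
          by_contra hne2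
          apply htt
          have hβ : β ≠ 0 := left_ne_zero_of_mul hne2
          have hβ' : β' ≠ 0 := right_ne_zero_of_mul hne2
          have h6 := r_smul hr β'⁻¹ (hr.1 _ _ h2)
          rw [smul_smul, inv_mul_cancel₀ hβ', one_smul] at h6
          have h7 := r_sub hr (hr.1 _ _ h6) (r_smul hr α hst)
          rw [add_sub_cancel_left] at h7
          have h8 := r_smul hr β⁻¹ h7
          rwa [smul_smul, inv_mul_cancel₀ hβ, one_smul] at h8
        rw [h5]
        ring
      · have h6 := r_smul hr α⁻¹ h2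
        have h7 := r_smul hr α'⁻¹ (hr.1 _ _ h6)
        rw [smul_add, smul_smul, smul_smul, inv_mul_cancel₀ hα', one_smul, smul_add, smul_smul,
          smul_smul, inv_mul_cancel₀ hα, one_smul] at h7
        have h8 := hp _ _ (hr.1 _ _ h7)
        have h9 : β * β' = p * (α * α') := by
          rw [← h8]
          field_simp
        rw [h9, ← mul_assoc, inv_mul_cancel₀ hp0, one_mul, sub_self]
  have hker : LocTensor r (Submodule.span K {s, t, x}) (Submodule.span K {s, t, x}) ≤
      LinearMap.ker (ct f - p⁻¹ • ct g) := by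
    refine Submodule.span_le.2 ?_
    rintro z ⟨v, hv, w, hw, h, rfl⟩
    show (ct f - p⁻¹ • ct g) (v ⊗ₜ[K] w) = 0
    rw [LinearMap.sub_apply, LinearMap.smul_apply, ct_tmul, ct_tmul, smul_eq_mul]
    exact hkill v hv w hw h
  have h1 : (ct f - p⁻¹ • ct g) (s ⊗ₜ[K] s) = 0 := hker hmem
  rw [LinearMap.sub_apply, LinearMap.smul_apply, ct_tmul, ct_tmul, fs, gs, smul_eq_mul] at h1
  simp at h1

end Pool.Agent.Y266.LT
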