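import Pool.Agent.Y266.LT.Stm2

/-!
# J7: two planes (R22)
-/

set_option autoImplicit false
set_option linter.unusedSectionVars false

open scoped TensorProduct
open Module

universe u v

namespace Pool.Agent.Y266.LT

open Pool.Agent.Results.MP_16c542_al.NotLocality Pool.Agent.Y266.LT.Pos

namespace R22

section lin

variable {K : Type u} {E : Type v} [Field K] [AddCommGroup E] [Module K E]

theorem ext [FiniteDimensional K E] {A B : Submodule K E} (hAB : A ≤ B) {x : E} (hx : x ∈ B)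
    (hxA : x ∉ A) (hd : finrank K B ≤ finrank K A + 1) :
    ∀ b ∈ B, ∃ a ∈ A, ∃ c : K, b = a + c • x := by
  have h1 : A ⊔ Submodule.span K {x} = B := by
    apply Submodule.eq_of_le_of_finrank_le
    · exact sup_le hAB ((Submodule.span_singleton_le_iff_mem _ _).2 hx)
    · have h2 : A < A ⊔ Submodule.span K {x} := by
        refine lt_of_le_of_ne le_sup_left fun h => hxA ?_
        rw [h]
        exact Submodule.mem_sup_right (Submodule.mem_span_singleton_self x)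
      have h3 := Submodule.finrank_lt_finrank_of_lt h2
      omega
  intro b hb
  rw [← h1, Submodule.mem_sup] at hb
  obtain ⟨a, ha, y, hy, rfl⟩ := hb
  obtain ⟨c, rfl⟩ := Submodule.mem_span_singleton.1 hy
  exact ⟨a, ha, c, rfl⟩

theorem line [FiniteDimensional K E] {N : Submodule K E} (hN : finrank K N ≤ 1) {x : E}
    (hx : x ∈ N) (hx0 : x ≠ 0) : ∀ y ∈ N, ∃ a : K, y = a • x := by
  intro y hy
  obtain ⟨a, ha, c, hc⟩ := ext (A := ⊥) bot_le hx (by simpa using hx0) (by simpa using hN) y hy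
  rw [Submodule.mem_bot] at ha
  exact ⟨c, by rw [hc, ha, zero_add]⟩

theorem plane [FiniteDimensional K E] {U : Submodule K E} (hU : finrank K U ≤ 2) {p q : E}
    (hp : p ∈ U) (hq : q ∈ U) (hp0 : p ≠ 0) (hqp : ∀ a : K, q ≠ a • p) :
    ∀ u ∈ U, ∃ a b : K, u = a • p + b • q := by
  intro u hu
  obtain ⟨a, ha, c, hc⟩ := ext (A := Submodule.span K {p})
    ((Submodule.span_singleton_le_iff_mem _ _).2 hp) hq
    (fun h => by obtain ⟨a, ha⟩ := Submodule.mem_span_singleton.1 h; exact hqp a ha.symm)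
    (by rw [finrank_span_singleton hp0]; omega) u hu
  obtain ⟨b, rfl⟩ := Submodule.mem_span_singleton.1 ha
  exact ⟨b, c, hc⟩

theorem exists_ne [FiniteDimensional K E] {N : Submodule K E} (h : 0 < finrank K N) :
    ∃ x ∈ N, x ≠ 0 := by
  apply Submodule.exists_mem_ne_zero_of_ne_bot
  rintro rfl
  rw [finrank_bot] at h
  omega

end lin

section rel

variable {K : Type u} {E : Type v} [Field K] [AddCommGroup E] [Module K E] {r : E → E → Prop}
  (hr : IsLocalitySpace K r)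
include hr

theorem ladd {x y z : E} (h1 : r x z) (h2 : r y z) : r (x + y) z :=
  (r_iff hr).2 (Submodule.add_mem _ ((r_iff hr).1 h1) ((r_iff hr).1 h2))

theorem lsub {x y z : E} (h1 : r x z) (h2 : r y z) : r (x - y) z :=
  (r_iff hr).2 (Submodule.sub_mem _ ((r_iff hr).1 h1) ((r_iff hr).1 h2))

theorem lsmul (a : K) {x z : E} (h : r x z) : r (a • x) z :=
  (r_iff hr).2 (Submodule.smul_mem _ a ((r_iff hr).1 h))

theorem lzero (z : E) : r 0 z := (r_iff hr).2 (Submodule.zero_mem _)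

theorem rzero (z : E) : r z 0 := hr.1 _ _ (lzero hr z)

theorem radd {x y z : E} (h1 : r z x) (h2 : r z y) : r z (x + y) :=
  hr.1 _ _ (ladd hr (hr.1 _ _ h1) (hr.1 _ _ h2))

theorem rsub {x y z : E} (h1 : r z x) (h2 : r z y) : r z (x - y) :=
  hr.1 _ _ (lsub hr (hr.1 _ _ h1) (hr.1 _ _ h2))

theorem rsmul (a : K) {x z : E} (h : r z x) : r z (a • x) :=
  hr.1 _ _ (lsmul hr a (hr.1 _ _ h))

theorem unl {a : K} (ha : a ≠ 0) {x z : E} (h : r (a • x) z) : r x z := by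
  have := lsmul hr a⁻¹ h
  rwa [smul_smul, inv_mul_cancel₀ ha, one_smul] at this

theorem unr {a : K} (ha : a ≠ 0) {x z : E} (h : r z (a • x)) : r z x :=
  hr.1 _ _ (unl hr ha (hr.1 _ _ h))

/-- projection along `x` -/
theorem pj {V W H U' : Submodule K E} {x s : E} {c : K}
    (hY : c • (s ⊗ₜ[K] s) ∈ LocTensor r (V ⊓ H) (W ⊓ H)) (hxV : x ∈ V) (hxW : x ∈ W)
    (hxx : r x x) (hxH : ∀ b ∈ H, r x b) (hsU : s ∈ U') (hx : x ∉ U')
    (hHU : ∀ b ∈ H, ∃ u ∈ U', ∃ a : K, b = u + a • x) :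
    c • (s ⊗ₜ[K] s) ∈ LocTensor r (V ⊓ U') (W ⊓ U') := by
  obtain ⟨f, hf, hfk⟩ := Submodule.exists_le_ker_of_notMem hx
  let π : E →ₗ[K] E := LinearMap.id - (f x)⁻¹ • f.smulRight x
  have hπ : ∀ b, π b = b - ((f x)⁻¹ * f b) • x := by
    intro b
    simp [π, smul_smul]
  have hπH : ∀ b ∈ H, π b ∈ U' := by
    intro b hb
    obtain ⟨u, hu, a, rfl⟩ := hHU b hb
    have hfu : f u = 0 := hfk hu
    rw [hπ, map_add, map_smul, hfu, zero_add, smul_eq_mul]
    have : (f x)⁻¹ * (a * f x) = a := by field_simp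
    rw [this, add_sub_cancel_right]
    exact hu
  have hle : LocTensor r (V ⊓ H) (W ⊓ H) ≤
      (LocTensor r (V ⊓ U') (W ⊓ U')).comap (TensorProduct.map π π) := by
    refine Submodule.span_le.2 ?_
    rintro t ⟨v, hv, w, hw, hvw, rfl⟩
    show TensorProduct.map π π (v ⊗ₜ[K] w) ∈ LocTensor r (V ⊓ U') (W ⊓ U')
    rw [TensorProduct.map_tmul]
    refine Submodule.subset_span ⟨π v, ⟨?_, hπH v hv.2⟩, π w, ⟨?_, hπH w hw.2⟩, ?_, rfl⟩
    · rw [hπ]
      exact V.sub_mem hv.1 (V.smul_mem _ hxV)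
    · rw [hπ]
      exact W.sub_mem hw.1 (W.smul_mem _ hxW)
    · rw [hπ, hπ]
      have h1 : r v x := hr.1 _ _ (hxH v hv.2)
      exact lsub hr (rsub hr hvw (rsmul hr _ h1))
        (lsmul hr _ (rsub hr (hxH w hw.2) (rsmul hr _ hxx)))
  have h1 := hle hY
  have hs : π s = s := by
    have hfs : f s = 0 := hfk hsU
    rw [hπ, hfs, mul_zero, zero_smul, sub_zero]
  rw [Submodule.mem_comap, map_smul, TensorProduct.map_tmul, hs] at h1
  exact h1

theorem loc_bot {V W : Submodule K E} {X : E ⊗[K] E} (h : X ∈ LocTensor r (V ⊓ ⊥) (W ⊓ ⊥)) :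
    X = 0 := by
  have hle : LocTensor r (V ⊓ ⊥) (W ⊓ ⊥) ≤ ⊥ := by
    refine Submodule.span_le.2 ?_
    rintro t ⟨v, hv, w, hw, hvw, rfl⟩
    have : v = 0 := hv.2
    rw [this, TensorProduct.zero_tmul]
    exact Submodule.zero_mem _
  exact (Submodule.mem_bot K).1 (hle h)

/-- two pairs of related points on the line `s t` -/
theorem prod_of (hP : S_PROD.{u, v}) {V W U : Submodule K E} {s t : E} {c : K} (hc : c ≠ 0)
    (hY : c • (s ⊗ₜ[K] s) ∈ LocTensor r (V ⊓ U) (W ⊓ U)) (hst : r s t) (hss : ¬ r s s)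
    (htt : ¬ r t t) (hU : ∀ u ∈ U, ∃ a b : K, u = a • t + b • s) :
    ∃ a a' b b' : K, r (s + a • t) (s + a' • t) ∧ r (s + b • t) (s + b' • t) ∧
      a * a' ≠ b * b' := by
  refine hP K E r s t 0 hr hst (lzero hr s) (lzero hr t) (lzero hr 0) hss htt ?_
  have hle : U ≤ Submodule.span K {s, t, (0 : E)} := by
    intro u hu
    obtain ⟨a, b, rfl⟩ := hU u hu
    refine Submodule.add_mem _ (Submodule.smul_mem _ _ (Submodule.subset_span ?_))
      (Submodule.smul_mem _ _ (Submodule.subset_span ?_))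
    · simp
    · simp
  have h1 := loc_mono (r := r) (inf_le_right.trans hle : V ⊓ U ≤ _)
    (inf_le_right.trans hle : W ⊓ U ≤ _) hY
  have h2 := Submodule.smul_mem _ c⁻¹ h1
  rwa [smul_smul, inv_mul_cancel₀ hc, one_smul] at h2

end rel

/-- the data -/
structure Dat {K : Type u} {E : Type v} [Field K] [AddCommGroup E] [Module K E]
    {r : E → E → Prop} (hr : IsLocalitySpace K r) (V W U₁ U₂ : Submodule K E)
    (X₁ X₂ : E ⊗[K] E) (s : E) (c : K) : Prop where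
  e4 : finrank K E = 4
  bot : plr hr (Set.univ : Set E) = ⊥
  hX₁ : X₁ ∈ LocTensor r (V ⊓ plr hr U₁) (W ⊓ plr hr U₁)
  hX₂ : X₂ ∈ LocTensor r (V ⊓ plr hr U₂) (W ⊓ plr hr U₂)
  hY₁ : c • (s ⊗ₜ[K] s) ∈ LocTensor r (V ⊓ U₁) (W ⊓ U₁)
  hY₂ : c • (s ⊗ₜ[K] s) ∈ LocTensor r (V ⊓ U₂) (W ⊓ U₂)
  nj : ¬ ∃ U : Submodule K E, X₁ ∈ LocTensor r (V ⊓ plr hr U) (W ⊓ plr hr U) ∧
      X₂ ∈ LocTensor r (V ⊓ plr hr U) (W ⊓ plr hr U) ∧
      c • (s ⊗ₜ[K] s) ∈ LocTensor r (V ⊓ U) (W ⊓ U)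
  d₁ : finrank K U₁ = 2
  d₂ : finrank K U₂ = 2
  s₁ : s ∈ U₁
  s₂ : s ∈ U₂
  nss : ¬ r s s
  c0 : c ≠ 0

section dat

variable {K : Type u} {E : Type v} [Field K] [AddCommGroup E] [Module K E] [FiniteDimensional K E]
  {r : E → E → Prop} {hr : IsLocalitySpace K r} {V W U₁ U₂ : Submodule K E}
  {X₁ X₂ : E ⊗[K] E} {s : E} {c : K}

theorem Dat.symm (D : Dat hr V W U₁ U₂ X₁ X₂ s c) : Dat hr V W U₂ U₁ X₂ X₁ s c :=
  ⟨D.e4, D.bot, D.hX₂, D.hX₁, D.hY₂, D.hY₁, fun ⟨U, h1, h2, h3⟩ => D.nj ⟨U, h2, h1, h3⟩,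
    D.d₂, D.d₁, D.s₂, D.s₁, D.nss, D.c0⟩

theorem Dat.s0 (D : Dat hr V W U₁ U₂ X₁ X₂ s c) : s ≠ 0 := by
  rintro rfl
  exact D.nss (lzero hr 0)

theorem Dat.ne (D : Dat hr V W U₁ U₂ X₁ X₂ s c) : U₁ ≠ U₂ := by
  rintro rfl
  exact D.nj ⟨U₁, D.hX₁, D.hX₂, D.hY₁⟩

theorem Dat.A₁ (D : Dat hr V W U₁ U₂ X₁ X₂ s c) {x : E} (hx : x ∈ U₁) (h : ∀ u ∈ U₁, r x u) :
    x = 0 :=
  claimA hr D.d₁.le D.hY₁ D.s₁ D.c0 rfl D.nss hx h

theorem mem_pl {U : Submodule K E} {x : E} : x ∈ plr hr (U : Set E) ↔ ∀ u ∈ U, r x u :=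
  mem_plr hr

theorem Dat.dis₁ (D : Dat hr V W U₁ U₂ X₁ X₂ s c) {x : E} (hx : x ∈ plr hr (U₁ : Set E))
    (hx' : x ∈ U₁) : x = 0 := D.A₁ hx' (mem_pl.1 hx)

theorem Dat.zd₁ (D : Dat hr V W U₁ U₂ X₁ X₂ s c) : finrank K (plr hr (U₁ : Set E)) ≤ 2 := by
  have h := Submodule.finrank_add_finrank_le_of_disjoint (K := K)
    (s := plr hr (U₁ : Set E)) (t := U₁) (Submodule.disjoint_def.2 fun x h1 h2 => D.dis₁ h1 h2)
  have h1 := D.d₁
  have h2 := D.e4
  omega

theorem Dat.zp₁ (D : Dat hr V W U₁ U₂ X₁ X₂ s c) : 0 < finrank K (plr hr (U₁ : Set E)) := by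
  rw [Nat.pos_iff_ne_zero]
  intro h
  have h1 : plr hr (U₁ : Set E) = ⊥ := Submodule.finrank_eq_zero.1 h
  have h2 := D.hX₁
  rw [h1] at h2
  apply D.nj
  refine ⟨U₂, ?_, D.hX₂, D.hY₂⟩
  rw [loc_bot hr h2]
  exact Submodule.zero_mem _

theorem Dat.zs₁ (D : Dat hr V W U₁ U₂ X₁ X₂ s c) {x : E} (hx : x ∈ plr hr (U₁ : Set E)) :
    r x s := mem_pl.1 hx s D.s₁

theorem Dat.sd (D : Dat hr V W U₁ U₂ X₁ X₂ s c) : finrank K (plr hr ({s} : Set E)) ≤ 3 := by
  have h : plr hr ({s} : Set E) ≠ ⊤ := by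
    intro h
    apply D.nss
    rw [r_iff hr, h]
    exact Submodule.mem_top
  have h1 := Submodule.finrank_lt h
  have h2 := D.e4
  omega

/-- a nonzero vector is not related to everything -/
theorem Dat.nt (D : Dat hr V W U₁ U₂ X₁ X₂ s c) {x : E} (hx : x ≠ 0) :
    finrank K (plr hr ({x} : Set E)) ≤ 3 := by
  have h : plr hr ({x} : Set E) ≠ ⊤ := by
    intro h
    apply hx
    have h1 : x ∈ plr hr (Set.univ : Set E) := by
      rw [mem_plr]
      intro y _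
      rw [r_iff' hr, h]
      exact Submodule.mem_top
    rw [D.bot] at h1
    exact (Submodule.mem_bot K).1 h1
  have h1 := Submodule.finrank_lt h
  have h2 := D.e4
  omega

/-- the vector `t` of `U₁` -/
theorem Dat.t₁ (D : Dat hr V W U₁ U₂ X₁ X₂ s c) (hS : 3 ≤ finrank K (plr hr ({s} : Set E))) :
    ∃ t ∈ U₁, t ≠ 0 ∧ r t s := by
  have h1 := Submodule.finrank_sup_add_finrank_inf_eq U₁ (plr hr ({s} : Set E))
  have h2 := Submodule.finrank_le (U₁ ⊔ plr hr ({s} : Set E))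
  have h3 := D.e4
  have h4 := D.d₁
  obtain ⟨t, ht, ht0⟩ := exists_ne (N := U₁ ⊓ plr hr ({s} : Set E)) (by omega)
  exact ⟨t, ht.1, ht0, (r_iff hr).2 ht.2⟩

theorem Dat.pl₁ (D : Dat hr V W U₁ U₂ X₁ X₂ s c) {t : E} (ht : t ∈ U₁) (ht0 : t ≠ 0)
    (hts : r t s) : ∀ u ∈ U₁, ∃ a b : K, u = a • t + b • s := by
  refine plane D.d₁.le ht D.s₁ ht0 fun a ha => D.nss ?_
  have := lsmul hr a hts
  rwa [← ha] at this

theorem Dat.ntt₁ (D : Dat hr V W U₁ U₂ X₁ X₂ s c) {t : E} (ht : t ∈ U₁) (ht0 : t ≠ 0)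
    (hts : r t s) : ¬ r t t := by
  intro h
  apply ht0
  refine D.A₁ ht fun u hu => ?_
  obtain ⟨a, b, rfl⟩ := D.pl₁ ht ht0 hts u hu
  exact radd hr (rsmul hr a h) (rsmul hr b hts)

theorem i2 (hP : S_PROD.{u, v}) (hN : S_NON.{u, v}) (hI : S_ISO.{u, v})
    (D : Dat hr V W U₁ U₂ X₁ X₂ s c) (z₁ : finrank K (plr hr (U₁ : Set E)) = 2)
    (z₂ : finrank K (plr hr (U₂ : Set E)) = 2) : Tri K r := by
  have hZ₁S : plr hr (U₁ : Set E) ≤ plr hr ({s} : Set E) := fun x hx => (r_iff hr).1 (D.zs₁ hx)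
  have hZ₂S : plr hr (U₂ : Set E) ≤ plr hr ({s} : Set E) :=
    fun x hx => (r_iff hr).1 (D.symm.zs₁ hx)
  have hZne : plr hr (U₁ : Set E) ≠ plr hr (U₂ : Set E) := by
    intro h
    apply D.nj
    refine ⟨U₁, D.hX₁, ?_, D.hY₁⟩
    have := D.hX₂
    rw [← h] at this
    exact this
  have hsum := Submodule.finrank_sup_add_finrank_inf_eq (plr hr (U₁ : Set E)) (plr hr (U₂ : Set E))
  have hsup : finrank K (plr hr (U₁ : Set E) ⊔ plr hr (U₂ : Set E) : Submodule K E) ≤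
      finrank K (plr hr ({s} : Set E)) := Submodule.finrank_mono (sup_le hZ₁S hZ₂S)
  have hSd := D.sd
  have hinf1 : finrank K (plr hr (U₁ : Set E) ⊓ plr hr (U₂ : Set E) : Submodule K E) < 2 := by
    by_contra h
    push Not at h
    have e1 : plr hr (U₁ : Set E) ⊓ plr hr (U₂ : Set E) = plr hr (U₁ : Set E) :=
      Submodule.eq_of_le_of_finrank_le inf_le_left (by omega)
    have e2 : plr hr (U₁ : Set E) ⊓ plr hr (U₂ : Set E) = plr hr (U₂ : Set E) :=
      Submodule.eq_of_le_of_finrank_le inf_le_right (by omega)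
    exact hZne (e1.symm.trans e2)
  have hS3 : finrank K (plr hr ({s} : Set E)) = 3 := by omega
  obtain ⟨x, hx, hx0⟩ := exists_ne (N := plr hr (U₁ : Set E) ⊓ plr hr (U₂ : Set E)) (by omega)
  have hxl : ∀ y ∈ plr hr (U₁ : Set E) ⊓ plr hr (U₂ : Set E), ∃ a : K, y = a • x :=
    line (by omega) hx hx0
  obtain ⟨t₁, ht₁, ht₁0, ht₁s⟩ := D.t₁ hS3.ge
  obtain ⟨t₂, ht₂, ht₂0, ht₂s⟩ := D.symm.t₁ hS3.ge
  have hx1 : ∀ u ∈ U₁, r x u := mem_pl.1 hx.1
  have hx2 : ∀ u ∈ U₂, r x u := mem_pl.1 hx.2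
  have hxU₁ : x ∉ U₁ := fun h => hx0 (D.dis₁ hx.1 h)
  have hxU₂ : x ∉ U₂ := fun h => hx0 (D.symm.dis₁ hx.2 h)
  have pl1 := D.pl₁ ht₁ ht₁0 ht₁s
  have pl2 := D.symm.pl₁ ht₂ ht₂0 ht₂s
  have ht₁Z : t₁ ∉ plr hr (U₁ : Set E) := fun h => ht₁0 (D.dis₁ h ht₁)
  have hSt : ∀ b ∈ plr hr ({s} : Set E), ∃ a ∈ plr hr (U₁ : Set E), ∃ k : K, b = a + k • t₁ :=
    ext hZ₁S ((r_iff hr).1 ht₁s) ht₁Z (by omega)
  have ht12 : ∀ a : K, t₂ ≠ a • t₁ := by
    intro a ha
    apply D.ne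
    symm
    apply Submodule.eq_of_le_of_finrank_le
    · intro u hu
      obtain ⟨p, q, rfl⟩ := pl2 u hu
      refine U₁.add_mem (U₁.smul_mem _ ?_) (U₁.smul_mem _ D.s₁)
      rw [ha]
      exact U₁.smul_mem _ ht₁
    · rw [D.d₁, D.d₂]
  obtain ⟨z₂', hz₂', hz₂n⟩ : ∃ y ∈ plr hr (U₂ : Set E), y ∉ plr hr (U₁ : Set E) := by
    apply SetLike.not_le_iff_exists.1
    intro h
    exact hZne (Submodule.eq_of_le_of_finrank_le h (by omega)).symm
  by_cases hB : ∃ α β : K, x = α • t₁ + β • t₂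
  · obtain ⟨α, β, hxab⟩ := hB
    have hα : α ≠ 0 := by
      rintro rfl
      apply hxU₂
      rw [hxab, zero_smul, zero_add]
      exact U₂.smul_mem _ ht₂
    have hβ : β ≠ 0 := by
      rintro rfl
      apply hxU₁
      rw [hxab, zero_smul, add_zero]
      exact U₁.smul_mem _ ht₁
    have hxx : r x x := by
      have : r x (α • t₁ + β • t₂) := radd hr (rsmul hr _ (hx1 _ ht₁)) (rsmul hr _ (hx2 _ ht₂))
      rwa [← hxab] at this
    have C1 : ∀ y ∈ plr hr (U₁ : Set E), r y x → ∃ a : K, y = a • x := by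
      intro y hy hyx
      apply hxl y
      refine ⟨hy, mem_pl.2 fun u hu => ?_⟩
      have h1 : r y t₂ := by
        apply unr hr hβ
        have h2 : β • t₂ = x - α • t₁ := by rw [hxab]; abel
        rw [h2]
        exact rsub hr hyx (rsmul hr _ (mem_pl.1 hy _ ht₁))
      obtain ⟨p, q, rfl⟩ := pl2 u hu
      exact radd hr (rsmul hr _ h1) (rsmul hr _ (D.zs₁ hy))
    have C2 : ∀ y ∈ plr hr (U₂ : Set E), r y x → ∃ a : K, y = a • x := by
      intro y hy hyx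
      apply hxl y
      refine ⟨mem_pl.2 fun u hu => ?_, hy⟩
      have h1 : r y t₁ := by
        apply unr hr hα
        have h2 : α • t₁ = x - β • t₂ := by rw [hxab]; abel
        rw [h2]
        exact rsub hr hyx (rsmul hr _ (mem_pl.1 hy _ ht₂))
      obtain ⟨p, q, rfl⟩ := pl1 u hu
      exact radd hr (rsmul hr _ h1) (rsmul hr _ (D.symm.zs₁ hy))
    have C3 : ∃ y ∈ plr hr (U₁ : Set E), ∃ y' ∈ plr hr (U₁ : Set E), r y y' ∧
        (∀ a : K, y ≠ a • x) ∧ ∀ a : K, y' ≠ a • x := by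
      by_contra hc
      apply D.nj
      refine ⟨U₂, ?_, D.hX₂, D.hY₂⟩
      have hle : LocTensor r (V ⊓ plr hr (U₁ : Set E)) (W ⊓ plr hr (U₁ : Set E)) ≤
          LocTensor r (V ⊓ plr hr (U₂ : Set E)) (W ⊓ plr hr (U₂ : Set E)) := by
        refine Submodule.span_le.2 ?_
        rintro t ⟨v, hv, w, hw, hvw, rfl⟩
        show v ⊗ₜ[K] w ∈ LocTensor r (V ⊓ plr hr (U₂ : Set E)) (W ⊓ plr hr (U₂ : Set E))
        by_cases hv0 : v = 0
        · rw [hv0, TensorProduct.zero_tmul]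
          exact Submodule.zero_mem _
        by_cases hw0 : w = 0
        · rw [hw0, TensorProduct.tmul_zero]
          exact Submodule.zero_mem _
        have h1 : (∃ a : K, v = a • x) ∨ ∃ a : K, w = a • x := by
          by_contra hc'
          rw [not_or] at hc'
          apply hc
          exact ⟨v, hv.2, w, hw.2, hvw, fun a ha => hc'.1 ⟨a, ha⟩, fun a ha => hc'.2 ⟨a, ha⟩⟩
        have h2 : (∃ a : K, v = a • x) ∧ ∃ a : K, w = a • x := by
          rcases h1 with ⟨a, ha⟩ | ⟨a, ha⟩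
          · refine ⟨⟨a, ha⟩, C1 w hw.2 (hr.1 _ _ ?_)⟩
            have ha0 : a ≠ 0 := by
              rintro rfl
              exact hv0 (by rw [ha, zero_smul])
            rw [ha] at hvw
            exact unl hr ha0 hvw
          · refine ⟨C1 v hv.2 ?_, ⟨a, ha⟩⟩
            have ha0 : a ≠ 0 := by
              rintro rfl
              exact hw0 (by rw [ha, zero_smul])
            rw [ha] at hvw
            exact unr hr ha0 hvw
        obtain ⟨⟨a, ha⟩, b, hb⟩ := h2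
        refine Submodule.subset_span ⟨v, ⟨hv.1, ?_⟩, w, ⟨hw.1, ?_⟩, hvw, rfl⟩
        · rw [ha]
          exact Submodule.smul_mem _ _ hx.2
        · rw [hb]
          exact Submodule.smul_mem _ _ hx.2
      exact hle D.hX₁
    obtain ⟨y, hy, y', hy', hyy, hn1, hn2⟩ := C3
    have plZ := plane z₁.le hx.1 hy hx0 hn1
    obtain ⟨p, q, hpq⟩ := plZ y' hy'
    have hq : q ≠ 0 := by
      rintro rfl
      exact hn2 p (by rw [hpq, zero_smul, add_zero])
    obtain ⟨a0, ha0, k, hk⟩ := hSt z₂' (hZ₂S hz₂')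
    obtain ⟨p', A, hA⟩ := plZ a0 ha0
    have hk0 : k ≠ 0 := by
      rintro rfl
      apply hz₂n
      rw [hk, zero_smul, add_zero]
      exact ha0
    have hA0 : A ≠ 0 := by
      rintro rfl
      rw [zero_smul, add_zero] at hA
      have h1 : r z₂' x := by
        rw [hk, hA]
        exact ladd hr (lsmul hr _ hxx) (lsmul hr _ (hr.1 _ _ (hx1 _ ht₁)))
      obtain ⟨a, ha⟩ := C2 z₂' hz₂' h1
      apply hz₂n
      rw [ha]
      exact Submodule.smul_mem _ _ hx.1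
    have hm0 : k * A⁻¹ * α⁻¹ ≠ 0 := mul_ne_zero (mul_ne_zero hk0 (inv_ne_zero hA0)) (inv_ne_zero hα)
    have hkA : -(k * A⁻¹) ≠ 0 := neg_ne_zero.2 (mul_ne_zero hk0 (inv_ne_zero hA0))
    obtain ⟨tf, htf⟩ : ∃ tf, tf = -(k * A⁻¹) • t₁ := ⟨_, rfl⟩
    obtain ⟨m, hm⟩ : ∃ m, m = k * A⁻¹ * α⁻¹ := ⟨_, rfl⟩
    rw [← hm] at hm0
    have htU : tf ∈ U₁ := by rw [htf]; exact U₁.smul_mem _ ht₁
    have ht0 : tf ≠ 0 := by rw [htf]; exact smul_ne_zero hkA ht₁0
    have hts : r tf s := by rw [htf]; exact lsmul hr _ ht₁s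
    have hsumU : tf + m • x = (m * β) • t₂ := by
      have h1 : m * α = k * A⁻¹ := by rw [hm]; field_simp
      rw [hxab, smul_add, smul_smul, smul_smul, h1, htf, neg_smul]
      abel
    have hyt : y - tf ∈ plr hr (U₂ : Set E) := by
      have h1 : y - tf = A⁻¹ • (z₂' - p' • x) := by
        rw [hk, hA, htf, neg_smul, sub_neg_eq_add]
        have : p' • x + A • y + k • t₁ - p' • x = A • y + k • t₁ := by abel
        rw [this, smul_add, smul_smul, smul_smul, inv_mul_cancel₀ hA0, one_smul, mul_comm k]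
      rw [h1]
      exact Submodule.smul_mem _ _ (Submodule.sub_mem _ hz₂' (Submodule.smul_mem _ _ hx.2))
    obtain ⟨a, a', b, b', h1, h2, h3⟩ := prod_of hr hP D.c0 D.hY₁ (hr.1 _ _ hts) D.nss
      (D.ntt₁ htU ht0 hts) (D.pl₁ htU ht0 hts)
    refine hI K E r s tf (m • x) y a a' b b' (q⁻¹ * p * m⁻¹) hr (hr.1 _ _ hts)
      (rsmul hr _ (hr.1 _ _ (hx1 _ D.s₁))) (hr.1 _ _ (D.zs₁ hy))
      (rsmul hr _ (hr.1 _ _ (hx1 _ htU))) (hr.1 _ _ (mem_pl.1 hy _ htU))
      (lsmul hr _ (rsmul hr _ hxx)) ?_ D.nss (D.ntt₁ htU ht0 hts) ?_ h1 h2 h3 ?_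
    · intro h
      obtain ⟨a, ha⟩ := C1 y hy (hr.1 _ _ (unl hr hm0 h))
      exact hn1 a ha
    · rw [hsumU]
      exact mem_pl.1 hyt _ (U₂.smul_mem _ ht₂)
    · have h4 : y + (q⁻¹ * p * m⁻¹) • m • x = q⁻¹ • y' := by
        rw [hpq, smul_add, smul_smul, smul_smul, smul_smul, inv_mul_cancel₀ hq, one_smul,
          mul_assoc, inv_mul_cancel₀ hm0, mul_one]
        abel
      rw [h4]
      exact rsmul hr _ hyy
  · obtain ⟨z, hz, τ, hτ⟩ := hSt t₂ ((r_iff hr).1 ht₂s)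
    have hz1 := mem_pl.1 hz
    have hz0 : z ≠ 0 := by
      rintro rfl
      exact ht12 τ (by rw [hτ, zero_add])
    have hzx : r x z := by
      have h1 : z = t₂ - τ • t₁ := by rw [hτ]; abel
      rw [h1]
      exact rsub hr (hx2 t₂ ht₂) (rsmul hr τ (hx1 t₁ ht₁))
    have hznx : ∀ a : K, z ≠ a • x := by
      intro a ha
      have ha0 : a ≠ 0 := by
        rintro rfl
        exact hz0 (by rw [ha, zero_smul])
      apply hB
      refine ⟨-(a⁻¹ * τ), a⁻¹, ?_⟩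
      rw [hτ, ha, smul_add, smul_smul, smul_smul, inv_mul_cancel₀ ha0, one_smul, neg_smul]
      abel
    have plZ := plane z₁.le hx.1 hz hx0 hznx
    have hzz : ¬ r z z := by
      intro h
      apply hz0
      have h1 : z ∈ plr hr (Set.univ : Set E) := by
        rw [mem_plr]
        intro y _
        have hdis : plr hr (U₁ : Set E) ⊓ U₁ = ⊥ := by
          rw [eq_bot_iff]
          intro w hw
          exact (Submodule.mem_bot K).2 (D.dis₁ hw.1 hw.2)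
        have h2 := Submodule.finrank_sup_add_finrank_inf_eq (plr hr (U₁ : Set E)) U₁
        rw [hdis, finrank_bot, D.d₁, z₁] at h2
        have htop : plr hr (U₁ : Set E) ⊔ U₁ = ⊤ :=
          Submodule.eq_top_of_finrank_eq (by rw [D.e4]; omega)
        have hy : y ∈ plr hr (U₁ : Set E) ⊔ U₁ := by rw [htop]; exact Submodule.mem_top
        obtain ⟨a, ha, b, hb, rfl⟩ := Submodule.mem_sup.1 hy
        obtain ⟨p, q, rfl⟩ := plZ a ha
        exact radd hr (radd hr (rsmul hr p (hr.1 _ _ hzx)) (rsmul hr q h)) (hz1 b hb)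
      rw [D.bot] at h1
      exact (Submodule.mem_bot K).1 h1
    obtain ⟨a, a', b, b', h1, h2, h3⟩ := prod_of hr hP D.c0 D.hY₁ (hr.1 _ _ ht₁s) D.nss
      (D.ntt₁ ht₁ ht₁0 ht₁s) pl1
    obtain ⟨d, d', _, _, h4, _, _⟩ := prod_of hr hP D.c0 D.hY₂ (hr.1 _ _ ht₂s) D.nss
      (D.symm.ntt₁ ht₂ ht₂0 ht₂s) pl2
    refine hN K E r s t₁ t₂ x z z₂' a a' b b' d d' τ hr (hx1 _ D.s₁) (hx1 _ ht₁) (hx2 _ ht₂)
      (hr.1 _ _ ht₁s) (hr.1 _ _ ht₂s) D.nss (D.ntt₁ ht₁ ht₁0 ht₁s) h1 h2 h3 h4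
      (by rw [add_comm]; exact hτ) (hz1 _ ht₁) hzz (D.symm.zs₁ hz₂') (mem_pl.1 hz₂' _ ht₂) ?_
    obtain ⟨a0, ha0, k, hk⟩ := ext hZ₁S (hZ₂S hz₂') hz₂n (by omega) t₁ ((r_iff hr).1 ht₁s)
    obtain ⟨p, q, rfl⟩ := plZ a0 ha0
    have h5 : p • x + q • z + k • z₂' ∈ Submodule.span K ({x, z, z₂'} : Set E) := by
      refine Submodule.add_mem _ (Submodule.add_mem _ (Submodule.smul_mem _ _
        (Submodule.subset_span ?_)) (Submodule.smul_mem _ _ (Submodule.subset_span ?_)))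
        (Submodule.smul_mem _ _ (Submodule.subset_span ?_)) <;> simp
    rw [← hk] at h5
    exact h5

theorem Dat.nle (D : Dat hr V W U₁ U₂ X₁ X₂ s c) :
    ¬ plr hr (U₁ : Set E) ≤ plr hr (U₂ : Set E) := fun h =>
  D.nj ⟨U₂, loc_mono (inf_le_inf_left _ h) (inf_le_inf_left _ h) D.hX₁, D.hX₂, D.hY₂⟩

theorem Dat.one₁ (D : Dat hr V W U₁ U₂ X₁ X₂ s c) (z₁ : finrank K (plr hr (U₁ : Set E)) = 1) :
    ∃ x ∈ plr hr (U₁ : Set E), x ≠ 0 ∧ x ∈ V ∧ x ∈ W ∧ r x x ∧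
      ∀ y ∈ plr hr (U₁ : Set E), ∃ a : K, y = a • x := by
  obtain ⟨x, hx, hx0⟩ := exists_ne (N := plr hr (U₁ : Set E)) (by omega)
  have hl := line z₁.le hx hx0
  have key : x ∈ V ∧ x ∈ W ∧ r x x := by
    by_contra hc
    have hle : LocTensor r (V ⊓ plr hr (U₁ : Set E)) (W ⊓ plr hr (U₁ : Set E)) ≤ ⊥ := by
      refine Submodule.span_le.2 ?_
      rintro t ⟨v, hv, w, hw, hvw, rfl⟩
      show v ⊗ₜ[K] w ∈ (⊥ : Submodule K (E ⊗[K] E))
      rw [Submodule.mem_bot]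
      obtain ⟨a, ha⟩ := hl v hv.2
      obtain ⟨b, hb⟩ := hl w hw.2
      by_cases ha0 : a = 0
      · rw [ha, ha0, zero_smul, TensorProduct.zero_tmul]
      by_cases hb0 : b = 0
      · rw [hb, hb0, zero_smul, TensorProduct.tmul_zero]
      exfalso
      apply hc
      refine ⟨?_, ?_, ?_⟩
      · have := V.smul_mem a⁻¹ hv.1
        rwa [ha, smul_smul, inv_mul_cancel₀ ha0, one_smul] at this
      · have := W.smul_mem b⁻¹ hw.1
        rwa [hb, smul_smul, inv_mul_cancel₀ hb0, one_smul] at this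
      · rw [ha, hb] at hvw
        exact unl hr ha0 (unr hr hb0 hvw)
    apply D.nj
    refine ⟨U₂, ?_, D.hX₂, D.hY₂⟩
    rw [(Submodule.mem_bot K).1 (hle D.hX₁)]
    exact Submodule.zero_mem _
  exact ⟨x, hx, hx0, key.1, key.2.1, key.2.2, hl⟩

theorem Dat.H₁ (D : Dat hr V W U₁ U₂ X₁ X₂ s c) {x : E} (hx : x ∈ plr hr (U₁ : Set E))
    (hx0 : x ≠ 0) (hxx : r x x) :
    finrank K (plr hr ({x} : Set E)) = 3 ∧ U₁ ≤ plr hr ({x} : Set E) ∧
      x ∈ plr hr ({x} : Set E) := by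
  have h1 : U₁ ≤ plr hr ({x} : Set E) := fun u hu => (r_iff' hr).1 (mem_pl.1 hx u hu)
  have h2 : x ∈ plr hr ({x} : Set E) := (r_iff hr).1 hxx
  have h3 : U₁ < plr hr ({x} : Set E) :=
    lt_of_le_of_ne h1 fun h => hx0 (D.dis₁ hx (by rw [h]; exact h2))
  have h4 := Submodule.finrank_lt_finrank_of_lt h3
  have h5 := D.nt hx0
  have h6 := D.d₁
  exact ⟨by omega, h1, h2⟩

theorem Dat.mv₁ (D : Dat hr V W U₁ U₂ X₁ X₂ s c) {x : E} (hx : x ∈ plr hr (U₁ : Set E))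
    (hx0 : x ≠ 0) (hxV : x ∈ V) (hxW : x ∈ W) (hxx : r x x)
    (hl : ∀ y ∈ plr hr (U₁ : Set E), ∃ a : K, y = a • x) {U' : Submodule K E}
    (hU' : U' ≤ plr hr ({x} : Set E)) (d' : finrank K U' = 2) (hs : s ∈ U') (hxU : x ∉ U') :
    c • (s ⊗ₜ[K] s) ∈ LocTensor r (V ⊓ U') (W ⊓ U') ∧
      X₁ ∈ LocTensor r (V ⊓ plr hr (U' : Set E)) (W ⊓ plr hr (U' : Set E)) := by
  obtain ⟨h3, h1, h2⟩ := D.H₁ hx hx0 hxx
  constructor
  · refine pj hr (H := plr hr ({x} : Set E)) ?_ hxV hxW hxx (fun b hb => (r_iff' hr).2 hb) hs hxU ?_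
    · exact loc_mono (inf_le_inf_left _ h1) (inf_le_inf_left _ h1) D.hY₁
    · exact ext hU' h2 hxU (by omega)
  · have hle : plr hr (U₁ : Set E) ≤ plr hr (U' : Set E) := by
      intro y hy
      obtain ⟨a, rfl⟩ := hl y hy
      apply Submodule.smul_mem
      exact mem_pl.2 fun u hu => (r_iff' hr).2 (hU' hu)
    exact loc_mono (inf_le_inf_left _ hle) (inf_le_inf_left _ hle) D.hX₁

theorem red11 (D : Dat hr V W U₁ U₂ X₁ X₂ s c) (z₁ : finrank K (plr hr (U₁ : Set E)) = 1)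
    (z₂ : finrank K (plr hr (U₂ : Set E)) = 1) : False := by
  obtain ⟨x, hx, hx0, hxV, hxW, hxx, hxl⟩ := D.one₁ z₁
  obtain ⟨y, hy, hy0, hyV, hyW, hyy, hyl⟩ := D.symm.one₁ z₂
  obtain ⟨a1, a2, a3⟩ := D.H₁ hx hx0 hxx
  obtain ⟨b1, b2, b3⟩ := D.symm.H₁ hy hy0 hyy
  have hxZ : x ∉ plr hr (U₂ : Set E) := by
    intro h
    apply D.nle
    intro w hw
    obtain ⟨a, rfl⟩ := hxl w hw
    exact Submodule.smul_mem _ _ h
  have hyZ : y ∉ plr hr (U₁ : Set E) := by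
    intro h
    apply D.symm.nle
    intro w hw
    obtain ⟨a, rfl⟩ := hyl w hw
    exact Submodule.smul_mem _ _ h
  have hne : plr hr ({x} : Set E) ≠ plr hr ({y} : Set E) := by
    intro h
    apply hxZ
    refine mem_pl.2 fun u hu => ?_
    have h1 := b2 hu
    rw [← h] at h1
    exact (r_iff' hr).2 h1
  have hsum := Submodule.finrank_sup_add_finrank_inf_eq (plr hr ({x} : Set E))
    (plr hr ({y} : Set E))
  have hlt : plr hr ({x} : Set E) < plr hr ({x} : Set E) ⊔ plr hr ({y} : Set E) := by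
    refine lt_of_le_of_ne le_sup_left fun h => hne ?_
    have h1 : plr hr ({y} : Set E) ≤ plr hr ({x} : Set E) := by
      rw [h]; exact le_sup_right
    exact (Submodule.eq_of_le_of_finrank_le h1 (by omega)).symm
  have h4 := Submodule.finrank_lt_finrank_of_lt hlt
  have h5 := Submodule.finrank_le (plr hr ({x} : Set E) ⊔ plr hr ({y} : Set E))
  have h6 := D.e4
  have hd : finrank K (plr hr ({x} : Set E) ⊓ plr hr ({y} : Set E) : Submodule K E) = 2 := by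
    omega
  have hsx : r s x := hr.1 _ _ (D.zs₁ hx)
  have hsy : r s y := hr.1 _ _ (D.symm.zs₁ hy)
  have hsI : s ∈ plr hr ({x} : Set E) ⊓ plr hr ({y} : Set E) :=
    ⟨(r_iff hr).1 hsx, (r_iff hr).1 hsy⟩
  by_cases hxy : r x y
  · have hyx : ∀ a : K, y ≠ a • x := by
      intro a ha
      apply hyZ
      rw [ha]
      exact Submodule.smul_mem _ _ hx
    obtain ⟨a, b, hab⟩ := plane hd.le (⟨a3, (r_iff hr).1 hxy⟩ :
      x ∈ plr hr ({x} : Set E) ⊓ plr hr ({y} : Set E)) ⟨(r_iff' hr).1 hxy, b3⟩ hx0 hyx s hsI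
    apply D.nss
    have h7 : r s (a • x + b • y) := radd hr (rsmul hr _ hsx) (rsmul hr _ hsy)
    rwa [← hab] at h7
  · obtain ⟨c1, c2⟩ := D.mv₁ hx hx0 hxV hxW hxx hxl inf_le_left hd hsI
      (fun h => hxy ((r_iff hr).2 h.2))
    obtain ⟨c3, c4⟩ := D.symm.mv₁ hy hy0 hyV hyW hyy hyl inf_le_right hd hsI
      (fun h => hxy ((r_iff' hr).2 h.1))
    exact D.nj ⟨_, c2, c4, c1⟩

theorem red12 (hP : S_PROD.{u, v}) (hN : S_NON.{u, v}) (hI : S_ISO.{u, v})
    (D : Dat hr V W U₁ U₂ X₁ X₂ s c) (z₁ : finrank K (plr hr (U₁ : Set E)) = 1)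
    (z₂ : finrank K (plr hr (U₂ : Set E)) = 2) : Tri K r := by
  obtain ⟨x, hx, hx0, hxV, hxW, hxx, hxl⟩ := D.one₁ z₁
  obtain ⟨a1, a2, a3⟩ := D.H₁ hx hx0 hxx
  have hxZ : x ∉ plr hr (U₂ : Set E) := by
    intro h
    apply D.nle
    intro w hw
    obtain ⟨a, rfl⟩ := hxl w hw
    exact Submodule.smul_mem _ _ h
  have hZ₂S : plr hr (U₂ : Set E) ≤ plr hr ({s} : Set E) :=
    fun x hx => (r_iff hr).1 (D.symm.zs₁ hx)
  have hxS : x ∈ plr hr ({s} : Set E) := (r_iff hr).1 (D.zs₁ hx)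
  have hS3 : finrank K (plr hr ({s} : Set E)) = 3 := by
    have h1 : plr hr (U₂ : Set E) < plr hr ({s} : Set E) :=
      lt_of_le_of_ne hZ₂S fun h => hxZ (by rw [h]; exact hxS)
    have h2 := Submodule.finrank_lt_finrank_of_lt h1
    have h3 := D.sd
    omega
  have hnS : s ∉ plr hr ({s} : Set E) := fun h => D.nss ((r_iff hr).2 h)
  have hnle : ¬ plr hr (U₂ : Set E) ≤ plr hr ({x} : Set E) := by
    intro h
    have h1 : plr hr ({s} : Set E) ≤ plr hr ({x} : Set E) := by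
      intro y hy
      obtain ⟨a, ha, k, rfl⟩ := ext hZ₂S hxS hxZ (by omega) y hy
      exact Submodule.add_mem _ (h ha) (Submodule.smul_mem _ _ a3)
    have h2 := Submodule.eq_of_le_of_finrank_le h1 (by omega)
    apply hnS
    rw [h2]
    exact a2 D.s₁
  have hsum := Submodule.finrank_sup_add_finrank_inf_eq (plr hr ({x} : Set E))
    (plr hr (U₂ : Set E))
  have h5 := Submodule.finrank_le (plr hr ({x} : Set E) ⊔ plr hr (U₂ : Set E))
  have h6 := D.e4
  obtain ⟨z, hz, hz0⟩ := exists_ne (N := plr hr ({x} : Set E) ⊓ plr hr (U₂ : Set E)) (by omega)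
  have hzx : r z x := (r_iff hr).2 hz.1
  have hzS : z ∈ plr hr ({s} : Set E) := hZ₂S hz.2
  have hli : LinearIndependent K ![s, z] := by
    rw [LinearIndependent.pair_iff]
    intro a b hab
    have ha : a = 0 := by
      by_contra ha
      apply hnS
      have h7 : a • s ∈ plr hr ({s} : Set E) := by
        have : a • s = -(b • z) := eq_neg_of_add_eq_zero_left hab
        rw [this]
        exact Submodule.neg_mem _ (Submodule.smul_mem _ _ hzS)
      have h8 := Submodule.smul_mem _ a⁻¹ h7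
      rwa [smul_smul, inv_mul_cancel₀ ha, one_smul] at h8
    rw [ha, zero_smul, zero_add] at hab
    exact ⟨ha, (smul_eq_zero.1 hab).resolve_right hz0⟩
  have d' : finrank K (Submodule.span K ({s, z} : Set E)) = 2 := by
    have h2 := finrank_span_eq_card hli
    rw [Fintype.card_fin] at h2
    have h3 : Set.range ![s, z] = {s, z} := by
      simp only [Matrix.range_cons, Matrix.range_empty, Set.union_empty, Set.singleton_union]
    rwa [h3] at h2
  have hsU : s ∈ Submodule.span K ({s, z} : Set E) := Submodule.subset_span (by simp)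
  have hU'H : Submodule.span K ({s, z} : Set E) ≤ plr hr ({x} : Set E) := by
    rw [Submodule.span_le]
    rintro y (rfl | rfl)
    · exact a2 D.s₁
    · exact hz.1
  have hxU' : x ∉ Submodule.span K ({s, z} : Set E) := by
    intro h
    obtain ⟨a, b, hab⟩ := Submodule.mem_span_pair.1 h
    have ha : a = 0 := by
      by_contra ha
      apply hnS
      have h7 : a • s ∈ plr hr ({s} : Set E) := by
        have : a • s = x - b • z := by rw [← hab]; abel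
        rw [this]
        exact Submodule.sub_mem _ hxS (Submodule.smul_mem _ _ hzS)
      have h8 := Submodule.smul_mem _ a⁻¹ h7
      rwa [smul_smul, inv_mul_cancel₀ ha, one_smul] at h8
    apply hxZ
    rw [← hab, ha, zero_smul, zero_add]
    exact Submodule.smul_mem _ _ hz.2
  obtain ⟨c1, c2⟩ := D.mv₁ hx hx0 hxV hxW hxx hxl hU'H d' hsU hxU'
  -- the polar of `z`
  have hPz : U₂ ≤ plr hr ({z} : Set E) := fun u hu => (r_iff' hr).1 (mem_pl.1 hz.2 u hu)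
  have hxP : x ∈ plr hr ({z} : Set E) := (r_iff' hr).1 hzx
  have hxU₂ : x ∉ U₂ := fun h => D.symm.ntt₁ h hx0 (D.zs₁ hx) hxx
  have hP3 : finrank K (plr hr ({z} : Set E)) = 3 := by
    have h1 : U₂ < plr hr ({z} : Set E) :=
      lt_of_le_of_ne hPz fun h => hxU₂ (by rw [h]; exact hxP)
    have h2 := Submodule.finrank_lt_finrank_of_lt h1
    have h3 := D.nt hz0
    have h4 := D.d₂
    omega
  have hsum2 := Submodule.finrank_sup_add_finrank_inf_eq (plr hr ({s} : Set E))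
    (plr hr ({z} : Set E))
  have h7 := Submodule.finrank_le (plr hr ({s} : Set E) ⊔ plr hr ({z} : Set E))
  have h8 : plr hr ({s} : Set E) < plr hr ({s} : Set E) ⊔ plr hr ({z} : Set E) := by
    refine lt_of_le_of_ne le_sup_left fun h => hnS ?_
    rw [h]
    exact Submodule.mem_sup_right (hPz D.s₂)
  have h9 := Submodule.finrank_lt_finrank_of_lt h8
  have hpl : plr hr ((Submodule.span K ({s, z} : Set E) : Submodule K E) : Set E) =
      plr hr ({s} : Set E) ⊓ plr hr ({z} : Set E) := by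
    apply le_antisymm
    · intro y hy
      exact ⟨(r_iff hr).1 (mem_pl.1 hy s hsU),
        (r_iff hr).1 (mem_pl.1 hy z (Submodule.subset_span (by simp)))⟩
    · intro y hy
      refine mem_pl.2 fun u hu => ?_
      obtain ⟨a, b, rfl⟩ := Submodule.mem_span_pair.1 hu
      exact radd hr (rsmul hr _ ((r_iff hr).2 hy.1)) (rsmul hr _ ((r_iff hr).2 hy.2))
  have D' : Dat hr V W (Submodule.span K ({s, z} : Set E)) U₂ X₁ X₂ s c :=
    ⟨D.e4, D.bot, c2, D.hX₂, c1, D.hY₂, D.nj, d', D.d₂, hsU, D.s₂, D.nss, D.c0⟩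
  refine i2 hP hN hI D' ?_ z₂
  rw [hpl]
  omega

end dat

end R22

/-- J7 -/
theorem r22 (_hTN : S_TN.{u, v}) (_hPRJ : S_PRJ.{u, v}) (hP : S_PROD.{u, v}) (hN : S_NON.{u, v})
    (hI : S_ISO.{u, v}) : S_R22.{u, v} := by
  intro K E _ _ _ r hr V W U₁ U₂ X₁ X₂ Y hE h hbot d₁ d₂
  have hfd : FiniteDimensional K E := Module.finite_of_finrank_pos (by omega)
  have hne : U₁ ≠ U₂ := by
    intro he
    apply h.nj
    refine ⟨U₁, h.hX₁, ?_, h.hY₁⟩
    rw [he]
    exact h.hX₂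
  have hinf : finrank K (U₁ ⊓ U₂ : Submodule K E) ≤ 1 := by
    by_contra hc
    push Not at hc
    have e1 : U₁ ⊓ U₂ = U₁ := Submodule.eq_of_le_of_finrank_le inf_le_left (by omega)
    have e2 : U₁ ⊓ U₂ = U₂ := Submodule.eq_of_le_of_finrank_le inf_le_right (by omega)
    exact hne (e1.symm.trans e2)
  rcases rank_one hinf (fun f => ⟨(cl_loc h.hY₁ f).2, (cl_loc h.hY₂ f).2⟩)
    (fun f => ⟨(cr_loc h.hY₁ f).2, (cr_loc h.hY₂ f).2⟩) with h0 | ⟨s, hs, c, hs0, hc, hY⟩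
  · exfalso
    apply h.nj
    refine ⟨⊥, loc_anti hr ?_ h.hX₁, loc_anti hr ?_ h.hX₂, ?_⟩
    · exact fun x hx => by rw [(Submodule.mem_bot K).1 hx]; exact U₁.zero_mem
    · exact fun x hx => by rw [(Submodule.mem_bot K).1 hx]; exact U₂.zero_mem
    · rw [h0]
      exact Submodule.zero_mem _
  · have hsb : s ∉ (⊥ : Submodule K E) := hs0
    obtain ⟨f, hf, -⟩ := Submodule.exists_le_ker_of_notMem hsb
    have hcf : c * f s ≠ 0 := mul_ne_zero hc hf
    have hsW : s ∈ W := by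
      have h1 := (cl_loc h.hY₁ f).1
      rw [hY, map_smul, cl_tmul, smul_smul] at h1
      have h2 := W.smul_mem (c * f s)⁻¹ h1
      rwa [smul_smul, inv_mul_cancel₀ hcf, one_smul] at h2
    have hsV : s ∈ V := by
      have h1 := (cr_loc h.hY₁ f).1
      rw [hY, map_smul, cr_tmul, smul_smul] at h1
      have h2 := V.smul_mem (c * f s)⁻¹ h1
      rwa [smul_smul, inv_mul_cancel₀ hcf, one_smul] at h2
    have hnss : ¬ r s s := by
      intro hss
      have hlt : Submodule.span K {s} < U₁ := by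
        refine lt_of_le_of_ne ((Submodule.span_singleton_le_iff_mem _ _).2 hs.1) fun he => ?_
        have h1 := finrank_span_singleton (K := K) hs0
        rw [he] at h1
        omega
      apply h.min₁ _ hlt
      rw [hY]
      apply Submodule.smul_mem
      exact Submodule.subset_span ⟨s, ⟨hsV, Submodule.mem_span_singleton_self s⟩, s,
        ⟨hsW, Submodule.mem_span_singleton_self s⟩, hss, rfl⟩
    have D : R22.Dat hr V W U₁ U₂ X₁ X₂ s c :=
      ⟨hE, hbot, h.hX₁, h.hX₂, hY ▸ h.hY₁, hY ▸ h.hY₂,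
        fun ⟨U, h1, h2, h3⟩ => h.nj ⟨U, h1, h2, by rw [hY]; exact h3⟩, d₁, d₂, hs.1, hs.2, hnss, hc⟩
    have k1 := D.zd₁
    have k2 := D.symm.zd₁
    have k3 := D.zp₁
    have k4 := D.symm.zp₁
    have k5 : finrank K (plr hr (U₁ : Set E)) = 1 ∨ finrank K (plr hr (U₁ : Set E)) = 2 := by
      omega
    have k6 : finrank K (plr hr (U₂ : Set E)) = 1 ∨ finrank K (plr hr (U₂ : Set E)) = 2 := by
      omega
    rcases k5 with k5 | k5 <;> rcases k6 with k6 | k6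
    · exact (R22.red11 D k5 k6).elim
    · exact R22.red12 hP hN hI D k5 k6
    · exact R22.red12 hP hN hI D.symm k6 k5
    · exact R22.i2 hP hN hI D k5 k6

end Pool.Agent.Y266.LT
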