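import Pool.Agent.Y266.LT.Stm2

/-!
# No minimal failing situation with a three-dimensional first space (J5)
-/

set_option autoImplicit false

open scoped TensorProduct
open Module

universe u v

namespace Pool.Agent.Y266.LT

open Pool.Agent.Results.MP_16c542_al.NotLocality Pool.Agent.Y266.LT.Pos

namespace R3

section

variable {K : Type u} {E : Type v} [Field K] [AddCommGroup E] [Module K E] {r : E → E → Prop}

/-- a vector related to a hyperplane and to a vector outside is zero -/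
theorem full (hr : IsLocalitySpace K r) [FiniteDimensional K E] (hE : finrank K E = 4)
    (hR : plr hr (Set.univ : Set E) = ⊥) {U : Submodule K E} (hU : finrank K U = 3) {q z : E}
    (hq : ∀ u ∈ U, r q u) (hqz : r q z) (hz : z ∉ U) : q = 0 := by
  have h1 : U ⊔ Submodule.span K {z} = ⊤ := by
    apply Submodule.eq_top_of_finrank_eq
    have hlt : U < U ⊔ Submodule.span K {z} := by
      refine lt_of_le_of_ne le_sup_left fun h => hz ?_
      rw [h]
      exact Submodule.mem_sup_right (Submodule.mem_span_singleton_self z)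
    have h2 := Submodule.finrank_lt_finrank_of_lt hlt
    have h3 := Submodule.finrank_le (U ⊔ Submodule.span K {z})
    omega
  have h2 : U ⊔ Submodule.span K {z} ≤ plr hr {q} := by
    rw [sup_le_iff, Submodule.span_singleton_le_iff_mem]
    exact ⟨fun u hu => (r_iff' hr).1 (hq u hu), (r_iff' hr).1 hqz⟩
  have h3 : q ∈ plr hr (Set.univ : Set E) :=
    (mem_plr hr).2 fun y _ => (r_iff' hr).2 (h2 (by rw [h1]; trivial))
  rw [hR] at h3
  exact (Submodule.mem_bot K).1 h3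

theorem finrank_pair {x y : E} (hx : x ≠ 0) (hy : y ∉ Submodule.span K {x}) :
    finrank K (Submodule.span K {x, y}) = 2 := by
  have hli : LinearIndependent K ![x, y] :=
    (LinearIndependent.pair_iff' hx).2 fun a ha =>
      hy (ha ▸ Submodule.smul_mem _ a (Submodule.mem_span_singleton_self x))
  have h2 := finrank_span_eq_card hli
  rw [Fintype.card_fin] at h2
  have h3 : Set.range ![x, y] = {x, y} := by
    simp only [Matrix.range_cons, Matrix.range_empty, Set.union_empty, Set.singleton_union]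
  rwa [h3] at h2

theorem step1 (hQ2 : S_Q2.{u, v}) (hPRJ : S_PRJ.{u, v}) (hr : IsLocalitySpace K r)
    [FiniteDimensional K E] (hE : finrank K E = 4) (hR : plr hr (Set.univ : Set E) = ⊥)
    {V W U U' : Submodule K E} {X Y : E ⊗[K] E}
    (hX : X ∈ LocTensor r (V ⊓ plr hr (U : Set E)) (W ⊓ plr hr (U : Set E))) (hX0 : X ≠ 0)
    (hY : Y ∈ LocTensor r (V ⊓ U) (W ⊓ U)) (hY' : Y ∈ LocTensor r (V ⊓ U') (W ⊓ U'))
    (hU : finrank K U = 3) (hn : ¬ U ≤ U')
    (hmin : ∀ U'' : Submodule K E, U'' < U → Y ∉ LocTensor r (V ⊓ U'') (W ⊓ U'')) :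
    ∃ x, x ≠ 0 ∧ x ∈ U ∧ x ∈ U' ∧ (∀ u ∈ U, r x u) ∧
      plr hr (U : Set E) ≤ Submodule.span K {x} := by
  have hgen : ∃ v w, v ∈ V ∧ w ∈ W ∧ v ∈ plr hr (U : Set E) ∧ w ∈ plr hr (U : Set E) ∧ r v w ∧
      v ≠ 0 ∧ w ≠ 0 := by
    by_contra hcon
    apply hX0
    have h1 : LocTensor r (V ⊓ plr hr (U : Set E)) (W ⊓ plr hr (U : Set E)) ≤ ⊥ := by
      refine Submodule.span_le.2 ?_
      rintro t ⟨v, hv, w, hw, hvw, rfl⟩
      by_cases hv0 : v = 0
      · simp [hv0]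
      by_cases hw0 : w = 0
      · simp [hw0]
      exact absurd ⟨v, w, hv.1, hw.1, hv.2, hw.2, hvw, hv0, hw0⟩ hcon
    exact (Submodule.mem_bot K).1 (h1 hX)
  obtain ⟨v, w, hvV, hwW, hvZ, hwZ, hvw, hv0, hw0⟩ := hgen
  have hvU : ∀ u ∈ U, r v u := fun u hu => (mem_plr hr).1 hvZ u hu
  have hZU : plr hr (U : Set E) ≤ U := by
    intro z hz
    by_contra hzU
    have hall : ∀ q ∈ plr hr (U : Set E), q ∈ U → q = 0 := fun q hq hqU =>
      full hr hE hR hU (fun u hu => (mem_plr hr).1 hq u hu) (hr.1 _ _ ((mem_plr hr).1 hz q hqU))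
        hzU
    exact hv0 (full hr hE hR hU hvU hvw fun hwU => hw0 (hall w hwZ hwU))
  have hltN : U ⊓ U' < U := lt_of_le_of_ne inf_le_left fun h => hn (h ▸ inf_le_right)
  have hZ1 : plr hr (U : Set E) ≤ Submodule.span K {v} := by
    intro x' hx'
    by_contra hx's
    have hQle : Submodule.span K {v, x'} ≤ plr hr (U : Set E) := by
      rw [Submodule.span_le]
      rintro y (rfl | rfl)
      · exact hvZ
      · exact hx'
    exact hmin _ hltN (hQ2 K E r hr V W U U' (Submodule.span K {v, x'}) Y hY hY' hU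
      (hQle.trans hZU) (finrank_pair hv0 hx's)
      (fun q hq b hb => (mem_plr hr).1 (hQle hq) b hb) hn)
  obtain ⟨c, hc⟩ := Submodule.mem_span_singleton.1 (hZ1 hwZ)
  have hc0 : c ≠ 0 := by
    rintro rfl
    exact hw0 (by rw [← hc, zero_smul])
  have hvW : v ∈ W := by
    have h1 := W.smul_mem c⁻¹ hwW
    rwa [← hc, smul_smul, inv_mul_cancel₀ hc0, one_smul] at h1
  refine ⟨v, hv0, hZU hvZ, ?_, hvU, hZ1⟩
  by_contra hvU'
  have hvN : v ∉ U ⊓ U' := fun h => hvU' h.2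
  obtain ⟨f, hf, hfk⟩ := Submodule.exists_le_ker_of_notMem hvN
  have hlt : U ⊓ LinearMap.ker f < U := by
    refine lt_of_le_of_ne inf_le_left fun h => hf ?_
    have h1 : v ∈ U ⊓ LinearMap.ker f := by
      rw [h]
      exact hZU hvZ
    exact h1.2
  refine hmin _ hlt (hPRJ K E r hr V W U U' (U ⊓ LinearMap.ker f) v Y hY hY' hvV hvW hvU
    inf_le_left (le_inf inf_le_left hfk) (fun h => hf h.2) ?_)
  intro u hu
  have h1 : u = (u - (f u / f v) • v) + (f u / f v) • v := by abel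
  rw [h1]
  refine Submodule.add_mem_sup ⟨?_, ?_⟩ (Submodule.smul_mem _ _
    (Submodule.mem_span_singleton_self v))
  · exact Submodule.sub_mem _ hu (Submodule.smul_mem _ _ (hZU hvZ))
  · show f (u - (f u / f v) • v) = 0
    rw [map_sub, map_smul, smul_eq_mul, div_mul_cancel₀ _ hf, sub_self]

end

end R3

open R3 in
theorem r3 (hTN : S_TN.{u, v}) (hQ2 : S_Q2.{u, v}) (hPRJ : S_PRJ.{u, v}) : S_R3.{u, v} := by
  intro K E _ _ _ r hr V W U₁ U₂ X₁ X₂ Y hE hS hR h3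
  have hfd : FiniteDimensional K E := Module.finite_of_finrank_pos (by omega)
  have hn12 : ¬ U₁ ≤ U₂ := fun h => hS.nj ⟨U₁, hS.hX₁, loc_anti hr h hS.hX₂, hS.hY₁⟩
  have hn21 : ¬ U₂ ≤ U₁ := fun h => hS.nj ⟨U₂, loc_anti hr h hS.hX₁, hS.hX₂, hS.hY₂⟩
  have hlt1 : U₁ ⊓ U₂ < U₁ := lt_of_le_of_ne inf_le_left fun h => hn12 (h ▸ inf_le_right)
  have hlt2 : U₁ ⊓ U₂ < U₂ := lt_of_le_of_ne inf_le_right fun h => hn21 (h ▸ inf_le_left)
  have hYN := hS.min₁ _ hlt1
  have hX₁0 : X₁ ≠ 0 := fun h => hS.nj ⟨U₂, h ▸ Submodule.zero_mem _, hS.hX₂, hS.hY₂⟩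
  have hX₂0 : X₂ ≠ 0 := fun h => hS.nj ⟨U₁, hS.hX₁, h ▸ Submodule.zero_mem _, hS.hY₁⟩
  obtain ⟨x₁, hx₁0, hx₁1, hx₁2, hx₁r, hZ₁⟩ :=
    step1 hQ2 hPRJ hr hE hR hS.hX₁ hX₁0 hS.hY₁ hS.hY₂ h3 hn12 hS.min₁
  -- if all of `N` is related, we are done
  have hfin : ¬ ∀ a ∈ U₁ ⊓ U₂, ∀ b ∈ U₁ ⊓ U₂, r a b := fun h =>
    hYN (hTN K E r hr V W U₁ U₂ (U₁ ⊓ U₂) Y hS.hY₁ hS.hY₂ le_rfl h)
  have hN2 : 2 ≤ finrank K (U₁ ⊓ U₂ : Submodule K E) := by
    by_contra hlt
    push Not at hlt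
    apply hfin
    have hle : Submodule.span K {x₁} ≤ U₁ ⊓ U₂ := by
      rw [Submodule.span_singleton_le_iff_mem]
      exact ⟨hx₁1, hx₁2⟩
    have h1 : Submodule.span K {x₁} = U₁ ⊓ U₂ :=
      Submodule.eq_of_le_of_finrank_le hle (by rw [finrank_span_singleton hx₁0]; omega)
    intro a ha b hb
    rw [← h1] at ha
    obtain ⟨c, rfl⟩ := Submodule.mem_span_singleton.1 ha
    exact (r_iff hr).2 (Submodule.smul_mem _ c ((r_iff hr).1 (hx₁r b hb.1)))
  have hd1 := Submodule.finrank_lt_finrank_of_lt hlt1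
  have hd2 := Submodule.finrank_lt_finrank_of_lt hlt2
  have hU₂t : U₂ ≠ ⊤ := fun h => hn12 (h ▸ le_top)
  have hd3 := Submodule.finrank_lt hU₂t
  have h3' : finrank K U₂ = 3 := by omega
  obtain ⟨x₂, hx₂0, hx₂2, hx₂1, hx₂r, hZ₂⟩ :=
    step1 hQ2 hPRJ hr hE hR hS.hX₂ hX₂0 hS.hY₂ hS.hY₁ h3' hn21 hS.min₂
  by_cases hx : x₂ ∈ Submodule.span K {x₁}
  · have h1 : plr hr (U₂ : Set E) ≤ plr hr (U₁ : Set E) := by
      refine hZ₂.trans ?_
      rw [Submodule.span_singleton_le_iff_mem]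
      obtain ⟨c, rfl⟩ := Submodule.mem_span_singleton.1 hx
      exact Submodule.smul_mem _ c ((mem_plr hr).2 fun u hu => hx₁r u hu)
    exact hS.nj ⟨U₁, hS.hX₁, loc_mono (inf_le_inf_left _ h1) (inf_le_inf_left _ h1) hS.hX₂,
      hS.hY₁⟩
  · apply hfin
    have hle : Submodule.span K {x₁, x₂} ≤ U₁ ⊓ U₂ := by
      rw [Submodule.span_le]
      rintro y (rfl | rfl)
      · exact ⟨hx₁1, hx₁2⟩
      · exact ⟨hx₂1, hx₂2⟩
    have h1 : Submodule.span K {x₁, x₂} = U₁ ⊓ U₂ :=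
      Submodule.eq_of_le_of_finrank_le hle (by rw [finrank_pair hx₁0 hx]; omega)
    intro a ha b hb
    rw [← h1] at ha
    have h2 : Submodule.span K {x₁, x₂} ≤ plr hr {b} := by
      rw [Submodule.span_le]
      rintro y (rfl | rfl)
      · exact (r_iff hr).1 (hx₁r b hb.1)
      · exact (r_iff hr).1 (hx₂r b hb.2)
    exact (r_iff hr).2 (h2 ha)

end Pool.Agent.Y266.LT
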