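import Pool.Agent.Y266.LT.Stm2

/-!
# Dimension four, fields without involution: full vectors (job J6)
-/

set_option autoImplicit false

open scoped TensorProduct
open Module

universe u v

namespace Pool.Agent.Y266.LT

open Pool.Agent.Results.MP_16c542_al.NotLocality Pool.Agent.Y266.LT.Pos

namespace Rn

variable {K : Type u} {E : Type v} [Field K] [AddCommGroup E] [Module K E] {r : E → E → Prop}

theorem r_smul (hr : IsLocalitySpace K r) {a b : E} (c : K) (h : r a b) : r (c • a) b :=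
  (r_iff hr).2 (Submodule.smul_mem _ c ((r_iff hr).1 h))

theorem r_add (hr : IsLocalitySpace K r) {a a' b : E} (h : r a b) (h' : r a' b) : r (a + a') b :=
  (r_iff hr).2 (Submodule.add_mem _ ((r_iff hr).1 h) ((r_iff hr).1 h'))

theorem r_of_smul (hr : IsLocalitySpace K r) {a b : E} {c : K} (hc : c ≠ 0) (h : r (c • a) b) :
    r a b := by
  have := r_smul hr c⁻¹ h
  rwa [smul_smul, inv_mul_cancel₀ hc, one_smul] at this

/-- a vector outside a hyperplane -/
theorem sup_top [FiniteDimensional K E] (hE : finrank K E = 4) {A : Submodule K E}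
    (hA : finrank K A = 3) {z : E} (hz : z ∉ A) : A ⊔ Submodule.span K {z} = ⊤ := by
  apply Submodule.eq_top_of_finrank_eq
  have h1 : A < A ⊔ Submodule.span K {z} := by
    refine lt_of_le_of_ne le_sup_left fun h => hz ?_
    rw [h]
    exact Submodule.mem_sup_right (Submodule.mem_span_singleton_self z)
  have h2 := Submodule.finrank_lt_finrank_of_lt h1
  have h3 := Submodule.finrank_le (A ⊔ Submodule.span K {z})
  omega

/-- one side -/
theorem side (hP : S_PROD.{u, v}) (hr : IsLocalitySpace K r) [FiniteDimensional K E]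
    (hE : finrank K E = 4) {A M : Submodule K E} {x s z z' : E} (hA : finrank K A = 3)
    (hM : finrank K M = 2) (hMA : M ≤ A) (hMs : M = Submodule.span K {x, s})
    (hx : ∀ y, r x y) (hxp : ∀ y : E, (∀ w, r y w) → y ∈ Submodule.span K {x})
    (hss : ¬ r s s) (hz : z ∉ A) (hzA : ∀ b ∈ A, r z b) (hzs' : r z' s)
    (hz' : ¬ ∀ b ∈ A, r z' b) (hloc : s ⊗ₜ[K] s ∈ LocTensor r A A) :
    ∃ g : K, z' + g • z ∈ A ∧ z' + g • z ∉ M ∧ ¬ r (z' + g • z) (z' + g • z) ∧
      r s (z' + g • z) ∧ r z (z' + g • z) ∧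
      ∃ a a' b b' : K, r (s + a • (z' + g • z)) (s + a' • (z' + g • z)) ∧
        r (s + b • (z' + g • z)) (s + b' • (z' + g • z)) ∧ a * a' ≠ b * b' := by
  have hsM : s ∈ M := by rw [hMs]; exact Submodule.subset_span (Or.inr rfl)
  have hxM : x ∈ M := by rw [hMs]; exact Submodule.subset_span (Or.inl rfl)
  have htop := sup_top hE hA hz
  have hmem : z' ∈ A ⊔ Submodule.span K {z} := by rw [htop]; trivial
  obtain ⟨w, hw, w', hw', hww⟩ := Submodule.mem_sup.1 hmem
  obtain ⟨c, rfl⟩ := Submodule.mem_span_singleton.1 hw'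
  obtain ⟨t, ht⟩ : ∃ t, t = z' + (-c) • z := ⟨_, rfl⟩
  have htw : t = w := by
    rw [ht, ← hww, neg_smul]
    abel
  refine ⟨-c, ?_⟩
  rw [← ht]
  have htA : t ∈ A := htw ▸ hw
  have hst : r s t := by
    apply hr.1
    rw [ht]
    exact r_add hr hzs' (r_smul hr _ (hzA s (hMA hsM)))
  have hzt : r z t := hzA t htA
  have htR : t ∉ Submodule.span K {x} := by
    intro h
    obtain ⟨l, hl⟩ := Submodule.mem_span_singleton.1 h
    apply hz'
    intro b hb
    have e : z' = l • x + c • z := by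
      rw [hl, ht, neg_smul]
      abel
    rw [e]
    exact r_add hr (r_smul hr _ (hx b)) (r_smul hr _ (hzA b hb))
  have htM : t ∉ M := by
    intro h
    rw [hMs] at h
    obtain ⟨l, m, hlm⟩ := Submodule.mem_span_pair.1 h
    by_cases hm : m = 0
    · rw [hm, zero_smul, add_zero] at hlm
      exact htR (Submodule.mem_span_singleton.2 ⟨l, hlm⟩)
    · have h1 : r (m • s) s := by
        have e : m • s = t + (-l) • x := by
          rw [← hlm, neg_smul]
          abel
        rw [e]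
        exact r_add hr (hr.1 _ _ hst) (r_smul hr _ (hx s))
      exact hss (r_of_smul hr hm h1)
  have hspan : Submodule.span K {s, t, x} = A := by
    apply Submodule.eq_of_le_of_finrank_le
    · rw [Submodule.span_le]
      rintro y (rfl | rfl | rfl)
      · exact hMA hsM
      · exact htA
      · exact hMA hxM
    · have h1 : M < Submodule.span K {s, t, x} := by
        refine lt_of_le_of_ne ?_ fun h => htM ?_
        · rw [hMs]
          apply Submodule.span_mono
          rintro y (rfl | rfl)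
          · exact Or.inr (Or.inr rfl)
          · exact Or.inl rfl
        · rw [h]
          exact Submodule.subset_span (Or.inr (Or.inl rfl))
      have h2 := Submodule.finrank_lt_finrank_of_lt h1
      omega
  have htt : ¬ r t t := by
    intro h
    have h1 : A ⊔ Submodule.span K {z} ≤ plr hr {t} := by
      rw [sup_le_iff, Submodule.span_singleton_le_iff_mem, ← hspan, Submodule.span_le]
      refine ⟨?_, (r_iff hr).1 hzt⟩
      rintro y (rfl | rfl | rfl)
      · exact (r_iff hr).1 hst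
      · exact (r_iff hr).1 h
      · exact (r_iff hr).1 (hx t)
    rw [htop] at h1
    exact htR (hxp t fun w => hr.1 _ _ ((r_iff hr).2 (h1 trivial)))
  exact ⟨htA, htM, htt, hst, hzt, hP K E r s t x hr hst (hx s) (hx t) (hx x) hss htt
    (by rw [hspan]; exact hloc)⟩

end Rn

open Rn in
/-- J6 -/
theorem rn (hTN : S_TN.{u, v}) (hQ1 : S_Q1.{u, v}) (hQ2 : S_Q2.{u, v}) (hP : S_PROD.{u, v})
    (hN : S_NON.{u, v}) : S_RN.{u, v} := by
  intro K E _ _ _ r hr V W U₁ U₂ X₁ X₂ Y hE hS hR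
  have hfd : FiniteDimensional K E := FiniteDimensional.of_finrank_pos (by omega)
  obtain ⟨R, hRd⟩ : ∃ R, R = plr hr (Set.univ : Set E) := ⟨_, rfl⟩
  rw [← hRd] at hR
  have hRr : ∀ x ∈ R, ∀ y, r x y := fun x hx y => by
    rw [hRd] at hx
    exact (mem_plr hr).1 hx y trivial
  have hRm : ∀ x, (∀ y, r x y) → x ∈ R := fun x hx => by
    rw [hRd]
    exact (mem_plr hr).2 fun y _ => hx y
  have hsup : ∀ U : Submodule K E,
      plr hr (U : Set E) ≤ plr hr ((U ⊔ R : Submodule K E) : Set E) := by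
    intro U y hy
    rw [mem_plr] at hy ⊢
    have h1 : U ⊔ R ≤ plr hr {y} := by
      rw [sup_le_iff]
      exact ⟨fun w hw => (r_iff' hr).1 (hy w hw), fun w hw => (r_iff hr).1 (hRr w hw y)⟩
    exact fun w hw => (r_iff' hr).2 (h1 hw)
  have joint : ∀ U : Submodule K E, plr hr (U₁ : Set E) ≤ plr hr (U : Set E) →
      plr hr (U₂ : Set E) ≤ plr hr (U : Set E) → Y ∉ LocTensor r (V ⊓ U) (W ⊓ U) := by
    intro U h1 h2 hY
    exact hS.nj ⟨U, loc_mono (inf_le_inf_left _ h1) (inf_le_inf_left _ h1) hS.hX₁,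
      loc_mono (inf_le_inf_left _ h2) (inf_le_inf_left _ h2) hS.hX₂, hY⟩
  obtain ⟨A, hAd⟩ : ∃ A, A = U₁ ⊔ R := ⟨_, rfl⟩
  obtain ⟨B, hBd⟩ : ∃ B, B = U₂ ⊔ R := ⟨_, rfl⟩
  have hPA : plr hr (U₁ : Set E) ≤ plr hr (A : Set E) := by rw [hAd]; exact hsup U₁
  have hPB : plr hr (U₂ : Set E) ≤ plr hr (B : Set E) := by rw [hBd]; exact hsup U₂
  have hAY : Y ∈ LocTensor r (V ⊓ A) (W ⊓ A) := by
    rw [hAd]
    exact loc_mono (inf_le_inf_left _ le_sup_left) (inf_le_inf_left _ le_sup_left) hS.hY₁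
  have hBY : Y ∈ LocTensor r (V ⊓ B) (W ⊓ B) := by
    rw [hBd]
    exact loc_mono (inf_le_inf_left _ le_sup_left) (inf_le_inf_left _ le_sup_left) hS.hY₂
  have hRA : R ≤ A := by rw [hAd]; exact le_sup_right
  have hRB : R ≤ B := by rw [hBd]; exact le_sup_right
  have nAB : ¬ A ≤ B := fun h => joint A hPA (hPB.trans (plr_anti hr h)) hAY
  have nBA : ¬ B ≤ A := fun h => joint B (hPA.trans (plr_anti hr h)) hPB hBY
  have hAt : A ≠ ⊤ := fun h => nBA (h ▸ le_top)
  have hBt : B ≠ ⊤ := fun h => nAB (h ▸ le_top)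
  obtain ⟨M, hMd⟩ : ∃ M, M = A ⊓ B := ⟨_, rfl⟩
  have hMA : M ≤ A := by rw [hMd]; exact inf_le_left
  have hMB : M ≤ B := by rw [hMd]; exact inf_le_right
  have hMY : Y ∉ LocTensor r (V ⊓ M) (W ⊓ M) :=
    joint M (hPA.trans (plr_anti hr hMA)) (hPB.trans (plr_anti hr hMB))
  have hRM : R ≤ M := by rw [hMd]; exact le_inf hRA hRB
  have hTNM : ¬ ∀ a ∈ M, ∀ b ∈ M, r a b := fun h =>
    hMY (hTN K E r hr V W A B M Y hAY hBY hMd.ge h)
  have hRMlt : R < M := lt_of_le_of_ne hRM fun h => hTNM (by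
    rw [← h]
    exact fun a ha b _ => hRr a ha b)
  have hMAlt : M < A := lt_of_le_of_ne hMA fun h => nAB (h ▸ hMB)
  have hMBlt : M < B := lt_of_le_of_ne hMB fun h => nBA (h ▸ hMA)
  have d1 : 0 < finrank K R := by
    apply Nat.pos_of_ne_zero
    intro h
    exact hR (Submodule.finrank_eq_zero.1 h)
  have d2 := Submodule.finrank_lt_finrank_of_lt hRMlt
  have d3 := Submodule.finrank_lt_finrank_of_lt hMAlt
  have d4 := Submodule.finrank_lt_finrank_of_lt hMBlt
  have d5 := Submodule.finrank_lt hAt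
  have d6 := Submodule.finrank_lt hBt
  have fR : finrank K R = 1 := by omega
  have fM : finrank K M = 2 := by omega
  have fA : finrank K A = 3 := by omega
  have fB : finrank K B = 3 := by omega
  obtain ⟨x, hxR, hx0⟩ := Submodule.exists_mem_ne_zero_of_ne_bot hR
  have hRx : Submodule.span K {x} = R := by
    apply Submodule.eq_of_le_of_finrank_le
    · rw [Submodule.span_singleton_le_iff_mem]; exact hxR
    · rw [finrank_span_singleton hx0]; omega
  have hx := hRr x hxR
  have hxp : ∀ y : E, (∀ w, r y w) → y ∈ Submodule.span K {x} := fun y hy => by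
    rw [hRx]; exact hRm y hy
  obtain ⟨s, hsM, hsR⟩ := SetLike.exists_of_lt hRMlt
  have hMs : M = Submodule.span K {x, s} := by
    symm
    apply Submodule.eq_of_le_of_finrank_le
    · rw [Submodule.span_le]
      rintro y (rfl | rfl)
      · exact hRM hxR
      · exact hsM
    · have h1 : R < Submodule.span K {x, s} := by
        refine lt_of_le_of_ne ?_ fun h => hsR ?_
        · rw [← hRx]
          apply Submodule.span_mono
          rintro y rfl
          exact Or.inl rfl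
        · rw [h]
          exact Submodule.subset_span (Or.inr rfl)
      have h2 := Submodule.finrank_lt_finrank_of_lt h1
      omega
  have hss : ¬ r s s := by
    intro h
    apply hTNM
    have k1 : M ≤ plr hr {s} := by
      rw [hMs, Submodule.span_le]
      rintro y (rfl | rfl)
      · exact (r_iff hr).1 (hx _)
      · exact (r_iff hr).1 h
    intro a ha b hb
    have k2 : M ≤ plr hr {a} := by
      rw [hMs, Submodule.span_le]
      rintro y (rfl | rfl)
      · exact (r_iff hr).1 (hx _)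
      · exact (r_iff' hr).1 ((r_iff hr).2 (k1 ha))
    exact (r_iff' hr).2 (k2 hb)
  -- the polars
  have hRle : ∀ S : Set E, R ≤ plr hr S := by
    intro S y hy
    rw [mem_plr]
    exact fun w _ => hRr y hy w
  obtain ⟨z₁, hz₁A, hz₁R⟩ : ∃ z ∈ plr hr (A : Set E), z ∉ R := by
    by_contra hcon
    push Not at hcon
    exact joint B ((hPA.trans hcon).trans (hRle _)) hPB hBY
  obtain ⟨z₂, hz₂B, hz₂R⟩ : ∃ z ∈ plr hr (B : Set E), z ∉ R := by
    by_contra hcon
    push Not at hcon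
    exact joint A hPA ((hPB.trans hcon).trans (hRle _)) hAY
  have hz₁A' : ∀ b ∈ A, r z₁ b := (mem_plr hr).1 hz₁A
  have hz₂B' : ∀ b ∈ B, r z₂ b := (mem_plr hr).1 hz₂B
  have hQf : ∀ z : E, z ∉ R → finrank K (Submodule.span K {x, z}) = 2 := by
    intro z hz
    have h1 : R < Submodule.span K {x, z} := by
      refine lt_of_le_of_ne ?_ fun h => hz ?_
      · rw [← hRx]
        apply Submodule.span_mono
        rintro y rfl
        exact Or.inl rfl
      · rw [h]
        exact Submodule.subset_span (Or.inr rfl)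
    have h2 := Submodule.finrank_lt_finrank_of_lt h1
    have h3 : finrank K (Submodule.span K {x, z}) ≤ 2 := by
      classical
      have h5 := finrank_span_finset_le_card (R := K) (M := E) {x, z}
      have h6 := Finset.card_le_two (a := x) (b := z)
      rw [Finset.coe_pair] at h5
      exact h5.trans h6
    omega
  have hQr : ∀ (A : Submodule K E) (z : E), (∀ b ∈ A, r z b) →
      ∀ q ∈ Submodule.span K {x, z}, ∀ b ∈ A, r q b := by
    intro A z hz q hq b hb
    obtain ⟨l, m, rfl⟩ := Submodule.mem_span_pair.1 hq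
    exact r_add hr (r_smul hr _ (hx b)) (r_smul hr _ (hz b hb))
  have hz₁n : z₁ ∉ A := by
    intro h
    apply hMY
    rw [hMd]
    refine hQ2 K E r hr V W A B (Submodule.span K {x, z₁}) Y hAY hBY fA ?_ (hQf z₁ hz₁R)
      (hQr A z₁ hz₁A') nAB
    rw [Submodule.span_le]
    rintro y (rfl | rfl)
    · exact hRA hxR
    · exact h
  have hz₂n : z₂ ∉ B := by
    intro h
    apply hMY
    rw [hMd, inf_comm A B]
    refine hQ2 K E r hr V W B A (Submodule.span K {x, z₂}) Y hBY hAY fB ?_ (hQf z₂ hz₂R)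
      (hQr B z₂ hz₂B') nBA
    rw [Submodule.span_le]
    rintro y (rfl | rfl)
    · exact hRB hxR
    · exact h
  have hABt : A ⊔ B = ⊤ := by
    apply Submodule.eq_top_of_finrank_eq
    have h1 : A < A ⊔ B := lt_of_le_of_ne le_sup_left fun h => nBA (by rw [h]; exact le_sup_right)
    have h2 := Submodule.finrank_lt_finrank_of_lt h1
    have h3 := Submodule.finrank_le (A ⊔ B)
    omega
  have hAB : ∀ z, (∀ b ∈ A, r z b) → (∀ b ∈ B, r z b) → z ∈ R := by
    intro z h1 h2
    apply hRm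
    have h3 : A ⊔ B ≤ plr hr {z} := by
      rw [sup_le_iff]
      exact ⟨fun w hw => (r_iff' hr).1 (h1 w hw), fun w hw => (r_iff' hr).1 (h2 w hw)⟩
    rw [hABt] at h3
    exact fun w => (r_iff' hr).2 (h3 trivial)
  have hz₂' : ¬ ∀ b ∈ A, r z₂ b := fun h => hz₂R (hAB z₂ h hz₂B')
  have hz₁' : ¬ ∀ b ∈ B, r z₁ b := fun h => hz₁R (hAB z₁ hz₁A' h)
  -- the tensor
  have hYl : ∀ f : E →ₗ[K] K, cl f Y ∈ M := fun f => by
    rw [hMd]; exact ⟨(cl_loc hAY f).2, (cl_loc hBY f).2⟩
  have hYr : ∀ f : E →ₗ[K] K, cr f Y ∈ M := fun f => by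
    rw [hMd]; exact ⟨(cr_loc hAY f).2, (cr_loc hBY f).2⟩
  have hsx : s ∉ Submodule.span K {x} := by rw [hRx]; exact hsR
  obtain ⟨p, hpM, q, hqM, hpq⟩ : ∃ p ∈ M, ∃ q ∈ M, Y = p ⊗ₜ[K] x + q ⊗ₜ[K] s := by
    obtain ⟨f, hf, hfk⟩ := Submodule.exists_le_ker_of_notMem hsx
    have hfx : f x = 0 := hfk (Submodule.mem_span_singleton_self x)
    have hxs : x ∉ Submodule.span K {s} := by
      intro h
      obtain ⟨l, hl⟩ := Submodule.mem_span_singleton.1 h
      have hl0 : l ≠ 0 := by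
        rintro rfl
        rw [zero_smul] at hl
        exact hx0 hl.symm
      apply hsx
      rw [Submodule.mem_span_singleton]
      exact ⟨l⁻¹, by rw [← hl, smul_smul, inv_mul_cancel₀ hl0, one_smul]⟩
    obtain ⟨g, hg, hgk⟩ := Submodule.exists_le_ker_of_notMem hxs
    have hgs : g s = 0 := hgk (Submodule.mem_span_singleton_self s)
    have hdec : ∀ y ∈ M, y = ((g x)⁻¹ * g y) • x + ((f s)⁻¹ * f y) • s := by
      intro y hy
      rw [hMs] at hy
      obtain ⟨l, m, rfl⟩ := Submodule.mem_span_pair.1 hy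
      rw [map_add, map_add, map_smul, map_smul, map_smul, map_smul, hfx, hgs]
      simp only [smul_eq_mul, mul_zero, add_zero, zero_add]
      congr 1
      · congr 1
        field_simp
      · congr 1
        field_simp
    have hY2 : Y = (∑ i, ((g x)⁻¹ * g (cl ((finBasis K E).coord i) Y)) • finBasis K E i) ⊗ₜ[K] x +
        (∑ i, ((f s)⁻¹ * f (cl ((finBasis K E).coord i) Y)) • finBasis K E i) ⊗ₜ[K] s := by
      conv_lhs => rw [expand Y]
      rw [TensorProduct.sum_tmul, TensorProduct.sum_tmul, ← Finset.sum_add_distrib]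
      refine Finset.sum_congr rfl fun i _ => ?_
      conv_lhs => rw [hdec _ (hYl ((finBasis K E).coord i))]
      rw [TensorProduct.tmul_add, TensorProduct.tmul_smul, TensorProduct.tmul_smul,
        TensorProduct.smul_tmul', TensorProduct.smul_tmul']
    refine ⟨_, ?_, _, ?_, hY2⟩
    · have h1 := hYr g
      rw [hY2, map_add, cr_tmul, cr_tmul, hgs, zero_smul, add_zero] at h1
      have h2 := M.smul_mem (g x)⁻¹ h1
      rwa [smul_smul, inv_mul_cancel₀ hg, one_smul] at h2
    · have h1 := hYr f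
      rw [hY2, map_add, cr_tmul, cr_tmul, hfx, zero_smul, zero_add] at h1
      have h2 := M.smul_mem (f s)⁻¹ h1
      rwa [smul_smul, inv_mul_cancel₀ hf, one_smul] at h2
  have hqM' := hqM
  rw [hMs] at hqM'
  obtain ⟨α, c, hq⟩ := Submodule.mem_span_pair.1 hqM'
  have hYe : Y = p ⊗ₜ[K] x + α • (x ⊗ₜ[K] s) + c • (s ⊗ₜ[K] s) := by
    rw [hpq, ← hq, TensorProduct.add_tmul, TensorProduct.smul_tmul', TensorProduct.smul_tmul',
      add_assoc]
  have hc0 : c ≠ 0 := by
    intro hc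
    apply hMY
    refine hQ1 K E r hr V W A B M x Y hAY hBY hMd.ge fM (hRM hxR) hx0 (fun b _ => hx b) ?_
    intro f hf
    rw [hYe, hc, zero_smul, add_zero, map_add, map_add, map_smul, map_smul,
      TensorProduct.map_tmul, TensorProduct.map_tmul, hf, TensorProduct.tmul_zero,
      TensorProduct.zero_tmul]
    simp
  have hlocC : ∀ C : Submodule K E, M ≤ C → Y ∈ LocTensor r (V ⊓ C) (W ⊓ C) →
      s ⊗ₜ[K] s ∈ LocTensor r C C := by
    intro C hMC hYC
    have h1 : Y ∈ LocTensor r C C := loc_mono inf_le_right inf_le_right hYC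
    have h2 : p ⊗ₜ[K] x ∈ LocTensor r C C :=
      Submodule.subset_span ⟨p, hMC hpM, x, hMC (hRM hxR), hr.1 _ _ (hx p), rfl⟩
    have h3 : x ⊗ₜ[K] s ∈ LocTensor r C C :=
      Submodule.subset_span ⟨x, hMC (hRM hxR), s, hMC hsM, hx s, rfl⟩
    have h4 : c • (s ⊗ₜ[K] s) = Y - (p ⊗ₜ[K] x + α • (x ⊗ₜ[K] s)) := by
      rw [hYe]
      abel
    have h5 : c • (s ⊗ₜ[K] s) ∈ LocTensor r C C := by
      rw [h4]
      exact Submodule.sub_mem _ h1 (Submodule.add_mem _ h2 (Submodule.smul_mem _ α h3))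
    have h6 := Submodule.smul_mem _ c⁻¹ h5
    rwa [smul_smul, inv_mul_cancel₀ hc0, one_smul] at h6
  obtain ⟨g, ht₁A, ht₁M, ht₁t, hst₁, hz₁t, a, a', b, b', hab1, hab2, hab3⟩ :=
    side hP hr hE fA fM hMA hMs hx hxp hss hz₁n hz₁A' (hz₂B' s (hMB hsM)) hz₂'
      (hlocC A hMA hAY)
  obtain ⟨h, ht₂B, ht₂M, ht₂t, hst₂, hz₂t, d, d', _, _, hd1, _, _⟩ :=
    side hP hr hE fB fM hMB hMs hx hxp hss hz₂n hz₂B' (hz₁A' s (hMA hsM)) hz₁'
      (hlocC B hMB hBY)
  obtain ⟨t₁, ht₁⟩ : ∃ t, t = z₂ + g • z₁ := ⟨_, rfl⟩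
  obtain ⟨t₂, ht₂⟩ : ∃ t, t = z₁ + h • z₂ := ⟨_, rfl⟩
  rw [← ht₁] at ht₁A ht₁M ht₁t hst₁ hz₁t hab1 hab2
  rw [← ht₂] at ht₂B ht₂M ht₂t hst₂ hz₂t hd1
  have hz₁z₁ : ¬ r z₁ z₁ := by
    intro h
    have h1 : A ⊔ Submodule.span K {z₁} ≤ plr hr {z₁} := by
      rw [sup_le_iff, Submodule.span_singleton_le_iff_mem]
      exact ⟨fun w hw => (r_iff' hr).1 (hz₁A' w hw), (r_iff hr).1 h⟩
    rw [sup_top hE fA hz₁n] at h1
    exact hz₁R (hRm z₁ fun w => (r_iff' hr).2 (h1 trivial))
  have hne : 1 - h * g ≠ 0 := by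
    intro h0
    apply ht₂M
    rw [hMd]
    refine ⟨?_, ht₂B⟩
    have e : t₂ = h • t₁ := by
      rw [ht₁, ht₂, smul_add, smul_smul]
      have : h * g = 1 := (sub_eq_zero.1 h0).symm
      rw [this, one_smul]
      abel
    rw [e]
    exact A.smul_mem _ ht₁A
  refine hN K E r s t₁ t₂ x ((1 - h * g) • z₁) z₂ a a' b b' d d' h hr (hx s) (hx t₁) (hx t₂)
    hst₁ hst₂ hss ht₁t hab1 hab2 hab3 hd1 ?_ (r_smul hr _ hz₁t) ?_ (hz₂B' s (hMB hsM)) hz₂t ?_
  · rw [ht₁, ht₂, smul_add, smul_smul, sub_smul, one_smul]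
    abel
  · intro h1
    exact hz₁z₁ (r_of_smul hr hne (hr.1 _ _ (r_of_smul hr hne (hr.1 _ _ h1))))
  · have e : t₁ = z₂ + (g * (1 - h * g)⁻¹) • ((1 - h * g) • z₁) := by
      rw [ht₁, smul_smul, mul_assoc, inv_mul_cancel₀ hne, mul_one]
    rw [e]
    exact Submodule.add_mem _ (Submodule.subset_span (Or.inr (Or.inr rfl)))
      (Submodule.smul_mem _ _ (Submodule.subset_span (Or.inr (Or.inl rfl))))

end Pool.Agent.Y266.LT
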