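import Pool.Agent.Y266.LT.Stm2

/-!
# Full spaces, almost full planes, projections (MP_16c542_al)
-/

set_option autoImplicit false

open scoped TensorProduct
open Module

universe u v

namespace Pool.Agent.Y266.LT

open Pool.Agent.Results.MP_16c542_al.NotLocality Pool.Agent.Y266.LT.Pos

namespace TQ

variable {K : Type u} [Field K] {E : Type v} [AddCommGroup E] [Module K E] {r : E → E → Prop}

theorem r_smul_left (hr : IsLocalitySpace K r) {a b : E} (c : K) (h : r a b) : r (c • a) b :=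
  (r_iff hr).2 (Submodule.smul_mem _ c ((r_iff hr).1 h))

theorem r_smul_right (hr : IsLocalitySpace K r) {a b : E} (c : K) (h : r a b) : r a (c • b) :=
  (r_iff' hr).2 (Submodule.smul_mem _ c ((r_iff' hr).1 h))

theorem r_add_left (hr : IsLocalitySpace K r) {a a' b : E} (h : r a b) (h' : r a' b) :
    r (a + a') b :=
  (r_iff hr).2 (Submodule.add_mem _ ((r_iff hr).1 h) ((r_iff hr).1 h'))

theorem r_add_right (hr : IsLocalitySpace K r) {a b b' : E} (h : r a b) (h' : r a b') :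
    r a (b + b') :=
  (r_iff' hr).2 (Submodule.add_mem _ ((r_iff' hr).1 h) ((r_iff' hr).1 h'))

theorem r_sub_left (hr : IsLocalitySpace K r) {a a' b : E} (h : r a b) (h' : r a' b) :
    r (a - a') b :=
  (r_iff hr).2 (Submodule.sub_mem _ ((r_iff hr).1 h) ((r_iff hr).1 h'))

theorem r_sub_right (hr : IsLocalitySpace K r) {a b b' : E} (h : r a b) (h' : r a b') :
    r a (b - b') :=
  (r_iff' hr).2 (Submodule.sub_mem _ ((r_iff' hr).1 h) ((r_iff' hr).1 h'))

theorem expand' [FiniteDimensional K E] (Y : E ⊗[K] E) :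
    Y = ∑ i, cr ((finBasis K E).coord i) Y ⊗ₜ[K] finBasis K E i := by
  induction Y using TensorProduct.induction_on with
  | zero => simp
  | tmul x y =>
    conv_lhs => rw [← (finBasis K E).sum_repr y, TensorProduct.tmul_sum]
    refine Finset.sum_congr rfl fun i _ => ?_
    rw [cr_tmul, Basis.coord_apply, TensorProduct.tmul_smul, TensorProduct.smul_tmul']
  | add x y hx hy =>
    conv_lhs => rw [hx, hy, ← Finset.sum_add_distrib]
    refine Finset.sum_congr rfl fun i _ => ?_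
    rw [map_add, TensorProduct.add_tmul]

theorem fixmap [FiniteDimensional K E] {A B : Submodule K E} {Y : E ⊗[K] E}
    (hcr : ∀ f : E →ₗ[K] K, cr f Y ∈ A) (hcl : ∀ f : E →ₗ[K] K, cl f Y ∈ B)
    (p q : E →ₗ[K] E) (hp : ∀ a ∈ A, p a = a) (hq : ∀ b ∈ B, q b = b) :
    TensorProduct.map p q Y = Y := by
  have h1 : TensorProduct.map p LinearMap.id Y = Y := by
    conv_lhs => rw [expand' Y, map_sum]
    conv_rhs => rw [expand' Y]
    refine Finset.sum_congr rfl fun i _ => ?_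
    rw [TensorProduct.map_tmul, hp _ (hcr _)]
    rfl
  have h2 : TensorProduct.map LinearMap.id q Y = Y := by
    conv_lhs => rw [expand Y, map_sum]
    conv_rhs => rw [expand Y]
    refine Finset.sum_congr rfl fun i _ => ?_
    rw [TensorProduct.map_tmul, hq _ (hcl _)]
    rfl
  have h3 : TensorProduct.map p q = TensorProduct.map p LinearMap.id ∘ₗ
      TensorProduct.map LinearMap.id q := by
    rw [← TensorProduct.map_comp, LinearMap.comp_id, LinearMap.id_comp]
  rw [h3, LinearMap.comp_apply, h2, h1]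

theorem exists_proj (A : Submodule K E) : ∃ p : E →ₗ[K] E, (∀ e, p e ∈ A) ∧ ∀ a ∈ A, p a = a := by
  obtain ⟨g, hg⟩ := A.subtype.exists_leftInverse_of_injective A.ker_subtype
  refine ⟨A.subtype ∘ₗ g, fun e => (g e).2, fun a ha => ?_⟩
  have := LinearMap.congr_fun hg ⟨a, ha⟩
  exact congrArg Subtype.val this

/-- the span of the products -/
def LL (A B : Submodule K E) : Submodule K (E ⊗[K] E) :=
  Submodule.span K {t | ∃ a ∈ A, ∃ b ∈ B, t = a ⊗ₜ[K] b}

theorem gen [FiniteDimensional K E] {A B : Submodule K E} {Y : E ⊗[K] E}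
    (hcr : ∀ f : E →ₗ[K] K, cr f Y ∈ A) (hcl : ∀ f : E →ₗ[K] K, cl f Y ∈ B) : Y ∈ LL A B := by
  obtain ⟨p, hp, hp'⟩ := exists_proj A
  obtain ⟨q, hq, hq'⟩ := exists_proj B
  have h : ∀ Z : E ⊗[K] E, TensorProduct.map p q Z ∈ LL A B := by
    intro Z
    induction Z using TensorProduct.induction_on with
    | zero => rw [map_zero]; exact Submodule.zero_mem _
    | tmul x y =>
      rw [TensorProduct.map_tmul]
      exact Submodule.subset_span ⟨p x, hp x, q y, hq y, rfl⟩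
    | add x y hx hy => rw [map_add]; exact Submodule.add_mem _ hx hy
  have h1 := h Y
  rwa [fixmap hcr hcl p q hp' hq'] at h1

theorem gen2 [FiniteDimensional K E] {V W U₁ U₂ N : Submodule K E} {Y : E ⊗[K] E}
    (h1 : Y ∈ LocTensor r (V ⊓ U₁) (W ⊓ U₁)) (h2 : Y ∈ LocTensor r (V ⊓ U₂) (W ⊓ U₂))
    (hN : U₁ ⊓ U₂ ≤ N) : Y ∈ LL (V ⊓ N) (W ⊓ N) :=
  gen (fun f => ⟨(cr_loc h1 f).1, hN ⟨(cr_loc h1 f).2, (cr_loc h2 f).2⟩⟩)
    (fun f => ⟨(cl_loc h1 f).1, hN ⟨(cl_loc h1 f).2, (cl_loc h2 f).2⟩⟩)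

/-- the value of `f ⊗ f` -/
noncomputable def ff (f : E →ₗ[K] K) : E ⊗[K] E →ₗ[K] K :=
  (TensorProduct.lid K K).toLinearMap ∘ₗ TensorProduct.map f f

theorem ff_tmul (f : E →ₗ[K] K) (x y : E) : ff f (x ⊗ₜ[K] y) = f x * f y := by
  simp [ff]

theorem main_lemma {A B : Submodule K E} {T : Submodule K (E ⊗[K] E)} (f : E →ₗ[K] K)
    (hT : ∀ a ∈ A, ∀ b ∈ B, f a = 0 ∨ f b = 0 → a ⊗ₜ[K] b ∈ T) {Y : E ⊗[K] E}
    (hY : Y ∈ LL A B) (hf : ff f Y = 0) : Y ∈ T := by
  by_cases hA : ∀ a ∈ A, f a = 0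
  · have h : LL A B ≤ T := by
      refine Submodule.span_le.2 ?_
      rintro t ⟨a, ha, b, hb, rfl⟩
      exact hT a ha b hb (Or.inl (hA a ha))
    exact h hY
  by_cases hB : ∀ b ∈ B, f b = 0
  · have h : LL A B ≤ T := by
      refine Submodule.span_le.2 ?_
      rintro t ⟨a, ha, b, hb, rfl⟩
      exact hT a ha b hb (Or.inr (hB b hb))
    exact h hY
  push Not at hA hB
  obtain ⟨a₀, ha₀, hfa⟩ := hA
  obtain ⟨b₀, hb₀, hfb⟩ := hB
  set M : E ⊗[K] E →ₗ[K] E ⊗[K] E := LinearMap.id -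
      (LinearMap.toSpanSingleton K (E ⊗[K] E) (a₀ ⊗ₜ[K] b₀)) ∘ₗ ((f a₀ * f b₀)⁻¹ • ff f) with hM
  have hMe : ∀ Z, M Z = Z - ((f a₀ * f b₀)⁻¹ * ff f Z) • (a₀ ⊗ₜ[K] b₀) := fun Z => rfl
  have h : LL A B ≤ T.comap M := by
    refine Submodule.span_le.2 ?_
    rintro t ⟨a, ha, b, hb, rfl⟩
    show M (a ⊗ₜ[K] b) ∈ T
    rw [hMe, ff_tmul]
    set α := f a * (f a₀)⁻¹ with hα
    set β := f b * (f b₀)⁻¹ with hβ
    have e1 : f (a - α • a₀) = 0 := by
      rw [map_sub, map_smul, smul_eq_mul, hα, mul_assoc, inv_mul_cancel₀ hfa, mul_one, sub_self]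
    have e2 : f (b - β • b₀) = 0 := by
      rw [map_sub, map_smul, smul_eq_mul, hβ, mul_assoc, inv_mul_cancel₀ hfb, mul_one, sub_self]
    have h1 := hT (a - α • a₀) (A.sub_mem ha (A.smul_mem _ ha₀)) b hb (Or.inl e1)
    have h2 := T.smul_mem α
      (hT a₀ ha₀ (b - β • b₀) (B.sub_mem hb (B.smul_mem _ hb₀)) (Or.inr e2))
    have h3 := T.add_mem h1 h2
    have e3 : (f a₀ * f b₀)⁻¹ * (f a * f b) = α * β := by
      rw [hα, hβ, mul_inv]; ring
    have e4 : (a - α • a₀) ⊗ₜ[K] b + α • (a₀ ⊗ₜ[K] (b - β • b₀)) =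
        a ⊗ₜ[K] b - ((f a₀ * f b₀)⁻¹ * (f a * f b)) • (a₀ ⊗ₜ[K] b₀) := by
      rw [e3, TensorProduct.sub_tmul, TensorProduct.tmul_sub, TensorProduct.tmul_smul,
        ← TensorProduct.smul_tmul', smul_sub, smul_smul]
      abel
    rw [← e4]
    exact h3
  have h1 := h hY
  rw [Submodule.mem_comap, hMe, hf, mul_zero, zero_smul, sub_zero] at h1
  exact h1

end TQ

open TQ

theorem tn : S_TN.{u, v} := by
  intro K E _ _ _ r hr _ V W U₁ U₂ N Y h1 h2 hN hall
  have h := gen2 h1 h2 hN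
  have hle : LL (V ⊓ N) (W ⊓ N) ≤ LocTensor r (V ⊓ N) (W ⊓ N) := by
    refine Submodule.span_le.2 ?_
    rintro t ⟨a, ha, b, hb, rfl⟩
    exact Submodule.subset_span ⟨a, ha, b, hb, hall a ha.2 b hb.2, rfl⟩
  exact hle h

theorem q1 : S_Q1.{u, v} := by
  intro K E _ _ _ r hr _ V W U₁ U₂ N x Y h1 h2 hN hdim hx hx0 hxN hf
  -- a vector of `N` outside `<x>`
  obtain ⟨s, hsN, hs⟩ : ∃ s ∈ N, s ∉ Submodule.span K {x} := by
    by_contra hcon
    push Not at hcon
    have hle : N ≤ Submodule.span K {x} := hcon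
    have := Submodule.finrank_mono hle
    rw [hdim, finrank_span_singleton hx0] at this
    omega
  obtain ⟨f, hfs, hfk⟩ := Submodule.exists_le_ker_of_notMem hs
  have hfx : f x = 0 := hfk (Submodule.mem_span_singleton_self x)
  have hNe : ∀ y ∈ N, f y = 0 → ∃ c : K, y = c • x := by
    have hle : Submodule.span K {x, s} ≤ N := by
      rw [Submodule.span_le]
      rintro y (rfl | rfl)
      · exact hx
      · exact hsN
    have h1 : finrank K (Submodule.span K {x, s}) = 2 := by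
      have hli : LinearIndependent K ![x, s] := by
        rw [LinearIndependent.pair_iff]
        intro a b hab
        have hb : b = 0 := by
          have := congrArg f hab
          rw [map_add, map_smul, map_smul, hfx, smul_zero, zero_add, map_zero, smul_eq_mul] at this
          exact (mul_eq_zero.1 this).resolve_right hfs
        rw [hb, zero_smul, add_zero] at hab
        exact ⟨(smul_eq_zero.1 hab).resolve_right hx0, hb⟩
      have h2 := finrank_span_eq_card hli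
      rw [Fintype.card_fin] at h2
      have h3 : Set.range ![x, s] = {x, s} := by
        simp only [Matrix.range_cons, Matrix.range_empty, Set.union_empty, Set.singleton_union]
      rwa [h3] at h2
    have h2 : Submodule.span K {x, s} = N :=
      Submodule.eq_of_le_of_finrank_le hle (by rw [h1, hdim])
    intro y hy hfy
    rw [← h2, Submodule.mem_span_pair] at hy
    obtain ⟨b, a, rfl⟩ := hy
    rw [map_add, map_smul, map_smul, hfx, smul_zero, zero_add, smul_eq_mul] at hfy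
    refine ⟨b, ?_⟩
    rw [(mul_eq_zero.1 hfy).resolve_right hfs, zero_smul, add_zero]
  refine main_lemma f ?_ (gen2 h1 h2 hN) (hf f hfx)
  rintro a ha b hb (h | h)
  · obtain ⟨c, rfl⟩ := hNe a ha.2 h
    exact Submodule.subset_span ⟨_, ha, _, hb, r_smul_left hr c (hxN b hb.2), rfl⟩
  · obtain ⟨c, rfl⟩ := hNe b hb.2 h
    exact Submodule.subset_span ⟨_, ha, _, hb, r_smul_right hr c (hr.1 _ _ (hxN a ha.2)), rfl⟩

theorem q2 : S_Q2.{u, v} := by
  intro K E _ _ _ r hr _ V W U₁ U₂ Q Y h1 h2 hdim hQU hQ hQr hnle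
  -- a vector of `U₁` outside `Q`
  obtain ⟨s, hsU, hs⟩ : ∃ s ∈ U₁, s ∉ Q := by
    by_contra hcon
    push Not at hcon
    have hle : U₁ ≤ Q := hcon
    have := Submodule.finrank_mono hle
    omega
  obtain ⟨f, hfs, hfk⟩ := Submodule.exists_le_ker_of_notMem hs
  have hfQ : ∀ q ∈ Q, f q = 0 := fun q hq => hfk hq
  -- decomposition of `U₁`
  have hsup : ∀ a ∈ U₁, f a ≠ 0 → U₁ ≤ Q ⊔ Submodule.span K {a} := by
    intro a ha hfa
    have hle : Q ⊔ Submodule.span K {a} ≤ U₁ :=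
      sup_le hQU ((Submodule.span_singleton_le_iff_mem a U₁).2 ha)
    have hlt : Q < Q ⊔ Submodule.span K {a} := by
      refine lt_of_le_of_ne le_sup_left fun h => ?_
      have : a ∈ Q := by
        rw [h]
        exact Submodule.mem_sup_right (Submodule.mem_span_singleton_self a)
      exact hfa (hfQ a this)
    have h3 := Submodule.finrank_lt_finrank_of_lt hlt
    have h4 : Q ⊔ Submodule.span K {a} = U₁ :=
      Submodule.eq_of_le_of_finrank_le hle (by omega)
    exact h4.ge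
  have hdec : ∀ a ∈ U₁, f a ≠ 0 → ∀ u ∈ U₁, ∃ q ∈ Q, ∃ c : K, u = q + c • a := by
    intro a ha hfa u hu
    obtain ⟨q, hq, y, hy, rfl⟩ := Submodule.mem_sup.1 (hsup a ha hfa hu)
    obtain ⟨c, rfl⟩ := Submodule.mem_span_singleton.1 hy
    exact ⟨q, hq, c, rfl⟩
  have hker : ∀ u ∈ U₁, f u = 0 → u ∈ Q := by
    intro u hu hfu
    obtain ⟨q, hq, c, rfl⟩ := hdec s hsU hfs u hu
    rw [map_add, map_smul, hfQ q hq, zero_add, smul_eq_mul] at hfu
    rw [(mul_eq_zero.1 hfu).resolve_right hfs, zero_smul, add_zero]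
    exact hq
  by_cases hcase : ∃ a ∈ U₁, ∃ b ∈ U₁, f a ≠ 0 ∧ f b ≠ 0 ∧ r a b
  · obtain ⟨a, ha, b, hb, hfa, hfb, hab⟩ := hcase
    refine tn K E r hr V W U₁ U₂ (U₁ ⊓ U₂) Y h1 h2 le_rfl ?_
    intro u hu w hw
    obtain ⟨q, hq, c, rfl⟩ := hdec a ha hfa u hu.1
    refine r_add_left hr (hQr q hq w hw.1) (r_smul_left hr c ?_)
    obtain ⟨q', hq', c', rfl⟩ := hdec b hb hfb w hw.1
    exact r_add_right hr (hr.1 _ _ (hQr q' hq' a ha)) (r_smul_right hr c' hab)
  · push Not at hcase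
    have hff : ff f Y = 0 := by
      have hk : LocTensor r (V ⊓ U₁) (W ⊓ U₁) ≤ LinearMap.ker (ff f) := by
        refine Submodule.span_le.2 ?_
        rintro t ⟨v, hv, w, hw, hvw, rfl⟩
        show ff f (v ⊗ₜ[K] w) = 0
        rw [ff_tmul]
        by_contra hne
        exact hcase v hv.2 w hw.2 (left_ne_zero_of_mul hne) (right_ne_zero_of_mul hne) hvw
      exact hk h1
    refine main_lemma f ?_ (gen2 h1 h2 le_rfl) hff
    rintro a ha b hb (h | h)
    · exact Submodule.subset_span ⟨_, ha, _, hb, hQr a (hker a ha.2.1 h) b hb.2.1, rfl⟩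
    · exact Submodule.subset_span
        ⟨_, ha, _, hb, hr.1 _ _ (hQr b (hker b hb.2.1 h) a ha.2.1), rfl⟩

theorem prj : S_PRJ.{u, v} := by
  intro K E _ _ _ r hr _ V W U₁ U₂ U' x Y h1 h2 hxV hxW hxU hU' hN hx hU₁
  obtain ⟨g₀, hg₀, hgk⟩ := Submodule.exists_le_ker_of_notMem hx
  set g : E →ₗ[K] K := (g₀ x)⁻¹ • g₀ with hg
  have hgx : g x = 1 := by
    rw [hg, LinearMap.smul_apply, smul_eq_mul, inv_mul_cancel₀ hg₀]
  have hgU : ∀ u ∈ U', g u = 0 := by
    intro u hu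
    have : g₀ u = 0 := hgk hu
    rw [hg, LinearMap.smul_apply, this, smul_zero]
  set p : E →ₗ[K] E := LinearMap.id - (LinearMap.toSpanSingleton K E x) ∘ₗ g with hp
  have hpe : ∀ e, p e = e - g e • x := fun e => rfl
  have hpU' : ∀ u ∈ U', p u = u := by
    intro u hu
    rw [hpe, hgU u hu, zero_smul, sub_zero]
  have hpU₁ : ∀ u ∈ U₁, p u ∈ U' := by
    intro u hu
    obtain ⟨u', hu', y, hy, rfl⟩ := Submodule.mem_sup.1 (hU₁ hu)
    obtain ⟨c, rfl⟩ := Submodule.mem_span_singleton.1 hy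
    rw [hpe, map_add, map_smul, hgx, hgU u' hu', zero_add, smul_eq_mul, mul_one,
      add_sub_cancel_right]
    exact hu'
  have hfix : TensorProduct.map p p Y = Y := by
    refine fixmap (A := U') (B := U') ?_ ?_ p p hpU' hpU'
    · exact fun f => hN ⟨(cr_loc h1 f).2, (cr_loc h2 f).2⟩
    · exact fun f => hN ⟨(cl_loc h1 f).2, (cl_loc h2 f).2⟩
  have hle : LocTensor r (V ⊓ U₁) (W ⊓ U₁) ≤
      (LocTensor r (V ⊓ U') (W ⊓ U')).comap (TensorProduct.map p p) := by
    refine Submodule.span_le.2 ?_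
    rintro t ⟨v, hv, w, hw, hvw, rfl⟩
    show TensorProduct.map p p (v ⊗ₜ[K] w) ∈ LocTensor r (V ⊓ U') (W ⊓ U')
    rw [TensorProduct.map_tmul]
    refine Submodule.subset_span ⟨p v, ⟨?_, hpU₁ v hv.2⟩, p w, ⟨?_, hpU₁ w hw.2⟩, ?_, rfl⟩
    · rw [hpe]
      exact V.sub_mem hv.1 (V.smul_mem _ hxV)
    · rw [hpe]
      exact W.sub_mem hw.1 (W.smul_mem _ hxW)
    · have e1 : r v (p w) := by
        rw [hpe]
        exact r_sub_right hr hvw (r_smul_right hr _ (hr.1 _ _ (hxU v hv.2)))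
      have e2 : r x (p w) := hxU _ (hU' (hpU₁ w hw.2))
      rw [hpe v]
      exact r_sub_left hr e1 (r_smul_left hr _ e2)
  have h3 : TensorProduct.map p p Y ∈ LocTensor r (V ⊓ U') (W ⊓ U') := hle h1
  rwa [hfix] at h3

end Pool.Agent.Y266.LT
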