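import Pool.Agent.Y266.LT.Stm2

/-!
# A triangle gives an involution (helper93)
-/

set_option autoImplicit false

open scoped TensorProduct
open Module

universe u v

namespace Pool.Agent.Y266.LT

open Pool.Agent.Results.MP_16c542_al.NotLocality Pool.Agent.Y266.LT.Pos

namespace TriAux

section

variable {K : Type u} [Field K] {E : Type v} [AddCommGroup E] [Module K E] {r : E → E → Prop}

theorem L2 (hr : IsLocalitySpace K r) {a b c : E} (h1 : r a c) (h2 : r b c) (x y : K) :
    r (x • a + y • b) c := by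
  rw [r_iff hr] at h1 h2 ⊢
  exact Submodule.add_mem _ (Submodule.smul_mem _ _ h1) (Submodule.smul_mem _ _ h2)

theorem R2 (hr : IsLocalitySpace K r) {a b c : E} (h1 : r c a) (h2 : r c b) (x y : K) :
    r c (x • a + y • b) :=
  hr.1 _ _ (L2 hr (hr.1 _ _ h1) (hr.1 _ _ h2) x y)

theorem L1 (hr : IsLocalitySpace K r) {a c : E} (h1 : r a c) (x : K) : r (x • a) c := by
  rw [r_iff hr] at h1 ⊢
  exact Submodule.smul_mem _ _ h1

theorem R1 (hr : IsLocalitySpace K r) {a c : E} (h1 : r c a) (x : K) : r c (x • a) :=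
  hr.1 _ _ (L1 hr (hr.1 _ _ h1) x)

/-- related points on the line of `s` and `t` -/
def P (r : E → E → Prop) (s t : E) (x x' : K) : Prop := r (s + x • t) (s + x' • t)

theorem P.symm (hr : IsLocalitySpace K r) {s t : E} {x x' : K} (h : P r s t x x') :
    P r s t x' x := hr.1 _ _ h

theorem P.ne (hr : IsLocalitySpace K r) {s t : E} {x x' : K} (h : P r s t x x') (hst : r s t)
    (hs : ¬ r s s) : x ≠ 0 := by
  rintro rfl
  apply hs
  have h1 : r s (s + x' • t) := by
    have h2 : s + (0 : K) • t = s := by rw [zero_smul, add_zero]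
    unfold P at h
    rwa [h2] at h
  have h3 := R2 hr h1 hst 1 (-x')
  have h4 : (1 : K) • (s + x' • t) + (-x') • t = s := by module
  rwa [h4] at h3

theorem P.uniq (hr : IsLocalitySpace K r) {s t : E} {x x' x'' : K} (h : P r s t x x')
    (h' : P r s t x x'') (hst : r s t) (hs : ¬ r s s) (ht : ¬ r t t) : x' = x'' := by
  by_contra hne
  have hx : x ≠ 0 := h.ne hr hst hs
  have h1 := R2 hr h h' (x' - x'')⁻¹ (-(x' - x'')⁻¹)
  have h2 : (x' - x'')⁻¹ • (s + x' • t) + (-(x' - x'')⁻¹) • (s + x'' • t) = t := by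
    have h3 : (x' - x'')⁻¹ • (s + x' • t) + (-(x' - x'')⁻¹) • (s + x'' • t) =
        ((x' - x'')⁻¹ * (x' - x'')) • t := by module
    rw [h3, inv_mul_cancel₀ (sub_ne_zero.2 hne), one_smul]
  rw [h2] at h1
  have h4 := L2 hr h1 hst x⁻¹ (-x⁻¹)
  have h5 : x⁻¹ • (s + x • t) + (-x⁻¹) • s = t := by
    have h6 : x⁻¹ • (s + x • t) + (-x⁻¹) • s = (x⁻¹ * x) • t := by module
    rw [h6, inv_mul_cancel₀ hx, one_smul]
  rw [h5] at h4
  exact ht h4

theorem c1 (hr : IsLocalitySpace K r) {s t y : E} (hst : r s t) (hsy : r s y) (hty : r t y)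
    {A A' B B' : K} (hA : P r s t A A') (hB : P r s y B B') :
    r (A' • t + B' • y) (A • t + (-B) • y) := by
  have hyt := hr.1 _ _ hty
  have h1 : r ((1 : K) • (s + A' • t) + B' • y) (s + A • t) := by
    refine L2 hr (hA.symm hr) ?_ 1 B'
    have := R2 hr (hr.1 _ _ hsy) hyt 1 A
    rwa [one_smul] at this
  have h2 : r ((1 : K) • (s + B' • y) + A' • t) (s + B • y) := by
    refine L2 hr (hB.symm hr) ?_ 1 A'
    have := R2 hr (hr.1 _ _ hst) hty 1 B
    rwa [one_smul] at this
  have e1 : (1 : K) • (s + B' • y) + A' • t = (1 : K) • (s + A' • t) + B' • y := by module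
  rw [e1] at h2
  have h3 := R2 hr h1 h2 1 (-1)
  have e2 : (1 : K) • (s + A • t) + (-1 : K) • (s + B • y) = A • t + (-B) • y := by module
  rw [e2] at h3
  have h4 := L2 hr h3 (R2 hr hst hsy A (-B)) 1 (-1)
  have e3 : (1 : K) • ((1 : K) • (s + A' • t) + B' • y) + (-1 : K) • s = A' • t + B' • y := by module
  rwa [e3] at h4

theorem c2 (hr : IsLocalitySpace K r) {s t y : E} (hst : r s t) (hsy : r s y) (hty : r t y)
    {A A' m m' : K} (hm : r (t + m' • y) (t + m • y)) (hA : P r s t A A') :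
    P r s y (-(A * m)) (A' * m') := by
  have hyt := hr.1 _ _ hty
  have h1 : r ((1 : K) • (s + A' • t) + (A' * m') • y) (s + A • t) := by
    refine L2 hr (hA.symm hr) ?_ 1 (A' * m')
    have := R2 hr (hr.1 _ _ hsy) hyt 1 A
    rwa [one_smul] at this
  have h2 : r ((1 : K) • s + A' • (t + m' • y)) (t + m • y) := by
    refine L2 hr ?_ hm 1 A'
    have := R2 hr hst hsy 1 m
    rwa [one_smul] at this
  have e1 : (1 : K) • s + A' • (t + m' • y) = (1 : K) • (s + A' • t) + (A' * m') • y := by module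
  rw [e1] at h2
  have h3 := R2 hr h1 h2 1 (-A)
  have e2 : (1 : K) • (s + A • t) + (-A) • (t + m • y) = s + (-(A * m)) • y := by module
  rw [e2] at h3
  have h4 : r t (s + (-(A * m)) • y) := by
    have := R2 hr (hr.1 _ _ hst) hty 1 (-(A * m))
    rwa [one_smul] at this
  have h5 := L2 hr h3 h4 1 (-A')
  have e3 : (1 : K) • ((1 : K) • (s + A' • t) + (A' * m') • y) + (-A') • t =
      s + (A' * m') • y := by module
  rw [e3] at h5
  exact hr.1 _ _ h5

theorem c3 (hr : IsLocalitySpace K r) {s t y : E} (hst : r s t) (hsy : r s y) (hty : r t y)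
    (hs : ¬ r s s) {A A' A₀ A₀' B B' : K} (hA : P r s t A A') (hA₀ : P r s t A₀ A₀')
    (hB : P r s y B B') : P r s y (A * B / A₀) (A' * B' / A₀') := by
  have n1 : A₀ ≠ 0 := hA₀.ne hr hst hs
  have n2 : A₀' ≠ 0 := (hA₀.symm hr).ne hr hst hs
  have h1 := R1 hr (L1 hr (c1 hr hst hsy hty hA₀ hB) A₀'⁻¹) A₀⁻¹
  have e1 : A₀'⁻¹ • (A₀' • t + B' • y) = t + (B' / A₀') • y := by
    rw [smul_add, smul_smul, smul_smul, inv_mul_cancel₀ n2, one_smul, div_eq_inv_mul]
  have e2 : A₀⁻¹ • (A₀ • t + (-B) • y) = t + (-(B / A₀)) • y := by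
    rw [smul_add, smul_smul, smul_smul, inv_mul_cancel₀ n1, one_smul, div_eq_inv_mul, mul_neg]
  rw [e1, e2] at h1
  have h2 := c2 hr hst hsy hty h1 hA
  have e3 : -(A * -(B / A₀)) = A * B / A₀ := by ring
  have e4 : A' * (B' / A₀') = A' * B' / A₀' := by ring
  rwa [e3, e4] at h2

/-- the graph of the involution -/
def T (r : E → E → Prop) (s t : E) (δ x k : K) : Prop := k ≠ 0 ∧ P r s t x (δ / k)

theorem main' (hr : IsLocalitySpace K r) {s t y : E} (hst : r s t) (hsy : r s y) (hty : r t y)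
    (hs : ¬ r s s) (ht : ¬ r t t) (hy : ¬ r y y) {δ δ' b b' : K} (h1 : P r s t 1 δ)
    (hb : P r s t b b') (hne : b * b' ≠ δ) (h1' : P r s y 1 δ') : HasInvolution K := by
  have hys := hr.1 _ _ hsy
  have hts := hr.1 _ _ hst
  have hyt := hr.1 _ _ hty
  have nδ : δ ≠ 0 := (h1.symm hr).ne hr hst hs
  have nδ' : δ' ≠ 0 := (h1'.symm hr).ne hr hsy hs
  have PQ : ∀ {x x' : K}, P r s t x x' → P r s y x (x' * δ' / δ) := by
    intro x x' h
    have := c3 hr hst hsy hty hs h h1 h1'
    rwa [mul_one, div_one] at this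
  have QP : ∀ {x x' : K}, P r s y x x' → P r s t x (x' * δ / δ') := by
    intro x x' h
    have := c3 hr hsy hst hyt hs h h1' h1
    rwa [mul_one, div_one] at this
  have mulP : ∀ {x x' z z' w w' : K}, P r s t x x' → P r s t z z' → P r s t w w' →
      P r s t (x * z / w) (x' * z' / w') := by
    intro x x' z z' w w' hx hz hw
    have nw : w' ≠ 0 := (hw.symm hr).ne hr hst hs
    have := QP (c3 hr hst hsy hty hs hx hw (PQ hz))
    have e : x' * (z' * δ' / δ) / w' * δ / δ' = x' * z' / w' := by field_simp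
    rwa [e] at this
  have T1 : T r s t δ 1 1 := ⟨one_ne_zero, by rw [div_one]; exact h1⟩
  have Tdiv : ∀ {x k z l : K}, T r s t δ x k → T r s t δ z l → T r s t δ (x / z) (k / l) := by
    rintro x k z l ⟨nk, hx⟩ ⟨nl, hz⟩
    refine ⟨div_ne_zero nk nl, ?_⟩
    have := mulP hx h1 hz
    have e : δ / k * δ / (δ / l) = δ / (k / l) := by field_simp
    rwa [mul_one, e] at this
  have Tmul : ∀ {x k z l : K}, T r s t δ x k → T r s t δ z l → T r s t δ (x * z) (k * l) := by
    rintro x k z l ⟨nk, hx⟩ ⟨nl, hz⟩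
    refine ⟨mul_ne_zero nk nl, ?_⟩
    have := mulP hx hz h1
    have e : δ / k * (δ / l) / δ = δ / (k * l) := by field_simp
    rwa [div_one, e] at this
  have Tsymm : ∀ {x k : K}, T r s t δ x k → T r s t δ k x := by
    rintro x k ⟨nk, hx⟩
    have nx : x ≠ 0 := hx.ne hr hst hs
    refine ⟨nx, ?_⟩
    have := mulP (h1.symm hr) h1 (hx.symm hr)
    have e : δ * 1 / (δ / k) = k := by field_simp
    rwa [e, one_mul] at this
  have Tuniq : ∀ {x k k' : K}, T r s t δ x k → T r s t δ x k' → k = k' := by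
    rintro x k k' ⟨nk, hx⟩ ⟨nk', hx'⟩
    have := hx.uniq hr hx' hst hs ht
    rw [div_eq_div_iff nk nk'] at this
    exact (mul_left_cancel₀ nδ this).symm
  have Tne : ∀ {x k : K}, T r s t δ x k → x ≠ 0 := fun h => h.2.ne hr hst hs
  have Tsub : ∀ {x k : K}, T r s t δ x k → x ≠ 1 → T r s t δ (1 - x) (1 - k) := by
    rintro x k ⟨nk, hx⟩ hx1
    have nx1 : 1 - x ≠ 0 := sub_ne_zero.2 hx1.symm
    -- `z = s + δ t + δ' y` and `z' = s + x t + (1 - x) y`
    have g1 : r ((1 : K) • (s + δ • t) + δ' • y) (s + (1 : K) • t) := by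
      refine L2 hr (h1.symm hr) ?_ 1 δ'
      have := R2 hr hys hyt 1 1
      rwa [one_smul K s] at this
    have g2 : r ((1 : K) • (s + δ' • y) + δ • t) (s + (1 : K) • y) := by
      refine L2 hr (h1'.symm hr) ?_ 1 δ
      have := R2 hr hts hty 1 1
      rwa [one_smul K s] at this
    have e1 : (1 : K) • (s + δ' • y) + δ • t = (1 : K) • (s + δ • t) + δ' • y := by module
    rw [e1] at g2
    have g3 := hr.1 _ _ (R2 hr g1 g2 x (1 - x))
    have e2 : x • (s + (1 : K) • t) + (1 - x) • (s + (1 : K) • y) =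
        (1 : K) • (s + x • t) + (1 - x) • y := by module
    rw [e2] at g3
    have g4 : r ((1 : K) • (s + x • t) + (1 - x) • y) (s + (δ / k) • t) := by
      refine L2 hr hx ?_ 1 (1 - x)
      have := R2 hr hys hyt 1 (δ / k)
      rwa [one_smul] at this
    have g5 := R2 hr g3 g4 1 (-k)
    have e3 : (1 : K) • ((1 : K) • (s + δ • t) + δ' • y) + (-k) • (s + (δ / k) • t) =
        (1 - k) • s + δ' • y := by
      have e4 : (-k) • (s + (δ / k) • t) = (-k) • s + (-δ) • t := by
        rw [smul_add, smul_smul]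
        congr 2
        field_simp
      rw [e4]
      module
    rw [e3] at g5
    have g6 := L2 hr g5 (R2 hr hts hty (1 - k) δ') 1 (-x)
    have e5 : (1 : K) • ((1 : K) • (s + x • t) + (1 - x) • y) + (-x) • t = s + (1 - x) • y := by
      module
    rw [e5] at g6
    have nk1 : 1 - k ≠ 0 := by
      intro hk
      rw [hk, zero_smul, zero_add] at g6
      have g7 := R1 hr (L2 hr g6 (R1 hr hsy δ') (1 - x)⁻¹ (-(1 - x)⁻¹)) δ'⁻¹
      rw [smul_smul, inv_mul_cancel₀ nδ', one_smul] at g7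
      have e6 : (1 - x)⁻¹ • (s + (1 - x) • y) + (-(1 - x)⁻¹) • s = y := by
        have e7 : (1 - x)⁻¹ • (s + (1 - x) • y) + (-(1 - x)⁻¹) • s =
            ((1 - x)⁻¹ * (1 - x)) • y := by module
        rw [e7, inv_mul_cancel₀ nx1, one_smul]
      rw [e6] at g7
      exact hy g7
    have g8 := R1 hr g6 (1 - k)⁻¹
    have e8 : (1 - k)⁻¹ • ((1 - k) • s + δ' • y) = s + (δ' / (1 - k)) • y := by
      rw [smul_add, smul_smul, smul_smul, inv_mul_cancel₀ nk1, one_smul, div_eq_inv_mul]
    rw [e8] at g8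
    refine ⟨nk1, ?_⟩
    have g9 := QP g8
    have e9 : δ' / (1 - k) * δ / δ' = δ / (1 - k) := by field_simp
    rwa [e9] at g9
  -- the element which is moved
  have nb : b ≠ 0 := hb.ne hr hst hs
  have nb' : b' ≠ 0 := (hb.symm hr).ne hr hst hs
  have Tb : T r s t δ b (δ / b') := ⟨div_ne_zero nδ nb', by
    have e : δ / (δ / b') = b' := by field_simp
    rw [e]; exact hb⟩
  have hb1 : b ≠ 1 := by
    rintro rfl
    rw [one_mul] at hne
    exact hne (hb.uniq hr h1 hst hs ht)
  have hbk : b ≠ δ / b' := by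
    intro h
    rw [eq_div_iff nb'] at h
    exact hne h
  set κ := δ / b' with hκ
  have Tm1 : T r s t δ (-1) (-1) := by
    have t1 := Tsub Tb hb1
    have n1 : 1 - b ≠ 0 := Tne t1
    have n2 : 1 - κ ≠ 0 := t1.1
    have nκ : κ ≠ 0 := Tb.1
    have t2 := Tdiv T1 t1
    have h2 : 1 / (1 - b) ≠ 1 := by
      intro h
      rw [div_eq_one_iff_eq n1] at h
      exact nb (by linear_combination h)
    have t3 := Tdiv (Tmul (Tsub t2 h2) t1) Tb
    have e1 : (1 - 1 / (1 - b)) * (1 - b) / b = -1 := by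
      field_simp
      ring
    have e2 : (1 - 1 / (1 - κ)) * (1 - κ) / κ = -1 := by
      field_simp
      ring
    rwa [e1, e2] at t3
  have Tneg : ∀ {x k : K}, T r s t δ x k → T r s t δ (-x) (-k) := by
    intro x k h
    have := Tmul Tm1 h
    rwa [neg_one_mul, neg_one_mul] at this
  -- the subring
  let Θ : K → K → Prop := fun x k => (x = 0 ∧ k = 0) ∨ T r s t δ x k
  have Θmul : ∀ {x k z l : K}, Θ x k → Θ z l → Θ (x * z) (k * l) := by
    rintro x k z l (⟨rfl, rfl⟩ | h) (⟨rfl, rfl⟩ | h')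
    · exact Or.inl ⟨zero_mul _, zero_mul _⟩
    · exact Or.inl ⟨zero_mul _, zero_mul _⟩
    · exact Or.inl ⟨mul_zero _, mul_zero _⟩
    · exact Or.inr (Tmul h h')
  have Θneg : ∀ {x k : K}, Θ x k → Θ (-x) (-k) := by
    rintro x k (⟨rfl, rfl⟩ | h)
    · exact Or.inl ⟨neg_zero, neg_zero⟩
    · exact Or.inr (Tneg h)
  have Θadd : ∀ {x k z l : K}, Θ x k → Θ z l → Θ (x + z) (k + l) := by
    rintro x k z l (⟨rfl, rfl⟩ | h) (⟨rfl, rfl⟩ | h')
    · exact Or.inl ⟨add_zero _, add_zero _⟩
    · rw [zero_add, zero_add]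
      exact Or.inr h'
    · rw [add_zero, add_zero]
      exact Or.inr h
    · by_cases hz : x + z = 0
      · refine Or.inl ⟨hz, ?_⟩
        have e1 : z = -x := by linear_combination hz
        have e2 : T r s t δ (-x) l := by rw [← e1]; exact h'
        have e3 := Tuniq (Tneg h) e2
        rw [← e3, add_neg_cancel]
      · refine Or.inr ?_
        have nx : x ≠ 0 := Tne h
        have nk : k ≠ 0 := h.1
        have e1 : -z / x ≠ 1 := by
          intro e
          rw [div_eq_one_iff_eq nx] at e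
          exact hz (by linear_combination -e)
        have e2 := Tmul h (Tsub (Tdiv (Tneg h') h) e1)
        have e3 : x * (1 - -z / x) = x + z := by field_simp; ring
        have e4 : k * (1 - -l / k) = k + l := by field_simp; ring
        rw [e3, e4] at e2
        exact e2
  let S : Subring (K × K) :=
    { carrier := {p | Θ p.1 p.2}
      zero_mem' := Or.inl ⟨rfl, rfl⟩
      one_mem' := Or.inr T1
      mul_mem' := fun h h' => Θmul h h'
      neg_mem' := fun h => Θneg h
      add_mem' := fun h h' => Θadd h h' }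
  have Θs : ∀ {x k : K}, Θ x k → Θ k x := by
    rintro x k (h | h)
    · exact Or.inl ⟨h.2, h.1⟩
    · exact Or.inr (Tsymm h)
  let θ : S →+* S :=
    { toFun := fun a => ⟨(a.1.2, a.1.1), Θs a.2⟩
      map_one' := rfl
      map_mul' := fun a b => rfl
      map_zero' := rfl
      map_add' := fun a b => rfl }
  refine ⟨S, inferInstance, (RingHom.fst K K).comp S.subtype, θ, ?_, fun a => rfl,
    ⟨(b, κ), Or.inr Tb⟩, ?_⟩
  · rintro ⟨⟨x, k⟩, h⟩ ⟨⟨z, l⟩, h'⟩ hxz
    have e : x = z := hxz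
    subst e
    have e2 : k = l := by
      rcases h with h | h <;> rcases h' with h' | h'
      · exact h.2.trans h'.2.symm
      · exact absurd h.1 (Tne h')
      · exact absurd h'.1 (Tne h)
      · exact Tuniq h h'
    subst e2
    rfl
  · intro h
    have h2 := congrArg (fun a : S => a.1.2) h
    exact hbk h2

end

end TriAux

open TriAux in
/-- **a triangle gives an involution** -/
theorem tri : S_TRI.{u, v} := by
  rintro K E _ _ _ r hr ⟨s, t, y, a, a', b, b', c, c', hst, hsy, hty, hs, ht, hy, ha, hb, hab, hc⟩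
  have na : a ≠ 0 := P.ne hr (x := a) (x' := a') ha hst hs
  have nc : c ≠ 0 := P.ne hr (x := c) (x' := c') hc hsy hs
  have sc : ∀ (d x : K) (w : E), d ≠ 0 → (x / d) • (d • w) = x • w := by
    intro d x w hd
    rw [smul_smul, div_mul_cancel₀ _ hd]
  refine main' (s := s) (t := a • t) (y := c • y) hr (R1 hr hst a) (R1 hr hsy c)
    (L1 hr (R1 hr hty c) a) hs ?_ ?_ (δ := a' / a) (δ' := c' / c) (b := b / a) (b' := b' / a)
    ?_ ?_ ?_ ?_
  · intro h
    apply ht
    have := L1 hr (R1 hr h a⁻¹) a⁻¹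
    rwa [smul_smul, inv_mul_cancel₀ na, one_smul] at this
  · intro h
    apply hy
    have := L1 hr (R1 hr h c⁻¹) c⁻¹
    rwa [smul_smul, inv_mul_cancel₀ nc, one_smul] at this
  · unfold P
    rw [one_smul, sc _ _ _ na]
    exact ha
  · unfold P
    rw [sc _ _ _ na, sc _ _ _ na]
    exact hb
  · intro h
    apply hab
    field_simp at h
    linear_combination -h
  · unfold P
    rw [one_smul, sc _ _ _ nc]
    exact hc

end Pool.Agent.Y266.LT
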