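import Pool.Agent.Y266.LT.Stm

/-! # Configurations give locality relations -/

set_option autoImplicit false

universe u v

namespace Pool.Agent.Y266.LT

open Pool.Agent.Results.MP_16c542_al.NotLocality

theorem crel_symm {K F I : Type*} [Field K] [AddCommGroup F] [Module K F] {p : I → F}
    {P : I → Submodule K F} {x y : F} (h : crel p P x y) : crel p P y x := by
  rcases h with h | h | ⟨i, h | h⟩
  · exact Or.inr (Or.inl h)
  · exact Or.inl h
  · exact Or.inr (Or.inr ⟨i, Or.inr h⟩)
  · exact Or.inr (Or.inr ⟨i, Or.inl h⟩)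

/-- the polar space of a point of the configuration -/
theorem crel_point {K F I : Type*} [Field K] [AddCommGroup F] [Module K F] {p : I → F}
    {P : I → Submodule K F} (h1 : ∀ i j, p i ∈ P j → p j ∈ P i)
    (h3 : ∀ i j, p j ∈ Submodule.span K {p i} ↔ P i = P j)
    {i : I} {x y : F} (hy : y ∈ Submodule.span K {p i}) (h0 : y ≠ 0) :
    crel p P x y ↔ x ∈ P i := by
  obtain ⟨c, rfl⟩ := Submodule.mem_span_singleton.1 hy
  have hc : c ≠ 0 := fun h => h0 (by rw [h, zero_smul])
  constructor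
  · rintro (h | h | ⟨j, ⟨h, h'⟩ | ⟨h, h'⟩⟩)
    · rw [h]; exact zero_mem _
    · exact absurd h h0
    · have hi : p i ∈ P j := by
        have := (P j).smul_mem c⁻¹ h'
        rwa [smul_smul, inv_mul_cancel₀ hc, one_smul] at this
      obtain ⟨d, rfl⟩ := Submodule.mem_span_singleton.1 h
      exact (P i).smul_mem d (h1 i j hi)
    · have hi : p i ∈ Submodule.span K {p j} := by
        have := Submodule.smul_mem _ c⁻¹ h
        rwa [smul_smul, inv_mul_cancel₀ hc, one_smul] at this
      rw [← (h3 j i).1 hi]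
      exact h'
  · intro h
    exact Or.inr (Or.inr ⟨i, Or.inr ⟨hy, h⟩⟩)

theorem conf : S_CONF.{u} := by
  intro K F I _ _ _ p P hp h1 h2 h3
  refine ⟨fun x y h => crel_symm h, fun S => ?_⟩
  have key : ∀ y : F, ∃ W : Submodule K F, ∀ x, x ∈ W ↔ crel p P x y := by
    intro y
    by_cases hy : y = 0
    · exact ⟨⊤, fun x => ⟨fun _ => Or.inr (Or.inl hy), fun _ => trivial⟩⟩
    by_cases h : ∃ i, y ∈ Submodule.span K {p i}
    · obtain ⟨i, hi⟩ := h
      exact ⟨P i, fun x => (crel_point h1 h3 hi hy).symm⟩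
    · by_cases h' : ∃ i, y ∈ P i
      · obtain ⟨i, hi⟩ := h'
        refine ⟨Submodule.span K {p i}, fun x => ⟨fun hx => Or.inr (Or.inr ⟨i, Or.inl ⟨hx, hi⟩⟩),
          ?_⟩⟩
        rintro (hx | hx | ⟨j, ⟨hx, hx'⟩ | ⟨hx, hx'⟩⟩)
        · rw [hx]; exact zero_mem _
        · exact absurd hx hy
        · have hPP : P i = P j := by
            by_contra hne
            exact h (h2 i j hne y hi hx' hy)
          have hj := (h3 i j).2 hPP
          obtain ⟨d, rfl⟩ := Submodule.mem_span_singleton.1 hx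
          exact Submodule.smul_mem _ d hj
        · exact absurd ⟨j, hx⟩ h
      · refine ⟨⊥, fun x => ⟨fun hx => Or.inl ((Submodule.mem_bot K).1 hx), ?_⟩⟩
        rintro (hx | hx | ⟨j, ⟨hx, hx'⟩ | ⟨hx, hx'⟩⟩)
        · rw [hx]; exact zero_mem _
        · exact absurd hx hy
        · exact absurd ⟨j, hx'⟩ h'
        · exact absurd ⟨j, hx⟩ h
  choose W hW using key
  refine ⟨⨅ y ∈ S, W y, ?_⟩
  ext x
  simp only [SetLike.mem_coe, Submodule.mem_iInf, hW]
  rfl

end Pool.Agent.Y266.LT
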