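import Pool.Agent.Y266.LT.Stm

/-!
# A seed of dimension four (MP_16c542_al)
-/

set_option autoImplicit false

open scoped TensorProduct

universe u

namespace Pool.Agent.Y266.LT

open Pool.Agent.Results.MP_16c542_al.NotLocality

namespace N4

/-- Lagrange interpolation -/
theorem lagrange {K : Type*} [Field K] (a b c : K) (ha : a ≠ 0) (hb : b ≠ 0) (hc : c ≠ 0)
    (hab : a ≠ b) (hac : a ≠ c) (hbc : b ≠ c) :
    ∃ l : Fin 3 → K, l 0 + l 1 + l 2 = 1 ∧ l 0 * a + l 1 * b + l 2 * c = 0 ∧
      l 0 * a ^ 2 + l 1 * b ^ 2 + l 2 * c ^ 2 = 0 := by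
  have h1 : b - a ≠ 0 := sub_ne_zero.2 hab.symm
  have h2 : c - a ≠ 0 := sub_ne_zero.2 hac.symm
  have h3 : c - b ≠ 0 := sub_ne_zero.2 hbc.symm
  refine ⟨![b * c / ((b - a) * (c - a)), -(a * c / ((b - a) * (c - b))),
    a * b / ((c - a) * (c - b))], ?_, ?_, ?_⟩
  · simp only [Matrix.cons_val_zero, Matrix.cons_val_one, Matrix.cons_val]
    field_simp
    ring
  · simp only [Matrix.cons_val_zero, Matrix.cons_val_one, Matrix.cons_val]
    field_simp
    ring
  · simp only [Matrix.cons_val_zero, Matrix.cons_val_one, Matrix.cons_val]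
    field_simp
    ring

theorem tensor_lag {K F : Type*} [Field K] [AddCommGroup F] [Module K F] (x z : F)
    (l e : Fin 3 → K) (h1 : l 0 + l 1 + l 2 = 1) (h2 : l 0 * e 0 + l 1 * e 1 + l 2 * e 2 = 0)
    (h3 : l 0 * e 0 ^ 2 + l 1 * e 1 ^ 2 + l 2 * e 2 ^ 2 = 0) :
    x ⊗ₜ[K] x = ∑ j, (l j • (x + e j • z)) ⊗ₜ[K] (x + e j • z) := by
  have hj : ∀ j, (l j • (x + e j • z)) ⊗ₜ[K] (x + e j • z) =
      l j • (x ⊗ₜ[K] x) + (l j * e j) • (x ⊗ₜ[K] z + z ⊗ₜ[K] x) + (l j * e j ^ 2) • (z ⊗ₜ[K] z) := by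
    intro j
    simp only [← TensorProduct.smul_tmul', TensorProduct.add_tmul, TensorProduct.tmul_add,
      TensorProduct.tmul_smul]
    module
  simp only [hj, Fin.sum_univ_three]
  have h4 : l 0 • (x ⊗ₜ[K] x) + (l 0 * e 0) • (x ⊗ₜ[K] z + z ⊗ₜ[K] x) +
      (l 0 * e 0 ^ 2) • (z ⊗ₜ[K] z) + (l 1 • (x ⊗ₜ[K] x) + (l 1 * e 1) • (x ⊗ₜ[K] z + z ⊗ₜ[K] x) +
      (l 1 * e 1 ^ 2) • (z ⊗ₜ[K] z)) + (l 2 • (x ⊗ₜ[K] x) + (l 2 * e 2) • (x ⊗ₜ[K] z + z ⊗ₜ[K] x) +
      (l 2 * e 2 ^ 2) • (z ⊗ₜ[K] z)) = (l 0 + l 1 + l 2) • (x ⊗ₜ[K] x) +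
      (l 0 * e 0 + l 1 * e 1 + l 2 * e 2) • (x ⊗ₜ[K] z + z ⊗ₜ[K] x) +
      (l 0 * e 0 ^ 2 + l 1 * e 1 ^ 2 + l 2 * e 2 ^ 2) • (z ⊗ₜ[K] z) := by
    module
  rw [h4, h1, h2, h3, one_smul, zero_smul, zero_smul, add_zero, add_zero]

/-- the index set of the configuration -/
inductive Ix : Type u
  | y : Ix
  | y' : Ix
  | s : Ix
  | a : Fin 3 → Ix
  | b : Fin 3 → Ix

variable {K : Type u} [Field K]

/-- the points -/
def pt (c d : Fin 3 → K) : Ix.{u} → (Fin 4 → K)
  | .y => ![0, 0, 0, 1]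
  | .y' => ![0, 1, 1, 1]
  | .s => ![1, 0, 0, 0]
  | .a i => ![1, c i, 0, 0]
  | .b i => ![1, 0, d i, 0]

/-- the equations of the polar spaces -/
def eq1 (c d : Fin 3 → K) : Ix.{u} → (Fin 4 → K) → K
  | .y, b => b 2
  | .y', b => b 1
  | .s, b => b 0
  | .a i, b => b 1 - c i * b 0
  | .b _, b => b 1 - b 3

/-- the equations of the polar spaces -/
def eq2 (c d : Fin 3 → K) : Ix.{u} → (Fin 4 → K) → K
  | .y, b => b 3
  | .y', b => b 3
  | .s, b => b 1 - b 2
  | .a _, b => b 2
  | .b i, b => b 2 - b 1 - d i * b 0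

/-- the polar spaces -/
def PP (c d : Fin 3 → K) (i : Ix.{u}) : Submodule K (Fin 4 → K) where
  carrier := {b | eq1 c d i b = 0 ∧ eq2 c d i b = 0}
  zero_mem' := by
    cases i <;> simp [eq1, eq2]
  add_mem' := by
    rintro x z ⟨h1, h2⟩ ⟨h3, h4⟩
    have e1 : eq1 c d i (x + z) = eq1 c d i x + eq1 c d i z := by
      cases i <;> simp only [eq1, Pi.add_apply] <;> ring
    have e2 : eq2 c d i (x + z) = eq2 c d i x + eq2 c d i z := by
      cases i <;> simp only [eq2, Pi.add_apply] <;> ring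
    exact ⟨by rw [e1, h1, h3, add_zero], by rw [e2, h2, h4, add_zero]⟩
  smul_mem' := by
    rintro t x ⟨h1, h2⟩
    have e1 : eq1 c d i (t • x) = t * eq1 c d i x := by
      cases i <;> simp only [eq1, Pi.smul_apply, smul_eq_mul] <;> ring
    have e2 : eq2 c d i (t • x) = t * eq2 c d i x := by
      cases i <;> simp only [eq2, Pi.smul_apply, smul_eq_mul] <;> ring
    exact ⟨by rw [e1, h1, mul_zero], by rw [e2, h2, mul_zero]⟩

theorem mem_PP {c d : Fin 3 → K} {i : Ix.{u}} {b : Fin 4 → K} :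
    b ∈ PP c d i ↔ eq1 c d i b = 0 ∧ eq2 c d i b = 0 := Iff.rfl

theorem pt_ne (c d : Fin 3 → K) (i : Ix.{u}) : pt c d i ≠ 0 := by
  intro h
  cases i with
  | y => simpa [pt] using congrFun h 3
  | y' => simpa [pt] using congrFun h 3
  | s => simpa [pt] using congrFun h 0
  | a i => simpa [pt] using congrFun h 0
  | b i => simpa [pt] using congrFun h 0

theorem pt_symm {c d : Fin 3 → K} (hc0 : ∀ i, c i ≠ 0) (hd0 : ∀ i, d i ≠ 0) (i j : Ix.{u})
    (h : pt c d i ∈ PP c d j) : pt c d j ∈ PP c d i := by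
  rw [mem_PP] at h ⊢
  cases i <;> cases j <;> simp [pt, eq1, eq2, hc0, hd0, sub_eq_zero] at h ⊢
  all_goals first | exact h.symm | tauto

theorem smul_form {c d : Fin 3 → K} (k : Ix.{u}) (t : K) (b : Fin 4 → K)
    (h0 : b 0 = t * pt c d k 0) (h1 : b 1 = t * pt c d k 1) (h2 : b 2 = t * pt c d k 2)
    (h3 : b 3 = t * pt c d k 3) : b = t • pt c d k := by
  ext l
  fin_cases l
  · exact h0
  · exact h1
  · exact h2
  · exact h3

theorem inter {c d : Fin 3 → K} (hc : Function.Injective c) (hd : Function.Injective d)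
    (hc0 : ∀ i, c i ≠ 0) (hd0 : ∀ i, d i ≠ 0) (hcd : ∀ i j, c i + d j ≠ 0) (i j : Ix.{u})
    (hij : i ≠ j) (b : Fin 4 → K) (h1 : b ∈ PP c d i) (h2 : b ∈ PP c d j) :
    ∃ (k : Ix.{u}) (t : K), b = t • pt c d k := by
  obtain ⟨e1, e2⟩ := h1
  obtain ⟨e3, e4⟩ := h2
  have hcc : ∀ i j, i ≠ j → c i - c j ≠ 0 := fun i j h => sub_ne_zero.2 fun h' => h (hc h')
  have hdd : ∀ i j, i ≠ j → d i - d j ≠ 0 := fun i j h => sub_ne_zero.2 fun h' => h (hd h')
  have zero : ∀ t : K, t * b 0 = 0 → t ≠ 0 → b 0 = 0 := fun t h h' =>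
    (mul_eq_zero.1 h).resolve_left h'
  cases i with
  | y =>
    cases j with
    | y => exact absurd rfl hij
    | y' =>
      simp only [eq1, eq2] at e1 e2 e3 e4
      exact ⟨.s, b 0, smul_form _ _ _ (by simp [pt]) (by simp [pt, e3]) (by simp [pt, e1])
        (by simp [pt, e2])⟩
    | s =>
      simp only [eq1, eq2] at e1 e2 e3 e4
      refine ⟨.s, b 0, smul_form _ _ _ (by simp [pt]) ?_ (by simp [pt, e1])
        (by simp [pt, e2])⟩
      simp only [pt, Matrix.cons_val_one, Matrix.cons_val_zero, mul_zero]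
      linear_combination e4 + e1
    | a i =>
      simp only [eq1, eq2] at e1 e2 e3 e4
      refine ⟨.a i, b 0, smul_form _ _ _ (by simp [pt]) ?_ (by simp [pt, e1])
        (by simp [pt, e2])⟩
      simp only [pt, Matrix.cons_val_one, Matrix.cons_val_zero]
      linear_combination e3
    | b i =>
      simp only [eq1, eq2] at e1 e2 e3 e4
      have h0 := zero (d i) (by linear_combination e1 - e4 - e3 - e2) (hd0 i)
      refine ⟨.s, b 0, smul_form _ _ _ (by simp [pt]) ?_ (by simp [pt, e1])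
        (by simp [pt, e2])⟩
      simp only [pt, Matrix.cons_val_one, Matrix.cons_val_zero, mul_zero]
      linear_combination e3 + e2
  | y' =>
    cases j with
    | y =>
      simp only [eq1, eq2] at e1 e2 e3 e4
      exact ⟨.s, b 0, smul_form _ _ _ (by simp [pt]) (by simp [pt, e1]) (by simp [pt, e3])
        (by simp [pt, e2])⟩
    | y' => exact absurd rfl hij
    | s =>
      simp only [eq1, eq2] at e1 e2 e3 e4
      refine ⟨.s, b 0, smul_form _ _ _ (by simp [pt]) (by simp [pt, e1]) ?_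
        (by simp [pt, e2])⟩
      simp only [pt, Matrix.cons_val]
      linear_combination e1 - e4
    | a i =>
      simp only [eq1, eq2] at e1 e2 e3 e4
      exact ⟨.s, b 0, smul_form _ _ _ (by simp [pt]) (by simp [pt, e1]) (by simp [pt, e4])
        (by simp [pt, e2])⟩
    | b i =>
      simp only [eq1, eq2] at e1 e2 e3 e4
      refine ⟨.b i, b 0, smul_form _ _ _ (by simp [pt]) (by simp [pt, e1]) ?_
        (by simp [pt, e2])⟩
      simp only [pt, Matrix.cons_val]
      linear_combination e4 + e1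
  | s =>
    cases j with
    | y =>
      simp only [eq1, eq2] at e1 e2 e3 e4
      refine ⟨.s, b 0, smul_form _ _ _ (by simp [pt]) ?_ (by simp [pt, e3])
        (by simp [pt, e4])⟩
      simp only [pt, Matrix.cons_val_one, Matrix.cons_val_zero, mul_zero]
      linear_combination e2 + e3
    | y' =>
      simp only [eq1, eq2] at e1 e2 e3 e4
      refine ⟨.s, b 0, smul_form _ _ _ (by simp [pt]) (by simp [pt, e3]) ?_
        (by simp [pt, e4])⟩
      simp only [pt, Matrix.cons_val]
      linear_combination e3 - e2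
    | s => exact absurd rfl hij
    | a i =>
      simp only [eq1, eq2] at e1 e2 e3 e4
      refine ⟨.y, b 3, smul_form _ _ _ (by simp [pt, e1]) ?_ (by simp [pt, e4])
        (by simp [pt])⟩
      simp only [pt, Matrix.cons_val_one, Matrix.cons_val_zero, mul_zero]
      linear_combination e2 + e4
    | b i =>
      simp only [eq1, eq2] at e1 e2 e3 e4
      refine ⟨.y', b 3, smul_form _ _ _ (by simp [pt, e1]) ?_ ?_ (by simp [pt])⟩
      · simp only [pt, Matrix.cons_val]
        linear_combination e3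
      · simp only [pt, Matrix.cons_val]
        linear_combination e3 - e2
  | a i =>
    cases j with
    | y =>
      simp only [eq1, eq2] at e1 e2 e3 e4
      refine ⟨.a i, b 0, smul_form _ _ _ (by simp [pt]) ?_ (by simp [pt, e2])
        (by simp [pt, e4])⟩
      simp only [pt, Matrix.cons_val_one, Matrix.cons_val_zero]
      linear_combination e1
    | y' =>
      simp only [eq1, eq2] at e1 e2 e3 e4
      exact ⟨.s, b 0, smul_form _ _ _ (by simp [pt]) (by simp [pt, e3]) (by simp [pt, e2])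
        (by simp [pt, e4])⟩
    | s =>
      simp only [eq1, eq2] at e1 e2 e3 e4
      refine ⟨.y, b 3, smul_form _ _ _ (by simp [pt, e3]) ?_ (by simp [pt, e2])
        (by simp [pt])⟩
      simp only [pt, Matrix.cons_val_one, Matrix.cons_val_zero, mul_zero]
      linear_combination e4 + e2
    | a j =>
      simp only [eq1, eq2] at e1 e2 e3 e4
      have hne : i ≠ j := fun h => hij (by rw [h])
      have h0 := zero (c i - c j) (by linear_combination e3 - e1) (hcc i j hne)
      refine ⟨.y, b 3, smul_form _ _ _ (by simp [pt, h0]) ?_ (by simp [pt, e2])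
        (by simp [pt])⟩
      simp only [pt, Matrix.cons_val_one, Matrix.cons_val_zero, mul_zero]
      linear_combination e1 + c i * h0
    | b j =>
      simp only [eq1, eq2] at e1 e2 e3 e4
      have h0 := zero (c i + d j) (by linear_combination e2 - e4 - e1) (hcd i j)
      have h5 : b 1 = 0 := by linear_combination e1 + c i * h0
      refine ⟨.s, b 0, smul_form _ _ _ (by simp [pt]) (by simp [pt, h5]) (by simp [pt, e2]) ?_⟩
      simp only [pt, Matrix.cons_val]
      linear_combination h5 - e3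
  | b i =>
    cases j with
    | y =>
      simp only [eq1, eq2] at e1 e2 e3 e4
      have h0 := zero (d i) (by linear_combination e3 - e2 - e1 - e4) (hd0 i)
      refine ⟨.s, b 0, smul_form _ _ _ (by simp [pt]) ?_ (by simp [pt, e3])
        (by simp [pt, e4])⟩
      simp only [pt, Matrix.cons_val_one, Matrix.cons_val_zero, mul_zero]
      linear_combination e1 + e4
    | y' =>
      simp only [eq1, eq2] at e1 e2 e3 e4
      refine ⟨.b i, b 0, smul_form _ _ _ (by simp [pt]) (by simp [pt, e3]) ?_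
        (by simp [pt, e4])⟩
      simp only [pt, Matrix.cons_val]
      linear_combination e2 + e3
    | s =>
      simp only [eq1, eq2] at e1 e2 e3 e4
      refine ⟨.y', b 3, smul_form _ _ _ (by simp [pt, e3]) ?_ ?_ (by simp [pt])⟩
      · simp only [pt, Matrix.cons_val]
        linear_combination e1
      · simp only [pt, Matrix.cons_val]
        linear_combination e1 - e4
    | a j =>
      simp only [eq1, eq2] at e1 e2 e3 e4
      have h0 := zero (c j + d i) (by linear_combination e4 - e2 - e3) (hcd j i)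
      have h5 : b 1 = 0 := by linear_combination e3 + c j * h0
      refine ⟨.s, b 0, smul_form _ _ _ (by simp [pt]) (by simp [pt, h5]) (by simp [pt, e4]) ?_⟩
      simp only [pt, Matrix.cons_val]
      linear_combination h5 - e1
    | b j =>
      simp only [eq1, eq2] at e1 e2 e3 e4
      have hne : i ≠ j := fun h => hij (by rw [h])
      have h0 := zero (d i - d j) (by linear_combination e4 - e2) (hdd i j hne)
      refine ⟨.y', b 3, smul_form _ _ _ (by simp [pt, h0]) ?_ ?_ (by simp [pt])⟩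
      · simp only [pt, Matrix.cons_val]
        linear_combination e1
      · simp only [pt, Matrix.cons_val]
        linear_combination e2 + e1 + d i * h0

/-- different indices give non proportional points -/
theorem pt_span {c d : Fin 3 → K} (hc : Function.Injective c) (hd : Function.Injective d)
    (hc0 : ∀ i, c i ≠ 0) (hd0 : ∀ i, d i ≠ 0) (i j : Ix.{u}) (t : K)
    (h : pt c d j = t • pt c d i) : i = j := by
  have h0 := congrFun h 0
  have h1 := congrFun h 1
  have h2 := congrFun h 2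
  have h3 := congrFun h 3
  simp only [Pi.smul_apply, smul_eq_mul] at h0 h1 h2 h3
  cases i with
  | y =>
    cases j with
    | y => rfl
    | y' => simp [pt] at h1
    | s => simp [pt] at h0
    | a j => simp [pt] at h0
    | b j => simp [pt] at h0
  | y' =>
    cases j with
    | y => simp [pt] at h1 h3; rw [← h1] at h3; simp at h3
    | y' => rfl
    | s => simp [pt] at h0
    | a j => simp [pt] at h0
    | b j => simp [pt] at h0
  | s =>
    cases j with
    | y => simp [pt] at h3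
    | y' => simp [pt] at h3
    | s => rfl
    | a j => simp [pt] at h1; exact absurd h1 (hc0 j)
    | b j => simp [pt] at h2; exact absurd h2 (hd0 j)
  | a i =>
    cases j with
    | y => simp [pt] at h3
    | y' => simp [pt] at h3
    | s =>
      simp [pt] at h0 h1
      rw [← h0] at h1
      exact absurd (by simpa using h1) (hc0 i)
    | a j =>
      simp [pt] at h0 h1
      rw [← h0, one_mul] at h1
      rw [hc h1]
    | b j =>
      simp [pt] at h2
      exact absurd h2 (hd0 j)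
  | b i =>
    cases j with
    | y => simp [pt] at h3
    | y' => simp [pt] at h3
    | s =>
      simp [pt] at h0 h2
      rw [← h0] at h2
      exact absurd (by simpa using h2) (hd0 i)
    | a j =>
      simp [pt] at h1
      exact absurd h1 (hc0 j)
    | b j =>
      simp [pt] at h0 h2
      rw [← h0, one_mul] at h2
      rw [hd h2]

theorem PP_inj {c d : Fin 3 → K} (hc : Function.Injective c) (hd : Function.Injective d)
    (i j : Ix.{u}) (h : PP c d i = PP c d j) : i = j := by
  have hm : ∀ b, (eq1 c d i b = 0 ∧ eq2 c d i b = 0) ↔ (eq1 c d j b = 0 ∧ eq2 c d j b = 0) :=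
    fun b => SetLike.ext_iff.1 h b
  have t1 := hm ![0, 1, 0, 0]
  have t2 := hm ![0, 0, 1, 0]
  have t3 := hm ![0, 0, 0, 1]
  have t4 := hm ![0, 1, 1, 1]
  cases i with
  | y =>
    cases j with
    | y => rfl
    | y' => simp [eq1, eq2] at t1
    | s => simp [eq1, eq2] at t1
    | a j => simp [eq1, eq2] at t1
    | b j => simp [eq1, eq2] at t1
  | y' =>
    cases j with
    | y => simp [eq1, eq2] at t1
    | y' => rfl
    | s => simp [eq1, eq2] at t2
    | a j => simp [eq1, eq2] at t2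
    | b j => simp [eq1, eq2] at t2
  | s =>
    cases j with
    | y => simp [eq1, eq2] at t1
    | y' => simp [eq1, eq2] at t2
    | s => rfl
    | a j => simp [eq1, eq2] at t4
    | b j => simp [eq1, eq2] at t3
  | a i =>
    cases j with
    | y => simp [eq1, eq2] at t1
    | y' => simp [eq1, eq2] at t2
    | s => simp [eq1, eq2] at t4
    | a j =>
      have t5 := hm ![1, c i, 0, 0]
      simp [eq1, eq2, sub_eq_zero] at t5
      rw [hc t5]
    | b j => simp [eq1, eq2] at t3
  | b i =>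
    cases j with
    | y => simp [eq1, eq2] at t1
    | y' => simp [eq1, eq2] at t2
    | s => simp [eq1, eq2] at t3
    | a j => simp [eq1, eq2] at t3
    | b j =>
      have t5 := hm ![1, 0, d i, 0]
      simp [eq1, eq2, sub_eq_zero] at t5
      rw [hd t5]

section main

variable {c d : Fin 3 → K}

theorem crel_mem (hc : Function.Injective c) (hd : Function.Injective d)
    (hc0 : ∀ i, c i ≠ 0) (hd0 : ∀ i, d i ≠ 0) (k : Ix.{u}) (t : K) (ht : t ≠ 0) (v : Fin 4 → K)
    (h : crel (pt c d : Ix.{u} → (Fin 4 → K)) (PP c d) (t • pt c d k) v) : v ∈ PP c d k := by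
  rcases h with h | h | ⟨i, ⟨h1, h2⟩ | ⟨h1, h2⟩⟩
  · rcases smul_eq_zero.1 h with h | h
    · exact absurd h ht
    · exact absurd h (pt_ne c d k)
  · rw [h]
    exact Submodule.zero_mem _
  · obtain ⟨r, hr⟩ := Submodule.mem_span_singleton.1 h1
    have h3 : pt c d k = (t⁻¹ * r) • pt c d i := by
      rw [mul_smul, hr, smul_smul, inv_mul_cancel₀ ht, one_smul]
    have h4 := pt_span hc hd hc0 hd0 i k _ h3
    rw [← h4]
    exact h2
  · obtain ⟨r, rfl⟩ := Submodule.mem_span_singleton.1 h1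
    have h3 : pt c d k ∈ PP c d i := by
      have := Submodule.smul_mem _ t⁻¹ h2
      rwa [smul_smul, inv_mul_cancel₀ ht, one_smul] at this
    exact Submodule.smul_mem _ _ (pt_symm hc0 hd0 k i h3)

theorem good_y (hc : Function.Injective c) (hc0 : ∀ i, c i ≠ 0) :
    Good (crel (pt c d : Ix.{u} → (Fin 4 → K)) (PP c d)) (pt c d .s ⊗ₜ[K] pt c d .s)
      {pt c d .y} := by
  obtain ⟨l, h1, h2, h3⟩ := lagrange (c 0) (c 1) (c 2) (hc0 0) (hc0 1) (hc0 2)
    (fun h => absurd (hc h) (by decide)) (fun h => absurd (hc h) (by decide))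
    (fun h => absurd (hc h) (by decide))
  have hp : ∀ j, pt c d (.s : Ix.{u}) + c j • ![0, 1, 0, 0] = pt c d (.a j : Ix.{u}) := by
    intro j
    simp [pt]
  have hself : ∀ j, pt c d (.a j : Ix.{u}) ∈ PP c d (.a j : Ix.{u}) := by
    intro j
    rw [mem_PP]
    simp [pt, eq1, eq2]
  have hy : ∀ j, pt c d (.a j : Ix.{u}) ∈ PP c d (.y : Ix.{u}) := by
    intro j
    rw [mem_PP]
    simp [pt, eq1, eq2]
  refine ⟨3, fun j => l j • (pt c d (.s : Ix.{u}) + c j • ![0, 1, 0, 0]),
    fun j => pt c d (.s : Ix.{u}) + c j • ![0, 1, 0, 0], ?_, tensor_lag _ _ l c h1 h2 h3, ?_⟩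
  · intro j
    simp only [hp]
    exact Or.inr (Or.inr ⟨.a j, Or.inl ⟨Submodule.smul_mem _ _
      (Submodule.mem_span_singleton_self _), hself j⟩⟩)
  · intro z hz j
    rw [Set.mem_singleton_iff] at hz
    subst hz
    simp only [hp]
    exact ⟨Or.inr (Or.inr ⟨.y, Or.inl ⟨Submodule.mem_span_singleton_self _,
      Submodule.smul_mem _ _ (hy j)⟩⟩), Or.inr (Or.inr ⟨.y, Or.inl
      ⟨Submodule.mem_span_singleton_self _, hy j⟩⟩)⟩

theorem good_y' (hd : Function.Injective d) (hd0 : ∀ i, d i ≠ 0) :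
    Good (crel (pt c d : Ix.{u} → (Fin 4 → K)) (PP c d)) (pt c d .s ⊗ₜ[K] pt c d .s)
      {pt c d .y'} := by
  obtain ⟨l, h1, h2, h3⟩ := lagrange (d 0) (d 1) (d 2) (hd0 0) (hd0 1) (hd0 2)
    (fun h => absurd (hd h) (by decide)) (fun h => absurd (hd h) (by decide))
    (fun h => absurd (hd h) (by decide))
  have hp : ∀ j, pt c d (.s : Ix.{u}) + d j • ![0, 0, 1, 0] = pt c d (.b j : Ix.{u}) := by
    intro j
    simp [pt]
  have hself : ∀ j, pt c d (.b j : Ix.{u}) ∈ PP c d (.b j : Ix.{u}) := by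
    intro j
    rw [mem_PP]
    simp [pt, eq1, eq2]
  have hy : ∀ j, pt c d (.b j : Ix.{u}) ∈ PP c d (.y' : Ix.{u}) := by
    intro j
    rw [mem_PP]
    simp [pt, eq1, eq2]
  refine ⟨3, fun j => l j • (pt c d (.s : Ix.{u}) + d j • ![0, 0, 1, 0]),
    fun j => pt c d (.s : Ix.{u}) + d j • ![0, 0, 1, 0], ?_, tensor_lag _ _ l d h1 h2 h3, ?_⟩
  · intro j
    simp only [hp]
    exact Or.inr (Or.inr ⟨.b j, Or.inl ⟨Submodule.smul_mem _ _
      (Submodule.mem_span_singleton_self _), hself j⟩⟩)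
  · intro z hz j
    rw [Set.mem_singleton_iff] at hz
    subst hz
    simp only [hp]
    exact ⟨Or.inr (Or.inr ⟨.y', Or.inl ⟨Submodule.mem_span_singleton_self _,
      Submodule.smul_mem _ _ (hy j)⟩⟩), Or.inr (Or.inr ⟨.y', Or.inl
      ⟨Submodule.mem_span_singleton_self _, hy j⟩⟩)⟩

theorem form_s (v : Fin 4 → K) (h1 : v ∈ PP c d (.y : Ix.{u})) (h2 : v ∈ PP c d (.y' : Ix.{u})) :
    v = v 0 • pt c d (.s : Ix.{u}) := by
  obtain ⟨e1, e2⟩ := h1
  obtain ⟨e3, e4⟩ := h2
  simp only [eq1, eq2] at e1 e2 e3 e4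
  exact smul_form _ _ _ (by simp [pt]) (by simp [pt, e3]) (by simp [pt, e1]) (by simp [pt, e2])

theorem not_good (hc : Function.Injective c) (hd : Function.Injective d)
    (hc0 : ∀ i, c i ≠ 0) (hd0 : ∀ i, d i ≠ 0)
    (hsym : ∀ x y, crel (pt c d : Ix.{u} → (Fin 4 → K)) (PP c d) x y →
      crel (pt c d : Ix.{u} → (Fin 4 → K)) (PP c d) y x) :
    ¬ Good (crel (pt c d : Ix.{u} → (Fin 4 → K)) (PP c d)) (pt c d .s ⊗ₜ[K] pt c d .s)
      {pt c d .y, pt c d .y'} := by
  rintro ⟨n, v, w, h1, h2, h3⟩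
  have hy : ∀ x : Fin 4 → K, crel (pt c d : Ix.{u} → (Fin 4 → K)) (PP c d) (pt c d .y) x →
      crel (pt c d : Ix.{u} → (Fin 4 → K)) (PP c d) (pt c d .y') x →
      x = x 0 • pt c d (.s : Ix.{u}) := by
    intro x hx hx'
    apply form_s
    · exact crel_mem hc hd hc0 hd0 .y 1 one_ne_zero x (by rwa [one_smul])
    · exact crel_mem hc hd hc0 hd0 .y' 1 one_ne_zero x (by rwa [one_smul])
  have hz : ∀ j, v j 0 * w j 0 = 0 := by
    intro j
    have a1 := h3 _ (Set.mem_insert _ _) j
    have a2 := h3 _ (Set.mem_insert_of_mem _ (Set.mem_singleton _)) j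
    have hv := hy (v j) a1.1 a2.1
    have hw := hy (w j) a1.2 a2.2
    by_contra hne
    have hv0 : v j 0 ≠ 0 := fun h => hne (by rw [h, zero_mul])
    have hr := h1 j
    rw [hv] at hr
    have h4 := crel_mem hc hd hc0 hd0 .s (v j 0) hv0 (w j) hr
    obtain ⟨e1, _⟩ := h4
    simp only [eq1] at e1
    exact hne (by rw [e1, mul_zero])
  have h5 := congrArg (LinearMap.mul' K K ∘ₗ TensorProduct.map
    (LinearMap.proj (R := K) (φ := fun _ : Fin 4 => K) 0)
    (LinearMap.proj (R := K) (φ := fun _ : Fin 4 => K) 0)) h2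
  simp only [map_sum, LinearMap.comp_apply, TensorProduct.map_tmul, LinearMap.proj_apply,
    LinearMap.mul'_apply, hz, Finset.sum_const_zero] at h5
  simp [pt] at h5

end main

end N4

/-- a seed of dimension four -/
theorem n4 (hC : S_CONF.{u}) : S_N4.{u} := by
  intro K _ c hc hc0
  set a : Fin 3 → K := fun i => c (Fin.castAdd 3 i) with ha
  set d : Fin 3 → K := fun i => -c (Fin.natAdd 3 i) with hd
  have hai : Function.Injective a := fun i j h => Fin.castAdd_injective 3 3 (hc h)
  have hdi : Function.Injective d := fun i j h => Fin.natAdd_injective 3 3 (hc (neg_injective h))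
  have ha0 : ∀ i, a i ≠ 0 := fun i => hc0 _
  have hd0 : ∀ i, d i ≠ 0 := fun i => neg_ne_zero.2 (hc0 _)
  have had : ∀ i j, a i + d j ≠ 0 := by
    intro i j h
    have h1 : c (Fin.castAdd 3 i) = c (Fin.natAdd 3 j) := by
      rw [ha, hd] at h
      simp only at h
      linear_combination h
    have h2 := congrArg Fin.val (hc h1)
    simp only [Fin.val_castAdd, Fin.val_natAdd] at h2
    omega
  have hloc : IsLocalitySpace K (crel (N4.pt a d : N4.Ix.{u} → (Fin 4 → K)) (N4.PP a d)) := by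
    apply hC K (Fin 4 → K) N4.Ix.{u} (N4.pt a d) (N4.PP a d) (N4.pt_ne a d)
    · exact N4.pt_symm ha0 hd0
    · intro i j hij b h1 h2 _
      obtain ⟨k, t, rfl⟩ := N4.inter hai hdi ha0 hd0 had i j (fun h => hij (by rw [h])) b h1 h2
      exact ⟨k, Submodule.smul_mem _ _ (Submodule.mem_span_singleton_self _)⟩
    · intro i j
      constructor
      · intro h
        obtain ⟨t, ht⟩ := Submodule.mem_span_singleton.1 h
        rw [N4.pt_span hai hdi ha0 hd0 i j t ht.symm]
      · intro h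
        rw [N4.PP_inj hai hdi i j h]
        exact Submodule.mem_span_singleton_self _
  exact ⟨_, _, _, _, hloc, N4.good_y hai ha0, N4.good_y' hdi hd0,
    N4.not_good hai hdi ha0 hd0 hloc.1⟩

end Pool.Agent.Y266.LT
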