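import Pool.Agent.Y266.LT.Stm

/-!
# In dimension at most three locality tensor products are locality vector spaces
-/

set_option autoImplicit false

open scoped TensorProduct

universe u v

namespace Pool.Agent.Y266.LT

open Pool.Agent.Results.MP_16c542_al.NotLocality Module

namespace Pos

section

variable {K : Type u} [Field K] {E : Type v} [AddCommGroup E] [Module K E] {r : E → E → Prop}

/-- the polar as a submodule -/
noncomputable def plr (hr : IsLocalitySpace K r) (S : Set E) : Submodule K E :=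
  (hr.2 S).choose

theorem mem_plr (hr : IsLocalitySpace K r) {S : Set E} {x : E} :
    x ∈ plr hr S ↔ ∀ y ∈ S, r x y := by
  have h : ((plr hr S : Submodule K E) : Set E) = polar r S := (hr.2 S).choose_spec
  rw [← SetLike.mem_coe, h]
  rfl

theorem r_iff (hr : IsLocalitySpace K r) {x y : E} : r x y ↔ x ∈ plr hr {y} := by
  rw [mem_plr]
  exact ⟨fun h z hz => by rw [Set.mem_singleton_iff.1 hz]; exact h, fun h => h y rfl⟩

theorem r_iff' (hr : IsLocalitySpace K r) {x y : E} : r x y ↔ y ∈ plr hr {x} := by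
  rw [← r_iff hr]
  exact ⟨hr.1 x y, hr.1 y x⟩

theorem mem_plr_span (hr : IsLocalitySpace K r) {S : Set E} {x : E} (h : ∀ y ∈ S, r x y) :
    x ∈ plr hr (Submodule.span K S : Submodule K E) := by
  rw [mem_plr]
  have h1 : Submodule.span K S ≤ plr hr {x} := by
    rw [Submodule.span_le]
    intro y hy
    exact (r_iff' hr).1 (h y hy)
  intro y hy
  exact (r_iff' hr).2 (h1 hy)

theorem plr_anti (hr : IsLocalitySpace K r) {S T : Set E} (h : S ⊆ T) :
    plr hr T ≤ plr hr S := by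
  intro x hx
  rw [mem_plr] at hx ⊢
  exact fun y hy => hx y (h hy)

theorem loc_mono {V W V' W' : Submodule K E} (h1 : V ≤ V') (h2 : W ≤ W') :
    LocTensor r V W ≤ LocTensor r V' W' := by
  apply Submodule.span_mono
  rintro t ⟨v, hv, w, hw, h, rfl⟩
  exact ⟨v, h1 hv, w, h2 hw, h, rfl⟩

theorem loc_anti (hr : IsLocalitySpace K r) {V W : Submodule K E} {S T : Set E} (h : S ⊆ T) :
    LocTensor r (V ⊓ plr hr T) (W ⊓ plr hr T) ≤ LocTensor r (V ⊓ plr hr S) (W ⊓ plr hr S) :=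
  loc_mono (inf_le_inf_left _ (plr_anti hr h)) (inf_le_inf_left _ (plr_anti hr h))

theorem exists_decomp (hr : IsLocalitySpace K r) {V W : Submodule K E} {X : E ⊗[K] E}
    (hX : X ∈ LocTensor r V W) : ∃ (n : ℕ) (v w : Fin n → E), IsDecomp r V W X v w := by
  induction hX using Submodule.span_induction with
  | mem x hx =>
    obtain ⟨v, hv, w, hw, h, rfl⟩ := hx
    exact ⟨1, fun _ => v, fun _ => w, fun _ => ⟨hv, hw, h⟩, by simp⟩
  | zero => exact ⟨0, Fin.elim0, Fin.elim0, fun i => i.elim0, by simp⟩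
  | add x y _ _ hx hy =>
    obtain ⟨m, v, w, h1, h2⟩ := hx
    obtain ⟨n, v', w', h3, h4⟩ := hy
    refine ⟨m + n, Fin.append v v', Fin.append w w', ?_, ?_⟩
    · intro i
      refine Fin.addCases (fun j => ?_) (fun j => ?_) i
      · rw [Fin.append_left, Fin.append_left]
        exact h1 j
      · rw [Fin.append_right, Fin.append_right]
        exact h3 j
    · rw [Fin.sum_univ_add, h2, h4]
      congr 1
      · exact Finset.sum_congr rfl fun j _ => by rw [Fin.append_left, Fin.append_left]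
      · exact Finset.sum_congr rfl fun j _ => by rw [Fin.append_right, Fin.append_right]
  | smul c x _ hx =>
    obtain ⟨m, v, w, h1, h2⟩ := hx
    refine ⟨m, fun i => c • v i, w, fun i => ⟨V.smul_mem c (h1 i).1, (h1 i).2.1, ?_⟩, ?_⟩
    · exact (r_iff hr).2 (Submodule.smul_mem _ c ((r_iff hr).1 (h1 i).2.2))
    · rw [h2, Finset.smul_sum]
      rfl

theorem rel_iff (hr : IsLocalitySpace K r) {V W : Submodule K E} (X Y : LocTensor r V W) :
    TensorRel r V W X Y ↔ ∃ U : Submodule K E,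
      (X : E ⊗[K] E) ∈ LocTensor r (V ⊓ plr hr U) (W ⊓ plr hr U) ∧
      (Y : E ⊗[K] E) ∈ LocTensor r (V ⊓ U) (W ⊓ U) := by
  constructor
  · rintro ⟨m, n, v, w, v', w', ⟨h1, h2⟩, ⟨h3, h4⟩, h5⟩
    refine ⟨Submodule.span K (Set.range v' ∪ Set.range w'), ?_, ?_⟩
    · rw [h2]
      refine Submodule.sum_mem _ fun i _ => Submodule.subset_span ⟨v i, ⟨(h1 i).1, ?_⟩, w i,
        ⟨(h1 i).2.1, ?_⟩, (h1 i).2.2, rfl⟩
      · apply mem_plr_span
        rintro y (⟨j, rfl⟩ | ⟨j, rfl⟩)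
        · exact (h5 i j).1
        · exact (h5 i j).2.1
      · apply mem_plr_span
        rintro y (⟨j, rfl⟩ | ⟨j, rfl⟩)
        · exact (h5 i j).2.2.1
        · exact (h5 i j).2.2.2
    · rw [h4]
      refine Submodule.sum_mem _ fun j _ => Submodule.subset_span ⟨v' j, ⟨(h3 j).1, ?_⟩, w' j,
        ⟨(h3 j).2.1, ?_⟩, (h3 j).2.2, rfl⟩
      · exact Submodule.subset_span (Or.inl ⟨j, rfl⟩)
      · exact Submodule.subset_span (Or.inr ⟨j, rfl⟩)
  · rintro ⟨U, hX, hY⟩
    obtain ⟨m, v, w, h1, h2⟩ := exists_decomp hr hX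
    obtain ⟨n, v', w', h3, h4⟩ := exists_decomp hr hY
    refine ⟨m, n, v, w, v', w', ⟨fun i => ⟨(h1 i).1.1, (h1 i).2.1.1, (h1 i).2.2⟩, h2⟩,
      ⟨fun i => ⟨(h3 i).1.1, (h3 i).2.1.1, (h3 i).2.2⟩, h4⟩, fun i j => ?_⟩
    have h5 := (mem_plr hr).1 (h1 i).1.2
    have h6 := (mem_plr hr).1 (h1 i).2.1.2
    exact ⟨h5 _ (h3 j).1.2, h5 _ (h3 j).2.1.2, h6 _ (h3 j).1.2, h6 _ (h3 j).2.1.2⟩

/-- contraction on the left -/
noncomputable def cl (f : E →ₗ[K] K) : E ⊗[K] E →ₗ[K] E :=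
  (TensorProduct.lid K E).toLinearMap ∘ₗ LinearMap.rTensor E f

theorem cl_tmul (f : E →ₗ[K] K) (x y : E) : cl f (x ⊗ₜ[K] y) = f x • y := by
  simp [cl]

/-- contraction on the right -/
noncomputable def cr (f : E →ₗ[K] K) : E ⊗[K] E →ₗ[K] E :=
  (TensorProduct.rid K E).toLinearMap ∘ₗ LinearMap.lTensor E f

theorem cr_tmul (f : E →ₗ[K] K) (x y : E) : cr f (x ⊗ₜ[K] y) = f y • x := by
  simp [cr]

theorem cl_loc {V W : Submodule K E} {Y : E ⊗[K] E} (hY : Y ∈ LocTensor r V W) (f : E →ₗ[K] K) :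
    cl f Y ∈ W := by
  have h : LocTensor r V W ≤ W.comap (cl f) := by
    refine Submodule.span_le.2 ?_
    rintro t ⟨v, _, w, hw, _, rfl⟩
    show cl f (v ⊗ₜ[K] w) ∈ W
    rw [cl_tmul]
    exact W.smul_mem _ hw
  exact h hY

theorem cr_loc {V W : Submodule K E} {Y : E ⊗[K] E} (hY : Y ∈ LocTensor r V W) (f : E →ₗ[K] K) :
    cr f Y ∈ V := by
  have h : LocTensor r V W ≤ V.comap (cr f) := by
    refine Submodule.span_le.2 ?_
    rintro t ⟨v, hv, w, _, _, rfl⟩
    show cr f (v ⊗ₜ[K] w) ∈ V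
    rw [cr_tmul]
    exact V.smul_mem _ hv
  exact h hY

theorem expand [FiniteDimensional K E] (Y : E ⊗[K] E) :
    Y = ∑ i, finBasis K E i ⊗ₜ[K] cl ((finBasis K E).coord i) Y := by
  induction Y using TensorProduct.induction_on with
  | zero => simp
  | tmul x y =>
    conv_lhs => rw [← (finBasis K E).sum_repr x, TensorProduct.sum_tmul]
    refine Finset.sum_congr rfl fun i _ => ?_
    rw [cl_tmul, Basis.coord_apply, TensorProduct.smul_tmul]
  | add x y hx hy =>
    conv_lhs => rw [hx, hy, ← Finset.sum_add_distrib]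
    refine Finset.sum_congr rfl fun i _ => ?_
    rw [map_add, TensorProduct.tmul_add]

theorem rank_one [FiniteDimensional K E] {N : Submodule K E} (hN : finrank K N ≤ 1)
    {Y : E ⊗[K] E} (h1 : ∀ f : E →ₗ[K] K, cl f Y ∈ N) (h2 : ∀ f : E →ₗ[K] K, cr f Y ∈ N) :
    Y = 0 ∨ ∃ s ∈ N, ∃ c : K, s ≠ 0 ∧ c ≠ 0 ∧ Y = c • (s ⊗ₜ[K] s) := by
  obtain ⟨⟨s, hs⟩, hg⟩ := finrank_le_one_iff.1 hN
  have hg' : ∀ x ∈ N, ∃ c : K, x = c • s := by
    intro x hx
    obtain ⟨c, hc⟩ := hg ⟨x, hx⟩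
    exact ⟨c, (congrArg Subtype.val hc).symm⟩
  choose t ht using fun i => hg' _ (h1 ((finBasis K E).coord i))
  have h3 : Y = (∑ i, t i • finBasis K E i) ⊗ₜ[K] s := by
    conv_lhs => rw [expand Y]
    rw [TensorProduct.sum_tmul]
    refine Finset.sum_congr rfl fun i _ => ?_
    rw [ht i, TensorProduct.smul_tmul]
  by_cases hs0 : s = 0
  · left
    rw [h3, hs0, TensorProduct.tmul_zero]
  · have hb : s ∉ (⊥ : Submodule K E) := hs0
    obtain ⟨f, hf, -⟩ := Submodule.exists_le_ker_of_notMem hb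
    have h4 := h2 f
    rw [h3, cr_tmul] at h4
    have h5 : (∑ i, t i • finBasis K E i) ∈ N := by
      have := N.smul_mem (f s)⁻¹ h4
      rwa [smul_smul, inv_mul_cancel₀ hf, one_smul] at this
    obtain ⟨c, hc⟩ := hg' _ h5
    rw [hc] at h3
    by_cases hc0 : c = 0
    · left
      rw [h3, hc0, zero_smul, TensorProduct.zero_tmul]
    · right
      exact ⟨s, hs, c, hs0, hc0, by rw [h3, TensorProduct.smul_tmul']⟩

theorem claimA (hr : IsLocalitySpace K r) [FiniteDimensional K E] {V W U : Submodule K E}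
    (hU : finrank K U ≤ 2) {Y : E ⊗[K] E} (hY : Y ∈ LocTensor r (V ⊓ U) (W ⊓ U)) {s : E} {c : K}
    (hs : s ∈ U) (hc : c ≠ 0) (hYs : Y = c • (s ⊗ₜ[K] s)) (hrs : ¬ r s s) {x : E} (hx : x ∈ U)
    (hxU : ∀ u ∈ U, r x u) : x = 0 := by
  by_contra hx0
  have hns : s ∉ Submodule.span K {x} := by
    intro h
    obtain ⟨a, rfl⟩ := Submodule.mem_span_singleton.1 h
    apply hrs
    exact (r_iff hr).2 (Submodule.smul_mem _ a ((r_iff hr).1 (hxU _ hs)))
  obtain ⟨f, hf, hfk⟩ := Submodule.exists_le_ker_of_notMem hns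
  have hfx : f x = 0 := hfk (Submodule.mem_span_singleton_self x)
  have hs0 : s ≠ 0 := fun h => hns (h ▸ Submodule.zero_mem _)
  have hUe : ∀ y ∈ U, ∃ a b : K, y = a • s + b • x := by
    have hle : Submodule.span K {x, s} ≤ U := by
      rw [Submodule.span_le]
      rintro y (rfl | rfl)
      · exact hx
      · exact hs
    have h1 : finrank K (Submodule.span K {x, s}) = 2 := by
      have hli : LinearIndependent K ![x, s] := by
        rw [LinearIndependent.pair_iff]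
        intro a b hab
        have hb : b = 0 := by
          have := congrArg f hab
          rw [map_add, map_smul, map_smul, hfx, smul_zero, zero_add, map_zero, smul_eq_mul] at this
          exact (mul_eq_zero.1 this).resolve_right hf
        rw [hb, zero_smul, add_zero] at hab
        exact ⟨(smul_eq_zero.1 hab).resolve_right hx0, hb⟩
      have h2 := finrank_span_eq_card hli
      rw [Fintype.card_fin] at h2
      have h3 : Set.range ![x, s] = {x, s} := by
        simp only [Matrix.range_cons, Matrix.range_empty, Set.union_empty, Set.singleton_union]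
      rwa [h3] at h2
    have h2 : Submodule.span K {x, s} = U :=
      Submodule.eq_of_le_of_finrank_le hle (by rw [h1]; exact hU)
    intro y hy
    rw [← h2, Submodule.mem_span_pair] at hy
    obtain ⟨b, a, rfl⟩ := hy
    exact ⟨a, b, add_comm _ _⟩
  -- the functional `f ⊗ f` kills `Y`
  have hk : LocTensor r (V ⊓ U) (W ⊓ U) ≤ LinearMap.ker (f ∘ₗ cl f) := by
    refine Submodule.span_le.2 ?_
    rintro t ⟨v, hv, w, hw, hvw, rfl⟩
    show f (cl f (v ⊗ₜ[K] w)) = 0
    rw [cl_tmul, map_smul, smul_eq_mul]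
    obtain ⟨a, b, rfl⟩ := hUe v hv.2
    obtain ⟨g, d, rfl⟩ := hUe w hw.2
    rw [map_add, map_smul, map_smul, hfx, smul_zero, add_zero, map_add, map_smul, map_smul, hfx,
      smul_zero, add_zero, smul_eq_mul, smul_eq_mul]
    by_contra hne
    have ha : a ≠ 0 := by
      rintro rfl
      apply hne
      ring
    have hg : g ≠ 0 := by
      rintro rfl
      apply hne
      ring
    have h1 : r (a • s) (g • s + d • x) := by
      have h2 : r (b • x) (g • s + d • x) :=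
        (r_iff hr).2 (Submodule.smul_mem _ b ((r_iff hr).1 (hxU _ hw.2)))
      have h3 := Submodule.sub_mem _ ((r_iff hr).1 hvw) ((r_iff hr).1 h2)
      rw [add_sub_cancel_right] at h3
      exact (r_iff hr).2 h3
    have h4 : r (a • s) (g • s) := by
      have h5 : r (a • s) (d • x) := by
        apply hr.1
        exact (r_iff hr).2 (Submodule.smul_mem _ d ((r_iff hr).1 (hxU _ (U.smul_mem a hs))))
      have h6 := Submodule.sub_mem _ ((r_iff' hr).1 h1) ((r_iff' hr).1 h5)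
      rw [add_sub_cancel_right] at h6
      exact (r_iff' hr).2 h6
    have h7 : r s (g • s) := by
      have := Submodule.smul_mem _ a⁻¹ ((r_iff hr).1 h4)
      rw [smul_smul, inv_mul_cancel₀ ha, one_smul] at this
      exact (r_iff hr).2 this
    have h8 : r s s := by
      have := Submodule.smul_mem _ g⁻¹ ((r_iff' hr).1 h7)
      rw [smul_smul, inv_mul_cancel₀ hg, one_smul] at this
      exact (r_iff' hr).2 this
    exact hrs h8
  have h9 : f (cl f Y) = 0 := hk hY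
  rw [hYs, map_smul, cl_tmul, map_smul, map_smul, smul_eq_mul, smul_eq_mul] at h9
  exact (mul_ne_zero hc (mul_ne_zero hf hf)) h9

theorem key (hr : IsLocalitySpace K r) [FiniteDimensional K E] (hE : finrank K E ≤ 3)
    {V W U₁ U₂ : Submodule K E} {X₁ X₂ Y : E ⊗[K] E}
    (hX₁ : X₁ ∈ LocTensor r (V ⊓ plr hr U₁) (W ⊓ plr hr U₁))
    (hX₂ : X₂ ∈ LocTensor r (V ⊓ plr hr U₂) (W ⊓ plr hr U₂))
    (hY₁ : Y ∈ LocTensor r (V ⊓ U₁) (W ⊓ U₁)) (hY₂ : Y ∈ LocTensor r (V ⊓ U₂) (W ⊓ U₂)) :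
    ∃ U : Submodule K E, X₁ ∈ LocTensor r (V ⊓ plr hr U) (W ⊓ plr hr U) ∧
      X₂ ∈ LocTensor r (V ⊓ plr hr U) (W ⊓ plr hr U) ∧ Y ∈ LocTensor r (V ⊓ U) (W ⊓ U) := by
  by_cases h12 : U₁ ≤ U₂
  · exact ⟨U₁, hX₁, loc_anti hr h12 hX₂, hY₁⟩
  by_cases h21 : U₂ ≤ U₁
  · exact ⟨U₂, loc_anti hr h21 hX₁, hX₂, hY₂⟩
  have hU₁t : U₁ ≠ ⊤ := fun h => h21 (h ▸ le_top)
  have hU₁ : finrank K U₁ ≤ 2 := by
    have := Submodule.finrank_lt hU₁t
    omega
  have hlt : U₁ ⊓ U₂ < U₁ := lt_of_le_of_ne inf_le_left fun h => h12 (h ▸ inf_le_right)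
  have hN : finrank K (U₁ ⊓ U₂ : Submodule K E) ≤ 1 := by
    have := Submodule.finrank_lt_finrank_of_lt hlt
    omega
  rcases rank_one hN (Y := Y) (fun f => ⟨(cl_loc hY₁ f).2, (cl_loc hY₂ f).2⟩)
    (fun f => ⟨(cr_loc hY₁ f).2, (cr_loc hY₂ f).2⟩) with h0 | ⟨s, hsN, c, hs0, hc0, hYs⟩
  · refine ⟨⊥, loc_anti hr ?_ hX₁, loc_anti hr ?_ hX₂, ?_⟩
    · exact fun x hx => (bot_le : ⊥ ≤ U₁) hx
    · exact fun x hx => (bot_le : ⊥ ≤ U₂) hx
    · rw [h0]
      exact Submodule.zero_mem _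
  have hb : s ∉ (⊥ : Submodule K E) := hs0
  obtain ⟨f, hf, -⟩ := Submodule.exists_le_ker_of_notMem hb
  have hsV : s ∈ V := by
    have h1 := (cr_loc hY₁ f).1
    rw [hYs, map_smul, cr_tmul, smul_smul] at h1
    have := V.smul_mem (c * f s)⁻¹ h1
    rwa [smul_smul, inv_mul_cancel₀ (mul_ne_zero hc0 hf), one_smul] at this
  have hsW : s ∈ W := by
    have h1 := (cl_loc hY₁ f).1
    rw [hYs, map_smul, cl_tmul, smul_smul] at h1
    have := W.smul_mem (c * f s)⁻¹ h1
    rwa [smul_smul, inv_mul_cancel₀ (mul_ne_zero hc0 hf), one_smul] at this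
  by_cases hrs : r s s
  · have hle : ∀ U : Submodule K E, s ∈ U → (Submodule.span K {s} : Submodule K E) ≤ U :=
      fun U h => (Submodule.span_singleton_le_iff_mem s U).2 h
    refine ⟨Submodule.span K {s}, loc_anti hr (hle U₁ hsN.1) hX₁,
      loc_anti hr (hle U₂ hsN.2) hX₂, ?_⟩
    rw [hYs]
    have hss := Submodule.mem_span_singleton_self (R := K) s
    exact Submodule.smul_mem _ c
      (Submodule.subset_span ⟨s, ⟨hsV, hss⟩, s, ⟨hsW, hss⟩, hrs, rfl⟩)
  -- the remaining case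
  have hA : ∀ x ∈ U₁, (∀ u ∈ U₁, r x u) → x = 0 := fun x hx hxU =>
    claimA hr hU₁ hY₁ hsN.1 hc0 hYs hrs hx hxU
  have hdim : 2 ≤ finrank K U₁ := by
    have h1 : 0 < finrank K (U₁ ⊓ U₂ : Submodule K E) := by
      apply Nat.pos_of_ne_zero
      intro h
      rw [Submodule.finrank_eq_zero] at h
      rw [h] at hsN
      exact hs0 hsN
    have := Submodule.finrank_lt_finrank_of_lt hlt
    omega
  have hdis : Disjoint U₁ (plr hr (U₁ : Set E)) := by
    rw [Submodule.disjoint_def]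
    intro x hx hx'
    exact hA x hx ((mem_plr hr).1 hx')
  have hP : finrank K (plr hr (U₁ : Set E)) ≤ 1 := by
    have := Submodule.finrank_add_finrank_le_of_disjoint hdis
    omega
  obtain ⟨⟨p, hp⟩, hg⟩ := finrank_le_one_iff.1 hP
  have hg' : ∀ x ∈ plr hr (U₁ : Set E), ∃ a : K, x = a • p := by
    intro x hx
    obtain ⟨a, ha⟩ := hg ⟨x, hx⟩
    exact ⟨a, (congrArg Subtype.val ha).symm⟩
  have hT : ∀ q ∈ plr hr (U₁ : Set E), q ≠ 0 → r q q → ∀ y, r q y := by
    intro q hq hq0 hqq y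
    have h1 : U₁ ⊔ Submodule.span K {q} ≤ plr hr {q} := by
      rw [sup_le_iff, Submodule.span_singleton_le_iff_mem]
      exact ⟨fun u hu => (r_iff' hr).1 ((mem_plr hr).1 hq u hu), (r_iff hr).1 hqq⟩
    have h2 : U₁ ⊔ Submodule.span K {q} = ⊤ := by
      apply Submodule.eq_top_of_disjoint
      · rw [finrank_span_singleton hq0]
        omega
      · refine hdis.mono_right ?_
        rw [Submodule.span_singleton_le_iff_mem]
        exact hq
    rw [h2] at h1
    exact (r_iff' hr).2 (h1 trivial)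
  have hfin : LocTensor r (V ⊓ plr hr (U₁ : Set E)) (W ⊓ plr hr (U₁ : Set E)) ≤
      LocTensor r (V ⊓ plr hr (U₂ : Set E)) (W ⊓ plr hr (U₂ : Set E)) := by
    refine Submodule.span_le.2 ?_
    rintro t ⟨v, hv, w, hw, hvw, rfl⟩
    by_cases hv0 : v = 0
    · rw [hv0, TensorProduct.zero_tmul]
      exact Submodule.zero_mem _
    by_cases hw0 : w = 0
    · rw [hw0, TensorProduct.tmul_zero]
      exact Submodule.zero_mem _
    obtain ⟨a, ha⟩ := hg' v hv.2
    obtain ⟨b, hb⟩ := hg' w hw.2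
    have ha0 : a ≠ 0 := fun h => hv0 (by rw [ha, h, zero_smul])
    have hb0 : b ≠ 0 := fun h => hw0 (by rw [hb, h, zero_smul])
    have hp0 : p ≠ 0 := fun h => hv0 (by rw [ha, h, smul_zero])
    have hpp : r p p := by
      have h1 : r (a • p) (b • p) := by rw [← ha, ← hb]; exact hvw
      have h2 := Submodule.smul_mem _ a⁻¹ ((r_iff hr).1 h1)
      rw [smul_smul, inv_mul_cancel₀ ha0, one_smul] at h2
      have h3 := Submodule.smul_mem _ b⁻¹ ((r_iff' hr).1 ((r_iff hr).2 h2))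
      rw [smul_smul, inv_mul_cancel₀ hb0, one_smul] at h3
      exact (r_iff' hr).2 h3
    have hall := hT p hp hp0 hpp
    have hpU : p ∈ plr hr (U₂ : Set E) := (mem_plr hr).2 fun y _ => hall y
    refine Submodule.subset_span ⟨v, ⟨hv.1, ?_⟩, w, ⟨hw.1, ?_⟩, hvw, rfl⟩
    · rw [ha]
      exact Submodule.smul_mem _ a hpU
    · rw [hb]
      exact Submodule.smul_mem _ b hpU
  exact ⟨U₂, hfin hX₁, hX₂, hY₂⟩

end

end Pos

open Pos in
theorem pos : S_POS.{u, v} := by
  intro K _ E _ _ r hrk hr V W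
  have hfd : FiniteDimensional K E := by
    show Module.Finite K E
    rw [← rank_lt_aleph0_iff]
    exact hrk.trans_lt (by exact_mod_cast (Cardinal.natCast_lt_aleph0 (n := 3)))
  have hE : finrank K E ≤ 3 := by
    have h : ((finrank K E : ℕ) : Cardinal) ≤ ((3 : ℕ) : Cardinal) := by
      rw [finrank_eq_rank]
      exact_mod_cast hrk
    exact_mod_cast h
  refine ⟨?_, ?_⟩
  · rintro X Y ⟨m, n, v, w, v', w', h1, h2, h3⟩
    exact ⟨n, m, v', w', v, w, h2, h1, fun i j => ⟨hr.1 _ _ (h3 j i).1, hr.1 _ _ (h3 j i).2.2.1,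
      hr.1 _ _ (h3 j i).2.1, hr.1 _ _ (h3 j i).2.2.2⟩⟩
  · intro S
    refine ⟨{ carrier := polar (TensorRel r V W) S
              zero_mem' := ?_
              add_mem' := ?_
              smul_mem' := ?_ }, rfl⟩
    · intro X₁ X₂ h1 h2 Y hY
      obtain ⟨U₁, h3, h4⟩ := (rel_iff hr _ _).1 (h1 Y hY)
      obtain ⟨U₂, h5, h6⟩ := (rel_iff hr _ _).1 (h2 Y hY)
      obtain ⟨U, h7, h8, h9⟩ := key hr hE h3 h5 h4 h6
      exact (rel_iff hr _ _).2 ⟨U, Submodule.add_mem _ h7 h8, h9⟩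
    · intro Y _
      refine (rel_iff hr _ _).2 ⟨⊤, Submodule.zero_mem _, ?_⟩
      rw [inf_top_eq, inf_top_eq]
      exact Y.2
    · intro c X h Y hY
      obtain ⟨U, h3, h4⟩ := (rel_iff hr _ _).1 (h Y hY)
      exact (rel_iff hr _ _).2 ⟨U, Submodule.smul_mem _ c h3, h4⟩

end Pool.Agent.Y266.LT
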