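import Pool.Agent.Results.MP_16c542_al.NotLocality

/-!
# Statements for the dimension threshold of locality tensor products (MP_16c542_al)
-/

set_option autoImplicit false

open scoped TensorProduct

universe u v

namespace Pool.Agent.Y266.LT

open Pool.Agent.Results.MP_16c542_al.NotLocality

/-- `K` has a subring with a nontrivial involutive automorphism. -/
def HasInvolution (K : Type u) [Field K] : Prop :=
  ∃ (A : Type u) (_ : CommRing A) (ι : A →+* K) (θ : A →+* A), Function.Injective ι ∧
    (∀ a, θ (θ a) = a) ∧ ∃ a, θ a ≠ a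

/-- There is a decomposition of `Y` into pure tensors of related vectors, all vectors of which are
related to all elements of `Z`. -/
def Good {K F : Type*} [Field K] [AddCommGroup F] [Module K F] (r : F → F → Prop)
    (Y : F ⊗[K] F) (Z : Set F) : Prop :=
  ∃ (n : ℕ) (v w : Fin n → F), (∀ j, r (v j) (w j)) ∧ Y = ∑ j, v j ⊗ₜ[K] w j ∧
    ∀ z ∈ Z, ∀ j, r z (v j) ∧ r z (w j)

/-- There is a seed of dimension `n` over `K`. -/
def HasSeed (K : Type u) [Field K] (n : ℕ) : Prop :=
  ∃ (r : (Fin n → K) → (Fin n → K) → Prop) (Y : (Fin n → K) ⊗[K] (Fin n → K))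
    (y y' : Fin n → K), IsLocalitySpace K r ∧ Good r Y {y} ∧ Good r Y {y'} ∧ ¬ Good r Y {y, y'}

/-- `E` carries a locality relation whose tensor square is not a locality vector space. -/
def HasBad (K : Type u) [Field K] (E : Type v) [AddCommGroup E] [Module K E] : Prop :=
  ∃ r : E → E → Prop, IsLocalitySpace K r ∧ PolarNotClosed r (⊤ : Submodule K E) ⊤ ∧
    ¬ IsLocalitySpace K (TensorRel r (⊤ : Submodule K E) ⊤)

/-- Up to dimension `3` the answer is positive. -/
def S_POS : Prop :=
  ∀ (K : Type u) [Field K] (E : Type v) [AddCommGroup E] [Module K E] (r : E → E → Prop),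
    Module.rank K E ≤ 3 → IsLocalitySpace K r →
      ∀ V W : Submodule K E, IsLocalitySpace K (TensorRel r V W)

/-- A seed of dimension `n` gives bad relations in all dimensions larger than `n`. -/
def S_LIFT : Prop :=
  ∀ (K : Type u) [Field K] (n : ℕ), HasSeed K n →
    ∀ (E : Type v) [AddCommGroup E] [Module K E], (n : Cardinal) + 1 ≤ Module.rank K E →
      HasBad K E

/-- A seed of dimension three. -/
def S_N3 : Prop := ∀ (K : Type u) [Field K], HasInvolution K → HasSeed K 3

/-- A seed of dimension four. -/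
def S_N4 : Prop := ∀ (K : Type u) [Field K] (c : Fin 6 → K), Function.Injective c →
  (∀ i, c i ≠ 0) → HasSeed K 4

/-- The relation given by points `p i` with polar spaces `P i`. -/
def crel {K F I : Type*} [Field K] [AddCommGroup F] [Module K F] (p : I → F)
    (P : I → Submodule K F) (a b : F) : Prop :=
  a = 0 ∨ b = 0 ∨ ∃ i, (a ∈ Submodule.span K {p i} ∧ b ∈ P i) ∨
    (b ∈ Submodule.span K {p i} ∧ a ∈ P i)

/-- Configurations give locality relations. -/
def S_CONF : Prop :=
  ∀ (K : Type u) (F I : Type u) [Field K] [AddCommGroup F] [Module K F] (p : I → F)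
    (P : I → Submodule K F), (∀ i, p i ≠ 0) → (∀ i j, p i ∈ P j → p j ∈ P i) →
    (∀ i j, P i ≠ P j → ∀ b ∈ P i, b ∈ P j → b ≠ 0 → ∃ k, b ∈ Submodule.span K {p k}) →
    (∀ i j, p j ∈ Submodule.span K {p i} ↔ P i = P j) → IsLocalitySpace K (crel p P)

end Pool.Agent.Y266.LT
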