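import Pool.Agent.Y266.LT.POS

/-!
# Statements for dimension four over fields without involution (MP_16c542_al)
-/

set_option autoImplicit false

open scoped TensorProduct
open Module

universe u v

namespace Pool.Agent.Y266.LT

open Pool.Agent.Results.MP_16c542_al.NotLocality Pool.Agent.Y266.LT.Pos

/-- A self-polar triangle `s, t, y` with two pairs of related points with different products on
the line `s t` and a pair of related points on the line `s y`. -/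
def Tri (K : Type u) {E : Type v} [Field K] [AddCommGroup E] [Module K E]
    (r : E → E → Prop) : Prop :=
  ∃ (s t y : E) (a a' b b' c c' : K), r s t ∧ r s y ∧ r t y ∧ ¬ r s s ∧ ¬ r t t ∧ ¬ r y y ∧
    r (s + a • t) (s + a' • t) ∧ r (s + b • t) (s + b' • t) ∧ a * a' ≠ b * b' ∧
    r (s + c • y) (s + c' • y)

/-- J1: a triangle gives an involution. -/
def S_TRI : Prop :=
  ∀ (K : Type u) (E : Type v) [Field K] [AddCommGroup E] [Module K E] (r : E → E → Prop),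
    IsLocalitySpace K r → Tri K r → HasInvolution K

/-- J2: two pairs with different products. -/
def S_PROD : Prop :=
  ∀ (K : Type u) (E : Type v) [Field K] [AddCommGroup E] [Module K E] (r : E → E → Prop)
    (s t x : E), IsLocalitySpace K r → r s t → r x s → r x t → r x x → ¬ r s s → ¬ r t t →
    s ⊗ₜ[K] s ∈ LocTensor r (Submodule.span K {s, t, x}) (Submodule.span K {s, t, x}) →
    ∃ a a' b b' : K, r (s + a • t) (s + a' • t) ∧ r (s + b • t) (s + b' • t) ∧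
      a * a' ≠ b * b'

/-- J3a -/
def S_NON : Prop :=
  ∀ (K : Type u) (E : Type v) [Field K] [AddCommGroup E] [Module K E] (r : E → E → Prop)
    (s t₁ t₂ x z z₂ : E) (a a' b b' d d' τ : K), IsLocalitySpace K r →
    r x s → r x t₁ → r x t₂ → r s t₁ → r s t₂ → ¬ r s s → ¬ r t₁ t₁ →
    r (s + a • t₁) (s + a' • t₁) → r (s + b • t₁) (s + b' • t₁) → a * a' ≠ b * b' →
    r (s + d • t₂) (s + d' • t₂) → t₂ = τ • t₁ + z → r z t₁ → ¬ r z z → r z₂ s → r z₂ t₂ →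
    t₁ ∈ Submodule.span K {x, z, z₂} → Tri K r

/-- J3b -/
def S_ISO : Prop :=
  ∀ (K : Type u) (E : Type v) [Field K] [AddCommGroup E] [Module K E] (r : E → E → Prop)
    (s t x y : E) (a a' b b' c : K), IsLocalitySpace K r →
    r s t → r s x → r s y → r t x → r t y → r x x → ¬ r x y → ¬ r s s → ¬ r t t →
    r (y - t) (t + x) → r (s + a • t) (s + a' • t) → r (s + b • t) (s + b' • t) →
    a * a' ≠ b * b' → r y (y + c • x) → Tri K r

section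

variable {K : Type u} {E : Type v} [Field K] [AddCommGroup E] [Module K E] {r : E → E → Prop}

/-- minimal failing situation -/
structure Sit (hr : IsLocalitySpace K r) (V W U₁ U₂ : Submodule K E) (X₁ X₂ Y : E ⊗[K] E) :
    Prop where
  hX₁ : X₁ ∈ LocTensor r (V ⊓ plr hr U₁) (W ⊓ plr hr U₁)
  hX₂ : X₂ ∈ LocTensor r (V ⊓ plr hr U₂) (W ⊓ plr hr U₂)
  hY₁ : Y ∈ LocTensor r (V ⊓ U₁) (W ⊓ U₁)
  hY₂ : Y ∈ LocTensor r (V ⊓ U₂) (W ⊓ U₂)
  min₁ : ∀ U : Submodule K E, U < U₁ → Y ∉ LocTensor r (V ⊓ U) (W ⊓ U)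
  min₂ : ∀ U : Submodule K E, U < U₂ → Y ∉ LocTensor r (V ⊓ U) (W ⊓ U)
  nj : ¬ ∃ U : Submodule K E, X₁ ∈ LocTensor r (V ⊓ plr hr U) (W ⊓ plr hr U) ∧
      X₂ ∈ LocTensor r (V ⊓ plr hr U) (W ⊓ plr hr U) ∧ Y ∈ LocTensor r (V ⊓ U) (W ⊓ U)

end

/-- J4a: full spaces -/
def S_TN : Prop :=
  ∀ (K : Type u) (E : Type v) [Field K] [AddCommGroup E] [Module K E] (r : E → E → Prop)
    (_ : IsLocalitySpace K r) [FiniteDimensional K E] (V W U₁ U₂ N : Submodule K E)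
    (Y : E ⊗[K] E), Y ∈ LocTensor r (V ⊓ U₁) (W ⊓ U₁) → Y ∈ LocTensor r (V ⊓ U₂) (W ⊓ U₂) →
    U₁ ⊓ U₂ ≤ N → (∀ a ∈ N, ∀ b ∈ N, r a b) → Y ∈ LocTensor r (V ⊓ N) (W ⊓ N)

/-- J4b: almost full planes: `x` is related to all of `N`, and `Y` has no `s ⊗ s` component -/
def S_Q1 : Prop :=
  ∀ (K : Type u) (E : Type v) [Field K] [AddCommGroup E] [Module K E] (r : E → E → Prop)
    (_ : IsLocalitySpace K r) [FiniteDimensional K E] (V W U₁ U₂ N : Submodule K E) (x : E)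
    (Y : E ⊗[K] E), Y ∈ LocTensor r (V ⊓ U₁) (W ⊓ U₁) → Y ∈ LocTensor r (V ⊓ U₂) (W ⊓ U₂) →
    U₁ ⊓ U₂ ≤ N → finrank K N = 2 → x ∈ N → x ≠ 0 → (∀ b ∈ N, r x b) →
    (∀ f : E →ₗ[K] K, f x = 0 → TensorProduct.lid K K (TensorProduct.map f f Y) = 0) →
    Y ∈ LocTensor r (V ⊓ N) (W ⊓ N)

/-- J4c: two-dimensional spaces of full vectors -/
def S_Q2 : Prop :=
  ∀ (K : Type u) (E : Type v) [Field K] [AddCommGroup E] [Module K E] (r : E → E → Prop)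
    (_ : IsLocalitySpace K r) [FiniteDimensional K E] (V W U₁ U₂ Q : Submodule K E)
    (Y : E ⊗[K] E), Y ∈ LocTensor r (V ⊓ U₁) (W ⊓ U₁) → Y ∈ LocTensor r (V ⊓ U₂) (W ⊓ U₂) →
    finrank K U₁ = 3 → Q ≤ U₁ → finrank K Q = 2 → (∀ q ∈ Q, ∀ b ∈ U₁, r q b) → ¬ U₁ ≤ U₂ →
    Y ∈ LocTensor r (V ⊓ (U₁ ⊓ U₂)) (W ⊓ (U₁ ⊓ U₂))

/-- J4d: projection along a full vector of `V ⊓ W` -/
def S_PRJ : Prop :=
  ∀ (K : Type u) (E : Type v) [Field K] [AddCommGroup E] [Module K E] (r : E → E → Prop)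
    (_ : IsLocalitySpace K r) [FiniteDimensional K E] (V W U₁ U₂ U' : Submodule K E) (x : E)
    (Y : E ⊗[K] E), Y ∈ LocTensor r (V ⊓ U₁) (W ⊓ U₁) → Y ∈ LocTensor r (V ⊓ U₂) (W ⊓ U₂) →
    x ∈ V → x ∈ W → (∀ b ∈ U₁, r x b) → U' ≤ U₁ → U₁ ⊓ U₂ ≤ U' → x ∉ U' →
    U₁ ≤ U' ⊔ Submodule.span K {x} → Y ∈ LocTensor r (V ⊓ U') (W ⊓ U')

/-- J5 -/
def S_R3 : Prop :=
  ∀ (K : Type u) (E : Type v) [Field K] [AddCommGroup E] [Module K E] (r : E → E → Prop)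
    (hr : IsLocalitySpace K r) (V W U₁ U₂ : Submodule K E) (X₁ X₂ Y : E ⊗[K] E),
    finrank K E = 4 → Sit hr V W U₁ U₂ X₁ X₂ Y → plr hr (Set.univ : Set E) = ⊥ →
    finrank K U₁ ≠ 3

/-- J6 -/
def S_RN : Prop :=
  ∀ (K : Type u) (E : Type v) [Field K] [AddCommGroup E] [Module K E] (r : E → E → Prop)
    (hr : IsLocalitySpace K r) (V W U₁ U₂ : Submodule K E) (X₁ X₂ Y : E ⊗[K] E),
    finrank K E = 4 → Sit hr V W U₁ U₂ X₁ X₂ Y → plr hr (Set.univ : Set E) ≠ ⊥ → Tri K r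

/-- J7 -/
def S_R22 : Prop :=
  ∀ (K : Type u) (E : Type v) [Field K] [AddCommGroup E] [Module K E] (r : E → E → Prop)
    (hr : IsLocalitySpace K r) (V W U₁ U₂ : Submodule K E) (X₁ X₂ Y : E ⊗[K] E),
    finrank K E = 4 → Sit hr V W U₁ U₂ X₁ X₂ Y → plr hr (Set.univ : Set E) = ⊥ →
    finrank K U₁ = 2 → finrank K U₂ = 2 → Tri K r

end Pool.Agent.Y266.LT
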